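import Pool.Agent.W_eea520_g1.Mean

/-!
# The sum over the primes near `s = 1` (MP_eea520_nt, theorem G1)
-/

set_option autoImplicit false

namespace Pool.Agent.EEAG1

open Filter Topology

theorem A0_x_bounds {s : ℝ} (hs : 1 < s) (p : Nat.Primes) :
    0 < ((p : ℕ) : ℝ) ^ (-s) ∧ ((p : ℕ) : ℝ) ^ (-s) ≤ 1 / 2 ∧
      (((p : ℕ) : ℝ) ^ (-s)) ^ 2 ≤ ((p : ℕ) : ℝ) ^ (-(2 : ℝ)) := by
  have hp : (0 : ℝ) < ((p : ℕ) : ℝ) := by exact_mod_cast p.2.pos
  have h1p : (1 : ℝ) ≤ ((p : ℕ) : ℝ) := by exact_mod_cast p.2.one_lt.le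
  have h2p : (2 : ℝ) ≤ ((p : ℕ) : ℝ) := by exact_mod_cast p.2.two_le
  have h1 : ((p : ℕ) : ℝ) ^ (-s) ≤ ((p : ℕ) : ℝ) ^ (-(1 : ℝ)) :=
    Real.rpow_le_rpow_of_exponent_le h1p (by linarith)
  refine ⟨by positivity, ?_, ?_⟩
  · refine h1.trans ?_
    rw [Real.rpow_neg_one, one_div]
    exact inv_anti₀ (by norm_num) h2p
  · rw [← Real.rpow_natCast, ← Real.rpow_mul hp.le]
    exact Real.rpow_le_rpow_of_exponent_le h1p (by push_cast; linarith)

theorem A0_term {s : ℝ} (hs : 1 < s) (p : Nat.Primes) :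
    ‖((p : ℕ) : ℝ) ^ (-s) + Real.log (1 - ((p : ℕ) : ℝ) ^ (-s))‖ ≤
      2 * ((p : ℕ) : ℝ) ^ (-(2 : ℝ)) := by
  obtain ⟨h0, h1, h2⟩ := A0_x_bounds hs p
  set x : ℝ := ((p : ℕ) : ℝ) ^ (-s) with hx
  have h3 : |x| < 1 := by rw [abs_of_pos h0]; linarith
  have h4 := Real.abs_log_sub_add_sum_range_le h3 1
  rw [Finset.sum_range_one] at h4
  simp only [Nat.cast_zero, zero_add, pow_one, div_one] at h4
  rw [Real.norm_eq_abs]
  refine h4.trans ?_
  rw [abs_of_pos h0, div_le_iff₀ (by linarith)]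
  have h5 : 0 ≤ ((p : ℕ) : ℝ) ^ (-(2 : ℝ)) := by positivity
  have h6 : x ^ (1 + 1) = x ^ 2 := by norm_num
  rw [h6]
  nlinarith

theorem A0_summable2 : Summable fun p : Nat.Primes => 2 * ((p : ℕ) : ℝ) ^ (-(2 : ℝ)) :=
  (Nat.Primes.summable_rpow.2 (by norm_num)).mul_left 2

theorem A0_summable_term {s : ℝ} (hs : 1 < s) :
    Summable fun p : Nat.Primes => ((p : ℕ) : ℝ) ^ (-s) + Real.log (1 - ((p : ℕ) : ℝ) ^ (-s)) :=
  Summable.of_norm_bounded A0_summable2 fun p => A0_term hs p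

/-- the sum of the logarithms of the Euler factors -/
noncomputable def A0_E (s : ℝ) : ℝ := ∑' p : Nat.Primes, -Real.log (1 - ((p : ℕ) : ℝ) ^ (-s))

theorem A0_pz_sub {s : ℝ} (hs : 1 < s) :
    |pz s - A0_E s| ≤ ∑' p : Nat.Primes, 2 * ((p : ℕ) : ℝ) ^ (-(2 : ℝ)) := by
  have h1 := summable_pz hs
  have h2 := A0_summable_term hs
  have h3 : Summable fun p : Nat.Primes => -Real.log (1 - ((p : ℕ) : ℝ) ^ (-s)) := by
    refine (h1.sub h2).congr fun p => ?_
    ring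
  unfold pz A0_E
  rw [← h1.tsum_sub h3]
  have h4 : (fun p : Nat.Primes => ((p : ℕ) : ℝ) ^ (-s) - -Real.log (1 - ((p : ℕ) : ℝ) ^ (-s))) =
      fun p : Nat.Primes => ((p : ℕ) : ℝ) ^ (-s) + Real.log (1 - ((p : ℕ) : ℝ) ^ (-s)) := by
    funext p; ring
  rw [h4, ← Real.norm_eq_abs]
  exact tsum_of_norm_bounded A0_summable2.hasSum fun p => A0_term hs p

theorem A0_zeta {s : ℝ} (hs : 1 < s) : ‖riemannZeta (s : ℂ)‖ = Real.exp (A0_E s) := by
  have h1 := riemannZeta_eulerProduct_exp_log (s := (s : ℂ)) (by simpa using hs)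
  have h2 : ∑' p : Nat.Primes, -Complex.log (1 - ((p : ℕ) : ℂ) ^ (-(s : ℂ))) =
      ((A0_E s : ℝ) : ℂ) := by
    unfold A0_E
    rw [Complex.ofReal_tsum]
    refine tsum_congr fun p => ?_
    obtain ⟨h0, h1, h2⟩ := A0_x_bounds hs p
    rw [Complex.ofReal_neg, Complex.ofReal_log (by linarith), Complex.ofReal_sub,
      Complex.ofReal_one, Complex.ofReal_cpow (Nat.cast_nonneg _), Complex.ofReal_natCast,
      Complex.ofReal_neg]
  rw [← h1, h2, Complex.norm_exp, Complex.ofReal_re]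

/-- `∑_p p ^ (-s) = -log (s - 1) + O(1)`, `s → 1+`. Proof. `log ζ(s) = ∑_p -log (1 - p ^ (-s))`
(`riemannZeta_eulerProduct_exp_log`, or `riemannZeta_eulerProduct_hasProd` and real logarithms), every term
differs from `p ^ (-s)` by at most `p ^ (-2 s) ≤ p ^ (-2)`, and `(s - 1) ζ(s) → 1`
(`riemannZeta_residue_one`), so `log ‖ζ(s)‖ + log (s - 1) → 0`. (See also
`neg_log_le_primes` in `W_7742m_h74/ThomA.lean` for one of the two inequalities.) -/
theorem pz_asymp : ∃ C : ℝ, ∀ᶠ s : ℝ in 𝓝[>] 1, |pz s + Real.log (s - 1)| ≤ C := by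
  refine ⟨(∑' p : Nat.Primes, 2 * ((p : ℕ) : ℝ) ^ (-(2 : ℝ))) + 1, ?_⟩
  have h1 : Tendsto (fun s : ℝ => ((s : ℂ) - 1) * riemannZeta (s : ℂ)) (𝓝[>] 1) (𝓝 1) := by
    refine riemannZeta_residue_one.comp ?_
    refine tendsto_nhdsWithin_iff.2 ⟨?_, ?_⟩
    · have : Tendsto (fun s : ℝ => (s : ℂ)) (𝓝 1) (𝓝 ((1 : ℝ) : ℂ)) :=
        Complex.continuous_ofReal.tendsto 1
      rw [Complex.ofReal_one] at this
      exact this.mono_left nhdsWithin_le_nhds
    · filter_upwards [self_mem_nhdsWithin] with s hs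
      have hs' : (1 : ℝ) < s := hs
      intro h
      have : (s : ℂ) = 1 := h
      have : s = 1 := by exact_mod_cast this
      linarith
  have h2 : Tendsto (fun s : ℝ => Real.log ‖((s : ℂ) - 1) * riemannZeta (s : ℂ)‖) (𝓝[>] 1)
      (𝓝 0) := by
    have h3 := (Real.continuousAt_log (x := ‖(1 : ℂ)‖) (by simp)).tendsto.comp h1.norm
    rw [norm_one, Real.log_one] at h3
    exact h3
  have h4 : ∀ᶠ s : ℝ in 𝓝[>] 1, |Real.log ‖((s : ℂ) - 1) * riemannZeta (s : ℂ)‖| < 1 := by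
    have := h2.abs
    rw [abs_zero] at this
    exact this.eventually_lt_const one_pos
  filter_upwards [h4, self_mem_nhdsWithin] with s h5 hs
  have hs' : (1 : ℝ) < s := hs
  have h6 : ‖(s : ℂ) - 1‖ = s - 1 := by
    rw [← Complex.ofReal_one, ← Complex.ofReal_sub, Complex.norm_real, Real.norm_eq_abs,
      abs_of_pos (by linarith)]
  rw [norm_mul, h6, A0_zeta hs', Real.log_mul (by linarith) (Real.exp_pos _).ne', Real.log_exp] at h5
  have h7 := A0_pz_sub hs'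
  have e : pz s + Real.log (s - 1) = (pz s - A0_E s) + (Real.log (s - 1) + A0_E s) := by ring
  rw [e]
  exact (abs_add_le _ _).trans (by linarith)

/-- `pz s → ∞`. -/
theorem pz_atTop : Tendsto pz (𝓝[>] 1) atTop := by
  obtain ⟨C, hC⟩ := pz_asymp
  have h1 : Tendsto (fun s : ℝ => s - 1) (𝓝[>] 1) (𝓝[>] 0) := by
    refine tendsto_nhdsWithin_iff.2 ⟨?_, ?_⟩
    · have : Tendsto (fun s : ℝ => s - 1) (𝓝 1) (𝓝 (1 - 1)) :=
        (continuous_id.sub continuous_const).tendsto 1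
      rw [sub_self] at this
      exact this.mono_left nhdsWithin_le_nhds
    · filter_upwards [self_mem_nhdsWithin] with s hs
      have : (1 : ℝ) < s := hs
      exact sub_pos.2 this
  have h2 : Tendsto (fun s : ℝ => -Real.log (s - 1)) (𝓝[>] 1) atTop :=
    tendsto_neg_atBot_atTop.comp (Real.tendsto_log_nhdsGT_zero.comp h1)
  have h3 : Tendsto (fun s : ℝ => -Real.log (s - 1) + -C) (𝓝[>] 1) atTop :=
    tendsto_atTop_add_const_right _ _ h2
  refine tendsto_atTop_mono' _ ?_ h3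
  filter_upwards [hC] with s hs
  have := (abs_le.1 hs).1
  linarith

/-- If `psum a F s = -m log (s - 1) + O(1)`, then the mean value is `m`. -/
theorem mean_of_log {a : Nat.Primes → ℂ} {F : ℂ → ℝ} {m C : ℝ}
    (h : ∀ᶠ s : ℝ in 𝓝[>] 1, |psum a F s + m * Real.log (s - 1)| ≤ C) : Mean a F m := by
  obtain ⟨D, hD⟩ := pz_asymp
  unfold Mean
  rw [tendsto_iff_norm_sub_tendsto_zero]
  have h1 : Tendsto (fun s : ℝ => (C + |m| * D) / pz s) (𝓝[>] 1) (𝓝 0) :=
    pz_atTop.const_div_atTop _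
  refine squeeze_zero' (Eventually.of_forall fun s => norm_nonneg _) ?_ h1
  filter_upwards [h, hD, self_mem_nhdsWithin] with s h2 h3 hs
  have hs' : (1 : ℝ) < s := hs
  have hz := pz_pos hs'
  have e : psum a F s / pz s - m =
      ((psum a F s + m * Real.log (s - 1)) - m * (pz s + Real.log (s - 1))) / pz s := by
    field_simp
    ring
  rw [Real.norm_eq_abs, e, abs_div, abs_of_pos hz]
  refine div_le_div_of_nonneg_right ?_ hz.le
  refine (abs_sub _ _).trans ?_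
  rw [abs_mul]
  have := mul_le_mul_of_nonneg_left h3 (abs_nonneg m)
  linarith

end Pool.Agent.EEAG1
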