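import Pool.Agent.W_eea520_g1.Mean

/-!
# The logarithm of the Euler product (MP_eea520_nt, theorem G1)
-/

set_option autoImplicit false

namespace Pool.Agent.EEAG1

open Filter Topology

/-- The trace of `Sym^k` at `diag(a, a⁻¹)` (its real part; it is real for `|a| = 1`). -/
noncomputable def chi (k : ℕ) (a : ℂ) : ℝ := (∑ j ∈ Finset.range (k + 1), a ^ ((k : ℤ) - 2 * j)).re

/-- The complex trace. -/
private noncomputable def A1X (k : ℕ) (a : ℂ) : ℂ :=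
  ∑ j ∈ Finset.range (k + 1), a ^ ((k : ℤ) - 2 * j)

/-- The logarithm of the factor. -/
private noncomputable def A1l (k : ℕ) (a q : ℂ) : ℂ :=
  ∑ j ∈ Finset.range (k + 1), -Complex.log (1 - a ^ ((k : ℤ) - 2 * j) * q)

private theorem A1_norm_pow {a : ℂ} (ha : ‖a‖ = 1) (n : ℤ) : ‖a ^ n‖ = 1 := by
  rw [norm_zpow, ha, one_zpow]

private theorem A1_exp {a : ℂ} (ha : ‖a‖ = 1) (k : ℕ) {q : ℂ} (hq : ‖q‖ ≤ 1 / 2) :
    Complex.exp (A1l k a q) = symFactor a k q := by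
  unfold A1l symFactor
  rw [Complex.exp_sum]
  refine Finset.prod_congr rfl fun j _ => ?_
  have h1 : (1 : ℂ) - a ^ ((k : ℤ) - 2 * j) * q ≠ 0 := by
    intro h0
    have h2 : a ^ ((k : ℤ) - 2 * j) * q = 1 := (sub_eq_zero.1 h0).symm
    have h3 : ‖a ^ ((k : ℤ) - 2 * j) * q‖ = 1 := by rw [h2, norm_one]
    rw [norm_mul, A1_norm_pow ha, one_mul] at h3
    rw [h3] at hq
    norm_num at hq
  rw [Complex.exp_neg, Complex.exp_log h1]

private theorem A1_bound {a : ℂ} (ha : ‖a‖ = 1) (k : ℕ) {q : ℂ} (hq : ‖q‖ ≤ 1 / 2) :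
    ‖A1l k a q - A1X k a * q‖ ≤ (k + 1) * ‖q‖ ^ 2 := by
  unfold A1l A1X
  rw [Finset.sum_mul, ← Finset.sum_sub_distrib]
  have h1 : ∀ j ∈ Finset.range (k + 1),
      ‖-Complex.log (1 - a ^ ((k : ℤ) - 2 * j) * q) - a ^ ((k : ℤ) - 2 * j) * q‖ ≤ ‖q‖ ^ 2 := by
    intro j _
    have hz : ‖-(a ^ ((k : ℤ) - 2 * j) * q)‖ = ‖q‖ := by
      rw [norm_neg, norm_mul, A1_norm_pow ha, one_mul]
    have h2 := Complex.norm_log_one_add_sub_self_le
      (z := -(a ^ ((k : ℤ) - 2 * j) * q)) (by rw [hz]; linarith)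
    rw [hz] at h2
    have h3 : -Complex.log (1 - a ^ ((k : ℤ) - 2 * j) * q) - a ^ ((k : ℤ) - 2 * j) * q =
        -(Complex.log (1 + -(a ^ ((k : ℤ) - 2 * j) * q)) - -(a ^ ((k : ℤ) - 2 * j) * q)) := by
      rw [← sub_eq_add_neg]
      ring
    rw [h3, norm_neg]
    refine h2.trans ?_
    have h4 : (1 - ‖q‖)⁻¹ ≤ 2 := by
      rw [inv_le_comm₀ (by linarith) (by norm_num)]
      linarith
    have h5 : 0 ≤ ‖q‖ ^ 2 := by positivity
    nlinarith [mul_le_mul_of_nonneg_left h4 h5]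
  refine (norm_sum_le_of_le _ h1).trans ?_
  rw [Finset.sum_const, Finset.card_range, nsmul_eq_mul]
  push_cast
  exact le_rfl

private theorem A1_normX {a : ℂ} (ha : ‖a‖ = 1) (k : ℕ) : ‖A1X k a‖ ≤ k + 1 := by
  unfold A1X
  refine (norm_sum_le_of_le _ fun j _ => (A1_norm_pow ha _).le).trans ?_
  rw [Finset.sum_const, Finset.card_range, nsmul_eq_mul]
  push_cast
  rw [mul_one]

/-- Proof. Let `q = p ^ (-s)`, `s > 1` real, so `0 < q ≤ 1/2`, and `l_p = ∑_j -log (1 - a_p ^ (k - 2j) q)`. Then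
`exp l_p` is the factor, `|l_p - χ_k(a_p) q| ≤ (k + 1) q ^ 2` (`Complex.norm_log_one_add_sub_self_le`), so
`∑ l_p` converges absolutely and `exp (∑ l_p)` is the product (`HasSum.cexp`, uniqueness of
the product). So `log ‖P‖ = Re ∑ l_p` and `|Re ∑ l_p - psum a (chi k) s| ≤ (k + 1) ∑ p ^ (-2 s)
≤ (k + 1) ∑ p ^ (-2)`. -/
theorem log_prod {a : Nat.Primes → ℂ} (ha : ∀ p, ‖a p‖ = 1) (k : ℕ) : ∃ C : ℝ, ∀ s : ℝ, 1 < s →
    ∀ P : ℂ, HasProd (fun p : Nat.Primes => symFactor (a p) k (((p : ℕ) : ℂ) ^ (-(s : ℂ)))) P →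
      P ≠ 0 ∧ |Real.log ‖P‖ - psum a (chi k) s| ≤ C := by
  have hsum2 : Summable fun p : Nat.Primes => ((p : ℕ) : ℝ) ^ (-2 : ℝ) :=
    Nat.Primes.summable_rpow.2 (by norm_num)
  refine ⟨∑' p : Nat.Primes, ((k : ℝ) + 1) * ((p : ℕ) : ℝ) ^ (-2 : ℝ), fun s hs P hP => ?_⟩
  have hp2 : ∀ p : Nat.Primes, (2 : ℝ) ≤ ((p : ℕ) : ℝ) := fun p => by
    exact_mod_cast p.2.two_le
  set r : Nat.Primes → ℝ := fun p => ((p : ℕ) : ℝ) ^ (-s) with hr
  set q : Nat.Primes → ℂ := fun p => ((p : ℕ) : ℂ) ^ (-(s : ℂ)) with hq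
  have hqr : ∀ p, q p = ((r p : ℝ) : ℂ) := by
    intro p
    simp only [hq, hr]
    rw [Complex.ofReal_cpow (by linarith [hp2 p])]
    push_cast
    rfl
  have hr0 : ∀ p, 0 < r p := fun p => Real.rpow_pos_of_pos (by linarith [hp2 p]) _
  have hr1 : ∀ p, r p ≤ ((p : ℕ) : ℝ) ^ (-1 : ℝ) := fun p =>
    Real.rpow_le_rpow_of_exponent_le (by linarith [hp2 p]) (by linarith)
  have hnq : ∀ p, ‖q p‖ = r p := by
    intro p
    rw [hqr p, Complex.norm_real, Real.norm_of_nonneg (hr0 p).le]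
  have hhalf : ∀ p, ‖q p‖ ≤ 1 / 2 := by
    intro p
    rw [hnq p]
    refine (hr1 p).trans ?_
    rw [Real.rpow_neg_one, one_div]
    exact inv_anti₀ (by norm_num) (hp2 p)
  have hsq : ∀ p, ‖q p‖ ^ 2 ≤ ((p : ℕ) : ℝ) ^ (-2 : ℝ) := by
    intro p
    rw [hnq p]
    have h1 : ((p : ℕ) : ℝ) ^ (-2 : ℝ) = (((p : ℕ) : ℝ) ^ (-1 : ℝ)) ^ 2 := by
      rw [← Real.rpow_natCast, ← Real.rpow_mul (by linarith [hp2 p])]
      norm_num
    rw [h1]
    exact pow_le_pow_left₀ (hr0 p).le (hr1 p) 2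
  have hsr : Summable r := Nat.Primes.summable_rpow.2 (by linarith)
  -- the difference
  have hD : ∀ p, ‖A1l k (a p) (q p) - A1X k (a p) * q p‖ ≤
      ((k : ℝ) + 1) * ((p : ℕ) : ℝ) ^ (-2 : ℝ) := fun p =>
    (A1_bound (ha p) k (hhalf p)).trans
      (mul_le_mul_of_nonneg_left (hsq p) (by positivity))
  have hsumC : Summable fun p : Nat.Primes => ((k : ℝ) + 1) * ((p : ℕ) : ℝ) ^ (-2 : ℝ) :=
    hsum2.mul_left _
  have hsumD : Summable fun p => A1l k (a p) (q p) - A1X k (a p) * q p :=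
    Summable.of_norm_bounded hsumC hD
  have hsumX : Summable fun p => A1X k (a p) * q p := by
    refine Summable.of_norm_bounded (hsr.mul_left ((k : ℝ) + 1)) fun p => ?_
    rw [norm_mul, hnq p]
    exact mul_le_mul_of_nonneg_right (A1_normX (ha p) k) (hr0 p).le
  have hsuml : Summable fun p => A1l k (a p) (q p) := by
    refine (hsumD.add hsumX).congr fun p => ?_
    ring
  have hprod : HasProd (fun p : Nat.Primes => symFactor (a p) k (q p))
      (Complex.exp (∑' p, A1l k (a p) (q p))) := by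
    have h1 := hsuml.hasSum.cexp
    have h2 : (Complex.exp ∘ fun p => A1l k (a p) (q p)) =
        fun p : Nat.Primes => symFactor (a p) k (q p) := by
      funext p
      exact A1_exp (ha p) k (hhalf p)
    rw [h2] at h1
    exact h1
  have hPe : P = Complex.exp (∑' p, A1l k (a p) (q p)) := hP.unique hprod
  refine ⟨by rw [hPe]; exact Complex.exp_ne_zero _, ?_⟩
  rw [hPe, Complex.norm_exp, Real.log_exp]
  have hps : psum a (chi k) s = (∑' p, A1X k (a p) * q p).re := by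
    rw [Complex.re_tsum hsumX]
    unfold psum
    refine tsum_congr fun p => ?_
    rw [hqr p, Complex.re_mul_ofReal]
    rfl
  rw [hps, ← Complex.sub_re, ← hsuml.tsum_sub hsumX]
  exact (Complex.abs_re_le_norm _).trans (tsum_of_norm_bounded hsumC.hasSum hD)

end Pool.Agent.EEAG1
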