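import Mathlib

/-!
# The logarithm of a meromorphic function on a real interval (MP_eea520_nt, theorem G1)
-/

set_option autoImplicit false

namespace Pool.Agent.EEAG1

open Filter Topology

/-- Proof. The order is not `⊤` as otherwise `g` would be zero on a punctured neighbourhood of `1`
(`meromorphicOrderAt_eq_top_iff`). By `meromorphicOrderAt_eq_int_iff`, `g z = (z - 1) ^ n • h z` near `1`, `h`
analytic at `1`, `h 1 ≠ 0`; so `log ‖g s‖ = n log (s - 1) + log ‖h s‖` for `s > 1` near `1`, and the last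
term has a limit. -/
theorem log_meromorphic {g : ℂ → ℂ} (hg : MeromorphicAt g 1)
    (h0 : ∀ᶠ s : ℝ in 𝓝[>] 1, g (s : ℂ) ≠ 0) : ∃ n : ℤ, meromorphicOrderAt g 1 = n ∧
      ∃ C : ℝ, ∀ᶠ s : ℝ in 𝓝[>] 1, |Real.log ‖g (s : ℂ)‖ - n * Real.log (s - 1)| ≤ C := by
  have hmap : Tendsto (fun s : ℝ => (s : ℂ)) (𝓝[>] 1) (𝓝[≠] (1 : ℂ)) := by
    apply tendsto_nhdsWithin_of_tendsto_nhds_of_eventually_within
    · have : ContinuousAt (fun s : ℝ => (s : ℂ)) 1 := Complex.continuous_ofReal.continuousAt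
      have h1 := this.tendsto
      rw [Complex.ofReal_one] at h1
      exact h1.mono_left nhdsWithin_le_nhds
    · filter_upwards [self_mem_nhdsWithin] with s hs
      have hs' : (1 : ℝ) < s := hs
      intro h
      have h2 : (s : ℂ) = ((1 : ℝ) : ℂ) := by simpa using h
      exact absurd (Complex.ofReal_injective h2) hs'.ne'
  have hmap' : Tendsto (fun s : ℝ => (s : ℂ)) (𝓝[>] 1) (𝓝 (1 : ℂ)) :=
    hmap.mono_right nhdsWithin_le_nhds
  have hne : meromorphicOrderAt g 1 ≠ ⊤ := by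
    intro h
    rw [meromorphicOrderAt_eq_top_iff] at h
    have h1 : ∀ᶠ s : ℝ in 𝓝[>] 1, g (s : ℂ) = 0 := hmap.eventually h
    obtain ⟨s, hs, hs'⟩ := (h1.and h0).exists
    exact hs' hs
  obtain ⟨n, hn⟩ := WithTop.ne_top_iff_exists.1 hne
  refine ⟨n, hn.symm, ?_⟩
  obtain ⟨h, hh, hh1, hev⟩ := (meromorphicOrderAt_eq_int_iff hg).1 hn.symm
  have hlim : Tendsto (fun s : ℝ => Real.log ‖h (s : ℂ)‖) (𝓝[>] 1) (𝓝 (Real.log ‖h 1‖)) := by
    have h1 : Tendsto (fun s : ℝ => ‖h (s : ℂ)‖) (𝓝[>] 1) (𝓝 ‖h 1‖) :=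
      (hh.continuousAt.norm.tendsto).comp hmap'
    exact h1.log (norm_ne_zero_iff.2 hh1)
  refine ⟨|Real.log ‖h 1‖| + 1, ?_⟩
  have hb : ∀ᶠ s : ℝ in 𝓝[>] 1, |Real.log ‖h (s : ℂ)‖| < |Real.log ‖h 1‖| + 1 :=
    hlim.abs.eventually_lt_const (by linarith)
  have hh0 : ∀ᶠ s : ℝ in 𝓝[>] 1, h (s : ℂ) ≠ 0 :=
    (hh.continuousAt.tendsto.comp hmap').eventually_ne hh1
  filter_upwards [hb, hh0, hmap.eventually hev, self_mem_nhdsWithin] with s hs1 hs2 hs3 hs4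
  have hs5 : (1 : ℝ) < s := hs4
  have hs6 : (0 : ℝ) < s - 1 := by linarith
  have hnorm : ‖((s : ℂ) - 1)‖ = s - 1 := by
    have : ((s : ℂ) - 1) = ((s - 1 : ℝ) : ℂ) := by push_cast; ring
    rw [this, Complex.norm_real, Real.norm_of_nonneg hs6.le]
  rw [hs3, norm_smul, norm_zpow, hnorm, Real.log_mul (zpow_ne_zero _ hs6.ne')
    (norm_ne_zero_iff.2 hs2), Real.log_zpow, add_sub_cancel_left]
  exact hs1.le

end Pool.Agent.EEAG1
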