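import Pool.Agent.W_eea520_g1.A0
import Pool.Agent.W_eea520_g1.A1
import Pool.Agent.W_eea520_g1.A2

/-!
# The mean values of the characters of `SU(2)` (MP_eea520_nt, theorem G1)
-/

set_option autoImplicit false

namespace Pool.Agent.EEAG1

open Filter Topology

/-- A meromorphic continuation has an integral order (`log_prod`: the product is not zero;
`log_meromorphic`). -/
theorem exists_order {a : Nat.Primes → ℂ} (ha : ∀ p, ‖a p‖ = 1) {k : ℕ} {g : ℂ → ℂ}
    (hg : MeromorphicAt g 1) (h : IsSymL a k g) : ∃ n : ℤ, HasOrder a k n := by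
  obtain ⟨C, hC⟩ := log_prod ha k
  have h0 : ∀ᶠ s : ℝ in 𝓝[>] 1, g (s : ℂ) ≠ 0 := by
    filter_upwards [h, self_mem_nhdsWithin] with s hs hs1
    exact (hC s hs1 (g s) hs).1
  obtain ⟨n, hn, -⟩ := log_meromorphic hg h0
  exact ⟨n, g, hg, hn, h⟩

/-- `log_prod`, `log_meromorphic` and `mean_of_log`. -/
theorem mean_chi {a : Nat.Primes → ℂ} (ha : ∀ p, ‖a p‖ = 1) {k : ℕ} {n : ℤ} (h : HasOrder a k n) :
    Mean a (chi k) (-n) := by
  obtain ⟨g, hg, hn, hs⟩ := h
  obtain ⟨C, hC⟩ := log_prod ha k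
  have h0 : ∀ᶠ s : ℝ in 𝓝[>] 1, g (s : ℂ) ≠ 0 := by
    filter_upwards [hs, self_mem_nhdsWithin] with s hs hs1
    exact (hC s hs1 (g s) hs).1
  obtain ⟨n', hn', C', hC'⟩ := log_meromorphic hg h0
  have hnn : n' = n := by
    rw [hn] at hn'
    exact (WithTop.coe_injective hn').symm
  subst hnn
  refine mean_of_log (C := C' + C) ?_
  filter_upwards [hs, hC', self_mem_nhdsWithin] with s hs1 hs2 hs3
  have h1 := (hC s hs3 (g s) hs1).2
  have e : psum a (chi k) s + -(n' : ℝ) * Real.log (s - 1) =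
      (Real.log ‖g (s : ℂ)‖ - n' * Real.log (s - 1)) -
        (Real.log ‖g (s : ℂ)‖ - psum a (chi k) s) := by ring
  rw [e]
  exact (abs_sub _ _).trans (add_le_add hs2 h1)

end Pool.Agent.EEAG1
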