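import Mathlib

/-!
# Positive definite sequences are matrix coefficients (MP_eea520_nt, theorem G1)
-/

set_option autoImplicit false

namespace Pool.Agent.EEAG1

open Filter Topology
open scoped InnerProductSpace

/-- Symmetric positive semidefinite sequences. -/
structure PosDef (c : ℤ → ℝ) : Prop where
  symm : ∀ k, c (-k) = c k
  nonneg : ∀ x : ℤ →₀ ℝ, 0 ≤ x.sum fun i a => x.sum fun j b => a * b * c (i - j)

/-- The semi inner product. -/
@[reducible] noncomputable def core (c : ℤ → ℝ) (hc : PosDef c) : PreInnerProductSpace.Core ℝ (ℤ →₀ ℝ) where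
  inner x y := x.sum fun i a => y.sum fun j b => a * b * c (i - j)
  conj_inner_symm x y := by
    rw [conj_trivial, Finsupp.sum_comm]
    refine Finsupp.sum_congr fun i _ => Finsupp.sum_congr fun j _ => ?_
    rw [← hc.symm, neg_sub]
    ring
  re_inner_nonneg x := hc.nonneg x
  add_left x y z := by
    rw [Finsupp.sum_add_index'] <;> simp [← Finsupp.sum_add, add_mul]
  smul_left x y r := by
    rw [Finsupp.sum_smul_index] <;> simp [Finsupp.mul_sum, ← mul_assoc]

/-- The Hilbert space of a positive definite sequence, with the shift. -/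
theorem exists_gns {c : ℤ → ℝ} (hc : PosDef c) : ∃ (H : Type) (_ : NormedAddCommGroup H)
    (_ : InnerProductSpace ℝ H) (_ : CompleteSpace H) (T : H ≃ₗᵢ[ℝ] H) (v : H),
    ∀ k : ℤ, ⟪(T ^ k) v, v⟫_ℝ = c k := by
  let _ : PreInnerProductSpace.Core ℝ (ℤ →₀ ℝ) := core c hc
  let _ : SeminormedAddCommGroup (ℤ →₀ ℝ) := InnerProductSpace.Core.toSeminormedAddCommGroup (𝕜 := ℝ)
  let _ : InnerProductSpace ℝ (ℤ →₀ ℝ) := .ofCore _
  have hin : ∀ x y : ℤ →₀ ℝ, ⟪x, y⟫_ℝ = x.sum fun i a => y.sum fun j b => a * b * c (i - j) :=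
    fun x y => rfl
  let f : (ℤ →₀ ℝ) ≃ₗ[ℝ] (ℤ →₀ ℝ) := Finsupp.domLCongr (Equiv.addRight (1 : ℤ))
  have hfs : ∀ (k : ℤ) (a : ℝ), f (Finsupp.single k a) = Finsupp.single (k + 1) a := by
    intro k a
    simp [f]
  have hfinner : ∀ x : ℤ →₀ ℝ, ⟪f x, f x⟫_ℝ = ⟪x, x⟫_ℝ := by
    intro x
    rw [hin, hin]
    have h1 : f x = x.equivMapDomain (Equiv.addRight (1 : ℤ)) := rfl
    rw [h1, Finsupp.sum_equivMapDomain]
    refine Finsupp.sum_congr fun i _ => ?_
    rw [Finsupp.sum_equivMapDomain]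
    refine Finsupp.sum_congr fun j _ => ?_
    rw [Equiv.coe_addRight, add_sub_add_right_eq_sub]
  have hfn : ∀ x : ℤ →₀ ℝ, ‖f x‖ = ‖x‖ := by
    intro x
    rw [norm_eq_sqrt_real_inner, norm_eq_sqrt_real_inner, hfinner]
  let e : (ℤ →₀ ℝ) →ₗ[ℝ] UniformSpace.Completion (ℤ →₀ ℝ) :=
    (UniformSpace.Completion.toComplₗᵢ (𝕜 := ℝ) (E := ℤ →₀ ℝ)).toLinearMap
  have he : ∀ x, e x = (x : UniformSpace.Completion (ℤ →₀ ℝ)) := fun x => rfl
  have hd : DenseRange e := UniformSpace.Completion.denseRange_coe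
  let T : UniformSpace.Completion (ℤ →₀ ℝ) ≃ₗᵢ[ℝ] UniformSpace.Completion (ℤ →₀ ℝ) :=
    f.extendOfIsometry e e hd hd (fun x => by
      rw [he, he, UniformSpace.Completion.norm_coe, UniformSpace.Completion.norm_coe, hfn])
  have hT : ∀ x, T (e x) = e (f x) := fun x => LinearEquiv.extendOfIsometry_eq f e e hd hd _ x
  refine ⟨UniformSpace.Completion (ℤ →₀ ℝ), inferInstance, inferInstance, inferInstance, T,
    e (Finsupp.single 0 1), fun k => ?_⟩
  have hTk : ∀ k : ℤ, (T ^ k) (e (Finsupp.single 0 1)) = e (Finsupp.single k 1) := by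
    intro k
    induction k using Int.induction_on with
    | zero =>
      rw [zpow_zero]
      rfl
    | succ k ih =>
      have h1 : (T ^ ((k : ℤ) + 1)) = T * T ^ (k : ℤ) := by rw [add_comm, zpow_add, zpow_one]
      rw [h1]
      show T ((T ^ (k : ℤ)) (e (Finsupp.single 0 1))) = _
      rw [ih, hT, hfs]
    | pred k ih =>
      have h1 : (T ^ (-(k : ℤ))) = T * T ^ (-(k : ℤ) - 1) := by
        rw [← zpow_one_add]
        congr 1
        ring
      rw [h1] at ih
      refine T.injective ?_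
      rw [hT, hfs, sub_add_cancel]
      exact ih
  rw [hTk, he, he, UniformSpace.Completion.inner_coe, hin]
  simp

end Pool.Agent.EEAG1
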