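import Pool.Agent.W_eea520_g1.A3
import Pool.Agent.W_eea520_g1.K1

/-!
# The moments form a positive definite sequence of integers (MP_eea520_nt, theorem G1)
-/

set_option autoImplicit false

namespace Pool.Agent.EEAG1

open Filter Topology

theorem A5_inv {z : ℂ} (hz : ‖z‖ = 1) (k : ℤ) : z ^ (-k) = (starRingEnd ℂ) (z ^ k) := by
  rw [zpow_neg, Complex.inv_eq_conj]
  rw [norm_zpow, hz, one_zpow]

theorem A5_re {z : ℂ} (hz : ‖z‖ = 1) (k : ℤ) : (z ^ (-k)).re = (z ^ k).re := by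
  rw [A5_inv hz, Complex.conj_re]

theorem A5_chi_bd (k : ℕ) : Bdc (chi k) := by
  refine ⟨(k : ℝ) + 1, fun z hz => ?_⟩
  unfold chi
  refine (Complex.abs_re_le_norm _).trans ((norm_sum_le _ _).trans ?_)
  have h1 : ∀ j ∈ Finset.range (k + 1), ‖z ^ ((k : ℤ) - 2 * (j : ℤ))‖ = 1 := by
    intro j _
    rw [norm_zpow, hz, one_zpow]
  rw [Finset.sum_congr rfl h1, Finset.sum_const, Finset.card_range, nsmul_eq_mul, mul_one]
  push_cast
  exact le_rfl

theorem A5_re_bd (k : ℤ) : Bdc (fun z => 2 * (z ^ k).re) := by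
  refine ⟨2, fun z hz => ?_⟩
  rw [abs_mul, abs_two]
  have h1 : |(z ^ k).re| ≤ 1 := by
    refine (Complex.abs_re_le_norm _).trans ?_
    rw [norm_zpow, hz, one_zpow]
  linarith

theorem A5_mul_bd {F : ℂ → ℝ} (hF : Bdc F) (r : ℝ) : Bdc (fun z => r * F z) := by
  obtain ⟨C, hC⟩ := hF
  refine ⟨|r| * C, fun z hz => ?_⟩
  rw [abs_mul]
  exact mul_le_mul_of_nonneg_left (hC z hz) (abs_nonneg r)

theorem A5_sub {a : Nat.Primes → ℂ} (ha : ∀ p, ‖a p‖ = 1) {F G : ℂ → ℝ} (hF : Bdc F) (hG : Bdc G)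
    {L M : ℝ} (h : Mean a F L) (h' : Mean a G M) : Mean a (fun z => F z - G z) (L - M) := by
  have h1 := Mean.add ha hF (A5_mul_bd hG (-1)) h (h'.const_mul (-1))
  have h2 : L + -1 * M = L - M := by ring
  rw [h2] at h1
  exact Mean.congr ha h1 fun z _ => by ring

/-- `c_k`, `k ≥ 0`, in terms of the orders `n_k` at `s = 1` of the `L(s, Sym^k)`, `k ≥ 1`. -/
def cN (n : ℕ → ℤ) : ℕ → ℤ
  | 0 => 2
  | 1 => -n 1
  | 2 => -n 2 - 1
  | k + 3 => n (k + 1) - n (k + 3)

/-- On the unit circle `2 Re z ^ k = χ_k(z) - χ_{k-2}(z)`, `k ≥ 2`, `2 Re z = χ_1(z)`. -/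
theorem two_re_pow (k : ℕ) {z : ℂ} (hz : ‖z‖ = 1) :
    2 * (z ^ ((k : ℤ) + 2)).re = chi (k + 2) z - chi k z := by
  unfold chi
  rw [Finset.sum_range_succ, Finset.sum_range_succ']
  have h1 : ∀ j ∈ Finset.range (k + 1),
      z ^ (((k + 2 : ℕ) : ℤ) - 2 * ((j + 1 : ℕ) : ℤ)) = z ^ ((k : ℤ) - 2 * (j : ℤ)) := by
    intro j _
    congr 1
    push_cast
    ring
  rw [Finset.sum_congr rfl h1]
  have h2 : ((k + 2 : ℕ) : ℤ) - 2 * ((0 : ℕ) : ℤ) = (k : ℤ) + 2 := by push_cast; ring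
  have h3 : ((k + 2 : ℕ) : ℤ) - 2 * ((k + 1 + 1 : ℕ) : ℤ) = -((k : ℤ) + 2) := by push_cast; ring
  rw [h2, h3, Complex.add_re, Complex.add_re, A5_re hz]
  ring

/-- `mean_chi`, `two_re_pow`, `chi 0 = 1`, `Mean.one`, `Mean.congr`; for negative `k` use
`(z ^ (-k)).re = (z ^ k).re` on the unit circle. -/
theorem mean_re {a : Nat.Primes → ℂ} (ha : ∀ p, ‖a p‖ = 1) {n : ℕ → ℤ}
    (h : ∀ k, 1 ≤ k → HasOrder a k (n k)) (k : ℤ) :
    Mean a (fun z => 2 * (z ^ k).re) (cN n k.natAbs) := by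
  have key : ∀ m : ℕ, Mean a (fun z => 2 * (z ^ (m : ℤ)).re) (cN n m) := by
    intro m
    match m with
    | 0 =>
      have h1 := (Mean.one (a := a)).const_mul 2
      have h2 : ((cN n 0 : ℤ) : ℝ) = 2 * 1 := by
        simp [cN]
      rw [h2]
      refine Mean.congr ha h1 fun z _ => ?_
      simp
    | 1 =>
      have h1 := mean_chi ha (h 1 le_rfl)
      have h2 : ((cN n 1 : ℤ) : ℝ) = -(n 1 : ℝ) := by
        simp [cN]
      rw [h2]
      refine Mean.congr ha h1 fun z hz => ?_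
      unfold chi
      rw [Finset.sum_range_succ, Finset.sum_range_one]
      have e1 : (((1 : ℕ) : ℤ) - 2 * ((0 : ℕ) : ℤ)) = 1 := by norm_num
      have e2 : (((1 : ℕ) : ℤ) - 2 * ((1 : ℕ) : ℤ)) = -1 := by norm_num
      rw [e1, e2, Complex.add_re, A5_re hz]
      push_cast
      ring
    | 2 =>
      have h1 := A5_sub ha (A5_chi_bd 2) (A5_chi_bd 0) (mean_chi ha (h 2 (by norm_num)))
        (L := -(n 2 : ℝ)) (M := 1) ?_
      · have h2 : ((cN n 2 : ℤ) : ℝ) = -(n 2 : ℝ) - 1 := by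
          simp [cN]
        rw [h2]
        refine Mean.congr ha h1 fun z hz => ?_
        have h3 := two_re_pow 0 hz
        rw [← h3]
        norm_num
      · refine Mean.congr ha (Mean.one (a := a)) fun z _ => ?_
        unfold chi
        simp
    | k + 3 =>
      have h1 := A5_sub ha (A5_chi_bd (k + 3)) (A5_chi_bd (k + 1))
        (mean_chi ha (h (k + 3) (by omega))) (mean_chi ha (h (k + 1) (by omega)))
      have h2 : ((cN n (k + 3) : ℤ) : ℝ) = -(n (k + 3) : ℝ) - -(n (k + 1) : ℝ) := by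
        simp only [cN]
        push_cast
        ring
      rw [h2]
      refine Mean.congr ha h1 fun z hz => ?_
      have h3 := two_re_pow (k + 1) hz
      have e1 : (((k + 1 : ℕ) : ℤ) + 2) = ((k + 3 : ℕ) : ℤ) := by push_cast; ring
      rw [e1] at h3
      exact h3.symm
  have h1 := key k.natAbs
  rcases Int.natAbs_eq k with h2 | h2
  · rw [← h2] at h1
    exact h1
  · refine Mean.congr ha h1 fun z hz => ?_
    conv_rhs => rw [h2]
    rw [A5_re hz]

/-- `∑_{i, j} x_i x_j c (i - j)` is the mean value of `2 |∑ x_i z ^ i| ^ 2 ≥ 0`. -/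
theorem posDef_of_mean {a : Nat.Primes → ℂ} (ha : ∀ p, ‖a p‖ = 1) {c : ℤ → ℝ}
    (h : ∀ k : ℤ, Mean a (fun z => 2 * (z ^ k).re) (c k)) : PosDef c := by
  refine ⟨fun k => ?_, fun x => ?_⟩
  · have h1 := h (-k)
    have h2 : Mean a (fun z => 2 * (z ^ k).re) (c (-k)) :=
      Mean.congr ha h1 fun z hz => by
        show 2 * (z ^ (-k)).re = 2 * (z ^ k).re
        rw [A5_re hz]
    exact tendsto_nhds_unique h2 (h k)
  · have h1 : Mean a (fun z => ∑ p ∈ x.support ×ˢ x.support,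
        x p.1 * x p.2 * (2 * (z ^ (p.1 - p.2)).re))
        (∑ p ∈ x.support ×ˢ x.support, x p.1 * x p.2 * c (p.1 - p.2)) :=
      Mean.sum ha (x.support ×ˢ x.support) (fun p _ => A5_mul_bd (A5_re_bd _) _)
        (fun p _ => (h (p.1 - p.2)).const_mul _)
    have h2 : x.sum (fun i a => x.sum fun j b => a * b * c (i - j)) =
        ∑ p ∈ x.support ×ˢ x.support, x p.1 * x p.2 * c (p.1 - p.2) := by
      rw [Finset.sum_product]
      rfl
    rw [h2]
    refine Mean.nonneg ha h1 fun z hz => ?_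
    have hz0 : z ≠ 0 := by
      rintro rfl
      rw [norm_zero] at hz
      exact zero_ne_one hz
    have h3 : (∑ i ∈ x.support, (x i : ℂ) * z ^ i) *
        (starRingEnd ℂ) (∑ i ∈ x.support, (x i : ℂ) * z ^ i) =
        ∑ p ∈ x.support ×ˢ x.support, ((x p.1 * x p.2 : ℝ) : ℂ) * z ^ (p.1 - p.2) := by
      rw [map_sum, Finset.sum_mul_sum, Finset.sum_product]
      refine Finset.sum_congr rfl fun i _ => Finset.sum_congr rfl fun j _ => ?_
      rw [map_mul, Complex.conj_ofReal, ← A5_inv hz, sub_eq_add_neg, zpow_add₀ hz0]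
      push_cast
      ring
    have h4 : ∑ p ∈ x.support ×ˢ x.support, x p.1 * x p.2 * (2 * (z ^ (p.1 - p.2)).re) =
        2 * ((∑ i ∈ x.support, (x i : ℂ) * z ^ i) *
          (starRingEnd ℂ) (∑ i ∈ x.support, (x i : ℂ) * z ^ i)).re := by
      rw [h3, Complex.re_sum, Finset.mul_sum]
      refine Finset.sum_congr rfl fun p _ => ?_
      rw [Complex.re_ofReal_mul]
      ring
    rw [h4, Complex.mul_conj, Complex.ofReal_re]
    exact mul_nonneg (by norm_num) (Complex.normSq_nonneg _)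

end Pool.Agent.EEAG1
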