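import Pool.Agent.W_eea520_g1.Mean

/-!
# The law is determined by the moments (MP_eea520_nt, theorem G1)
-/

set_option autoImplicit false

namespace Pool.Agent.EEAG1

open Filter Topology MeasureTheory

theorem A6_re_pow {z : ℂ} (hz : ‖z‖ = 1) (k : ℤ) : |(z ^ k).re| ≤ 1 := by
  refine (Complex.abs_re_le_norm _).trans ?_
  rw [norm_zpow, hz, one_zpow]

theorem A6_re {z : ℂ} (hz : ‖z‖ = 1) : |2 * z.re| ≤ 2 := by
  have h := (Complex.abs_re_le_norm z).trans hz.le
  rw [abs_mul, abs_two]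
  linarith

theorem A6_rec {z : ℂ} (hz : ‖z‖ = 1) (k : ℤ) :
    (2 * z.re) * (2 * (z ^ k).re) = 2 * (z ^ (k + 1)).re + 2 * (z ^ (k - 1)).re := by
  have h0 : z ≠ 0 := by
    rintro rfl
    simp at hz
  have h1 : z + z⁻¹ = ((2 * z.re : ℝ) : ℂ) := by
    rw [Complex.inv_eq_conj hz, Complex.add_conj]
  have h2 : z ^ (k + 1) + z ^ (k - 1) = z ^ k * ((2 * z.re : ℝ) : ℂ) := by
    rw [← h1, zpow_add_one₀ h0, zpow_sub_one₀ h0, mul_add]
  have h3 := congrArg Complex.re h2
  rw [Complex.add_re, Complex.re_mul_ofReal] at h3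
  linarith

theorem A6_bdc (n : ℕ) (k : ℤ) : Bdc fun z => (2 * z.re) ^ n * (2 * (z ^ k).re) := by
  refine ⟨2 ^ n * 2, fun z hz => ?_⟩
  rw [abs_mul, abs_pow, abs_mul 2 (z ^ k).re, abs_two]
  have h1 := A6_re hz
  have h2 := A6_re_pow hz k
  have h3 : |2 * z.re| ^ n ≤ 2 ^ n := pow_le_pow_left₀ (abs_nonneg _) h1 n
  exact mul_le_mul h3 (by linarith) (by positivity) (by positivity)

theorem A6_int (μ : Measure ℝ) [IsFiniteMeasure μ] (n : ℕ) (k : ℤ) :
    Integrable (fun θ : ℝ => (2 * Real.cos θ) ^ n * (2 * Real.cos (k * θ))) μ := by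
  refine Integrable.of_bound (C := 2 ^ n * 2) ?_ ?_
  · have : Continuous fun θ : ℝ => (2 * Real.cos θ) ^ n * (2 * Real.cos (k * θ)) := by fun_prop
    exact this.aestronglyMeasurable
  · refine Eventually.of_forall fun θ => ?_
    rw [Real.norm_eq_abs, abs_mul, abs_pow, abs_mul, abs_mul, abs_two]
    have h1 := Real.abs_cos_le_one θ
    have h2 := Real.abs_cos_le_one (k * θ)
    have h3 : (2 * |Real.cos θ|) ^ n ≤ 2 ^ n := pow_le_pow_left₀ (by positivity) (by linarith) n
    exact mul_le_mul h3 (by linarith) (by positivity) (by positivity)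

theorem A6_aux {a : Nat.Primes → ℂ} (ha : ∀ p, ‖a p‖ = 1) {c : ℤ → ℝ}
    (h : ∀ k : ℤ, Mean a (fun z => 2 * (z ^ k).re) (c k)) (μ : Measure ℝ) [IsFiniteMeasure μ]
    (hμ : ∀ k : ℤ, ∫ θ, 2 * Real.cos (k * θ) ∂μ = c k) (n : ℕ) :
    ∀ k : ℤ, Mean a (fun z => (2 * z.re) ^ n * (2 * (z ^ k).re))
      (∫ θ, (2 * Real.cos θ) ^ n * (2 * Real.cos (k * θ)) ∂μ) := by
  induction n with
  | zero =>
    intro k
    have h1 := h k
    rw [← hμ k] at h1
    simp only [pow_zero, one_mul]
    exact h1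
  | succ n ih =>
    intro k
    have h1 := (Mean.add ha (A6_bdc n (k + 1)) (A6_bdc n (k - 1)) (ih (k + 1)) (ih (k - 1)))
    have h2 : ∫ θ, (2 * Real.cos θ) ^ (n + 1) * (2 * Real.cos (k * θ)) ∂μ =
        ∫ θ, (2 * Real.cos θ) ^ n * (2 * Real.cos ((k + 1 : ℤ) * θ)) ∂μ +
          ∫ θ, (2 * Real.cos θ) ^ n * (2 * Real.cos ((k - 1 : ℤ) * θ)) ∂μ := by
      rw [← integral_add (A6_int μ n (k + 1)) (A6_int μ n (k - 1))]
      refine integral_congr_ae (Eventually.of_forall fun θ => ?_)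
      have h3 : Real.cos ((k + 1 : ℤ) * θ) = Real.cos (k * θ + θ) := by
        congr 1
        push_cast
        ring
      have h4 : Real.cos ((k - 1 : ℤ) * θ) = Real.cos (k * θ - θ) := by
        congr 1
        push_cast
        ring
      simp only
      rw [h3, h4, Real.cos_add, Real.cos_sub, pow_succ]
      ring
    rw [h2]
    refine Mean.congr ha h1 fun z hz => ?_
    rw [← mul_add, ← A6_rec hz k]
    ring

/-- The monomials. By induction on `n`, for all `k`: with `x = 2 Re z`, `x * 2 Re z ^ k =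
2 Re z ^ (k+1) + 2 Re z ^ (k-1)` (on the unit circle) and `2 cos θ * 2 cos (k θ) = 2 cos ((k+1) θ) +
2 cos ((k-1) θ)`; `k = 0` gives the assertion for `2 x ^ n`. -/
theorem mean_monomial {a : Nat.Primes → ℂ} (ha : ∀ p, ‖a p‖ = 1) {c : ℤ → ℝ}
    (h : ∀ k : ℤ, Mean a (fun z => 2 * (z ^ k).re) (c k)) (μ : Measure ℝ) [IsFiniteMeasure μ]
    (hμ : ∀ k : ℤ, ∫ θ, 2 * Real.cos (k * θ) ∂μ = c k) (n : ℕ) :
    Mean a (fun z => (2 * z.re) ^ n) (∫ θ, (2 * Real.cos θ) ^ n ∂μ) := by
  have h1 := (A6_aux ha h μ hμ n 0).const_mul (1 / 2)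
  have h2 : (1 / 2 : ℝ) * ∫ θ, (2 * Real.cos θ) ^ n * (2 * Real.cos ((0 : ℤ) * θ)) ∂μ =
      ∫ θ, (2 * Real.cos θ) ^ n ∂μ := by
    rw [← integral_const_mul]
    refine integral_congr_ae (Eventually.of_forall fun θ => ?_)
    simp only [Int.cast_zero, zero_mul, Real.cos_zero]
    ring
  rw [h2] at h1
  refine Mean.congr ha h1 fun z _ => ?_
  rw [zpow_zero, Complex.one_re]
  ring

/-- Weierstrass: polynomials are uniformly dense in the continuous functions on `[-2, 2]`
(`exists_polynomial_near_of_continuousOn`), `Mean.of_approx`. -/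
theorem law_of_moments {a : Nat.Primes → ℂ} (ha : ∀ p, ‖a p‖ = 1) {c : ℤ → ℝ}
    (h : ∀ k : ℤ, Mean a (fun z => 2 * (z ^ k).re) (c k)) (μ : Measure ℝ) [IsFiniteMeasure μ]
    (hμ : ∀ k : ℤ, ∫ θ, 2 * Real.cos (k * θ) ∂μ = c k) :
    HasLaw a fun f => ∫ θ, f (2 * Real.cos θ) ∂μ := by
  intro f hf
  have hcos : ∀ θ : ℝ, 2 * Real.cos θ ∈ Set.Icc (-2 : ℝ) 2 := fun θ =>
    ⟨by linarith [Real.neg_one_le_cos θ], by linarith [Real.cos_le_one θ]⟩
  have hre : ∀ z : ℂ, ‖z‖ = 1 → 2 * z.re ∈ Set.Icc (-2 : ℝ) 2 := fun z hz => by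
    have h1 := abs_le.1 (A6_re hz)
    exact ⟨h1.1, h1.2⟩
  obtain ⟨C, hC⟩ := isCompact_Icc.exists_bound_of_continuousOn hf
  have hfi : Integrable (fun θ : ℝ => f (2 * Real.cos θ)) μ := by
    refine Integrable.of_bound (C := C) ?_ ?_
    · have h1 : Continuous fun θ : ℝ => 2 * Real.cos θ := by fun_prop
      exact (hf.comp_continuous h1 hcos).aestronglyMeasurable
    · exact Eventually.of_forall fun θ => hC _ (hcos θ)
  have key : Mean a (fun z => f (2 * z.re)) (∫ θ, f (2 * Real.cos θ) ∂μ) := by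
    refine Mean.of_approx ha ⟨C, fun z hz => hC _ (hre z hz)⟩ fun ε hε => ?_
    have hm : 0 ≤ μ.real Set.univ := measureReal_nonneg
    have hε' : 0 < ε / (1 + μ.real Set.univ) := by positivity
    obtain ⟨P, hP⟩ := exists_polynomial_near_of_continuousOn (-2) 2 f hf _ hε'
    have hle : ε / (1 + μ.real Set.univ) ≤ ε := div_le_self hε.le (by linarith)
    have hPi : Integrable (fun θ : ℝ => P.eval (2 * Real.cos θ)) μ := by
      obtain ⟨D, hD⟩ := isCompact_Icc.exists_bound_of_continuousOn (s := Set.Icc (-2 : ℝ) 2)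
        (f := fun x => P.eval x) P.continuous.continuousOn
      refine Integrable.of_bound (C := D) ?_ ?_
      · have h1 : Continuous fun θ : ℝ => 2 * Real.cos θ := by fun_prop
        exact (P.continuous.comp h1).aestronglyMeasurable
      · exact Eventually.of_forall fun θ => hD _ (hcos θ)
    refine ⟨fun z => P.eval (2 * z.re), ∫ θ, P.eval (2 * Real.cos θ) ∂μ, ?_, ?_, ?_, ?_⟩
    · obtain ⟨D, hD⟩ := isCompact_Icc.exists_bound_of_continuousOn (s := Set.Icc (-2 : ℝ) 2)
        (f := fun x => P.eval x) P.continuous.continuousOn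
      exact ⟨D, fun z hz => hD _ (hre z hz)⟩
    · have h1 := Mean.sum ha (Finset.range (P.natDegree + 1))
        (F := fun i z => P.coeff i * (2 * z.re) ^ i)
        (L := fun i => P.coeff i * ∫ θ, (2 * Real.cos θ) ^ i ∂μ)
        (fun i _ => ⟨|P.coeff i| * 2 ^ i, fun z hz => by
          rw [abs_mul, abs_pow]
          exact mul_le_mul_of_nonneg_left (pow_le_pow_left₀ (abs_nonneg _) (A6_re hz) i)
            (abs_nonneg _)⟩)
        (fun i _ => (mean_monomial ha h μ hμ i).const_mul _)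
      have h2 : ∑ i ∈ Finset.range (P.natDegree + 1),
          P.coeff i * ∫ θ, (2 * Real.cos θ) ^ i ∂μ = ∫ θ, P.eval (2 * Real.cos θ) ∂μ := by
        have h3 : ∀ θ : ℝ, P.eval (2 * Real.cos θ) = ∑ i ∈ Finset.range (P.natDegree + 1),
            P.coeff i * (2 * Real.cos θ) ^ i := fun θ => Polynomial.eval_eq_sum_range _
        simp only [h3]
        rw [integral_finsetSum]
        · refine Finset.sum_congr rfl fun i _ => ?_
          rw [integral_const_mul]
        · intro i _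
          refine Integrable.const_mul ?_ _
          have h4 := (A6_int μ i 0).const_mul (1 / 2)
          refine h4.congr (Eventually.of_forall fun θ => ?_)
          simp only [Int.cast_zero, zero_mul, Real.cos_zero]
          ring
      rw [h2] at h1
      refine Mean.congr ha h1 fun z _ => ?_
      rw [Polynomial.eval_eq_sum_range]
    · intro z hz
      have h1 := (hP _ (hre z hz)).le
      rw [abs_sub_comm]
      exact h1.trans hle
    · rw [← integral_sub hfi hPi]
      have h1 : ‖∫ θ, (f (2 * Real.cos θ) - P.eval (2 * Real.cos θ)) ∂μ‖ ≤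
          ε / (1 + μ.real Set.univ) * μ.real Set.univ := by
        refine norm_integral_le_of_norm_le_const (Eventually.of_forall fun θ => ?_)
        rw [Real.norm_eq_abs, abs_sub_comm]
        exact (hP _ (hcos θ)).le
      rw [Real.norm_eq_abs] at h1
      refine h1.trans ?_
      rw [div_mul_eq_mul_div, div_le_iff₀ (by positivity)]
      nlinarith
  exact key

end Pool.Agent.EEAG1
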