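import Pool.Agent.W_eea520_g1.Defs
import Pool.Agent.W_eea520_g1.K1

/-!
# The CM measure (MP_eea520_nt, theorem G1)
-/

set_option autoImplicit false

namespace Pool.Agent.EEAG1

open Filter Topology MeasureTheory

/-- The integral of a continuous function with respect to `δ_{π/2} / 2 + dθ / (2 π)`. -/
theorem integral_cm (F : ℝ → ℝ) (hF : Continuous F) :
    ∫ θ, F θ ∂(ENNReal.ofReal (1 / 2) • Measure.dirac (Real.pi / 2) +
      ENNReal.ofReal (1 / (2 * Real.pi)) • (volume.restrict (Set.Ioc 0 Real.pi))) =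
    F (Real.pi / 2) / 2 + 1 / (2 * Real.pi) * ∫ θ in (0 : ℝ)..Real.pi, F θ := by
  have hpi := Real.pi_pos
  have h1 : Integrable F (ENNReal.ofReal (1 / 2) • Measure.dirac (Real.pi / 2)) := by
    apply Integrable.smul_measure _ ENNReal.ofReal_ne_top
    exact integrable_dirac (by simp)
  have h2 : Integrable F (ENNReal.ofReal (1 / (2 * Real.pi)) •
      (volume.restrict (Set.Ioc 0 Real.pi))) := by
    apply Integrable.smul_measure _ ENNReal.ofReal_ne_top
    exact (hF.integrableOn_Icc (a := 0) (b := Real.pi)).mono_set Set.Ioc_subset_Icc_self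
  rw [integral_add_measure h1 h2, integral_smul_measure, integral_smul_measure, integral_dirac,
    ENNReal.toReal_ofReal (by norm_num), ENNReal.toReal_ofReal (by positivity),
    intervalIntegral.integral_of_le hpi.le, smul_eq_mul, smul_eq_mul]
  ring

/-- The integral of `cos (m θ)` over `[0, π]`. -/
theorem integral_cos_int (m : ℤ) (hm : m ≠ 0) :
    ∫ θ in (0 : ℝ)..Real.pi, 2 * Real.cos ((m : ℝ) * θ) = 0 := by
  have hm' : (m : ℝ) ≠ 0 := by exact_mod_cast hm
  rw [intervalIntegral.integral_const_mul, intervalIntegral.integral_comp_mul_left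
    (fun x => Real.cos x) hm', integral_cos, mul_zero, Real.sin_zero, Real.sin_int_mul_pi]
  simp

/-- The measure `δ_{π/2} / 2 + dθ / (2 π)` on `[0, π]`. (`f` must be continuous on `[-2, 2]` to have an
integral of the sum of two measures.) -/
theorem exists_cm : ∃ μ : Measure ℝ, IsFiniteMeasure μ ∧
    (∀ f : ℝ → ℝ, ContinuousOn f (Set.Icc (-2) 2) → ∫ θ, f (2 * Real.cos θ) ∂μ = cmLaw f) ∧
    (∀ k : ℤ, ∫ θ, 2 * Real.cos ((2 * k : ℤ) * θ) ∂μ = (if k = 0 then 1 else 0) + (-1) ^ k.natAbs) ∧
    ∀ k : ℤ, ∫ θ, 2 * Real.cos ((2 * k + 1 : ℤ) * θ) ∂μ = 0 := by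
  refine ⟨ENNReal.ofReal (1 / 2) • Measure.dirac (Real.pi / 2) +
      ENNReal.ofReal (1 / (2 * Real.pi)) • (volume.restrict (Set.Ioc 0 Real.pi)), ?_, ?_, ?_, ?_⟩
  · have h1 : IsFiniteMeasure (ENNReal.ofReal (1 / 2) • Measure.dirac (Real.pi / 2) :
        Measure ℝ) := Measure.smul_finite _ ENNReal.ofReal_ne_top
    have h2 : IsFiniteMeasure (ENNReal.ofReal (1 / (2 * Real.pi)) •
      (volume.restrict (Set.Ioc 0 Real.pi)) : Measure ℝ) :=
      Measure.smul_finite _ ENNReal.ofReal_ne_top
    infer_instance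
  · intro f hf
    have hF : Continuous (fun θ : ℝ => f (2 * Real.cos θ)) := by
      apply hf.comp_continuous (by fun_prop)
      intro θ
      constructor
      · linarith [Real.neg_one_le_cos θ]
      · linarith [Real.cos_le_one θ]
    rw [integral_cm _ hF, cmLaw, Real.cos_pi_div_two, mul_zero]
  · intro k
    rw [integral_cm _ (by fun_prop)]
    have h1 : Real.cos (((2 * k : ℤ) : ℝ) * (Real.pi / 2)) = (-1) ^ k.natAbs := by
      have : ((2 * k : ℤ) : ℝ) * (Real.pi / 2) = (k : ℝ) * Real.pi := by push_cast; ring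
      rw [this, Real.cos_int_mul_pi]
      rcases Int.even_or_odd k with hk | hk
      · rw [hk.neg_one_zpow, (Int.natAbs_even.2 hk).neg_one_pow]
      · rw [hk.neg_one_zpow, (Int.natAbs_odd.2 hk).neg_one_pow]
    rw [h1]
    by_cases hk : k = 0
    · subst hk
      simp
      field_simp
    · rw [integral_cos_int (2 * k) (by omega), if_neg hk]
      ring
  · intro k
    rw [integral_cm _ (by fun_prop), integral_cos_int (2 * k + 1) (by omega)]
    have h1 : Real.cos (((2 * k + 1 : ℤ) : ℝ) * (Real.pi / 2)) = 0 := by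
      rw [Real.cos_eq_zero_iff]
      exact ⟨k, by push_cast; ring⟩
    rw [h1]
    ring

end Pool.Agent.EEAG1
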