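import Pool.Agent.W_eea520_g1.Defs
import Pool.Agent.W_eea520_g1.K1

/-!
# The weights of a periodic sequence (MP_eea520_nt, theorem G1)
-/

set_option autoImplicit false

namespace Pool.Agent.EEAG1

open Filter Topology MeasureTheory

/-- Sums of a periodic function over a period. -/
theorem A7c_shift {g : ℤ → ℝ} {r : ℕ} (hg : ∀ k, g (k + r) = g k) (i : ℤ) :
    ∑ l ∈ Finset.range r, g (l + i) = ∑ l ∈ Finset.range r, g l := by
  have hstep : ∀ i : ℤ, ∑ l ∈ Finset.range r, g (l + (i + 1)) = ∑ l ∈ Finset.range r, g (l + i) := by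
    intro i
    have h1 := Finset.sum_range_succ (fun l : ℕ => g (l + i)) r
    have h2 := Finset.sum_range_succ' (fun l : ℕ => g (l + i)) r
    have h3 : g ((r : ℤ) + i) = g (((0 : ℕ) : ℤ) + i) := by
      rw [add_comm, hg, Nat.cast_zero, zero_add]
    have h4 : ∑ l ∈ Finset.range r, g (((l + 1 : ℕ) : ℤ) + i) =
        ∑ l ∈ Finset.range r, g (l + (i + 1)) := by
      refine Finset.sum_congr rfl fun l _ => ?_
      congr 1
      push_cast
      ring
    rw [h1, h3, h4] at h2
    linarith
  induction i using Int.induction_on with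
  | zero => simp
  | succ k ih => rw [hstep, ih]
  | pred k ih =>
    rw [← ih]
    have h := hstep (-(k : ℤ) - 1)
    rw [sub_add_cancel] at h
    exact h.symm

/-- The orthogonality relation. -/
theorem A7c_cos {r : ℕ} (hr : 0 < r) (n : ℤ) :
    ∑ j ∈ Finset.range r, Real.cos (n * (2 * Real.pi * j / r)) = if (r : ℤ) ∣ n then (r : ℝ) else 0 := by
  have hr0 : (r : ℂ) ≠ 0 := by exact_mod_cast hr.ne'
  have hr1 : (r : ℝ) ≠ 0 := by exact_mod_cast hr.ne'
  set ζ : ℂ := Complex.exp (2 * Real.pi * Complex.I * n / r) with hζ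
  have h1 : ∀ j : ℕ, Real.cos (n * (2 * Real.pi * j / r)) = (ζ ^ j).re := by
    intro j
    rw [hζ, ← Complex.exp_nat_mul, ← Complex.exp_ofReal_mul_I_re]
    congr 2
    push_cast
    ring
  have h2 : ζ ^ r = 1 := by
    rw [hζ, ← Complex.exp_nat_mul, mul_div_cancel₀ _ hr0,
      show 2 * (Real.pi : ℂ) * Complex.I * n = n * (2 * Real.pi * Complex.I) by ring,
      Complex.exp_int_mul_two_pi_mul_I]
  by_cases hd : (r : ℤ) ∣ n
  · rw [if_pos hd]
    obtain ⟨m, rfl⟩ := hd
    have h3 : ∀ j ∈ Finset.range r, Real.cos (((r * m : ℤ) : ℝ) * (2 * Real.pi * j / r)) = 1 := by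
      intro j _
      have h4 : ((r * m : ℤ) : ℝ) * (2 * Real.pi * j / r) = ((m * j : ℤ) : ℝ) * (2 * Real.pi) := by
        push_cast
        field_simp
      rw [h4, Real.cos_int_mul_two_pi]
    rw [Finset.sum_congr rfl h3, Finset.sum_const, Finset.card_range, nsmul_eq_mul, mul_one]
  · rw [if_neg hd]
    have h3 : ζ ≠ 1 := by
      intro h
      rw [hζ, Complex.exp_eq_one_iff] at h
      obtain ⟨m, hm⟩ := h
      apply hd
      refine ⟨m, ?_⟩
      have h4 : (2 * Real.pi * Complex.I) ≠ 0 := Complex.two_pi_I_ne_zero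
      have h5 : (n : ℂ) = r * m := by
        rw [div_eq_iff hr0] at hm
        have h6 : (2 * Real.pi * Complex.I) * (n : ℂ) = (2 * Real.pi * Complex.I) * (r * m) := by
          rw [hm]
          ring
        exact mul_left_cancel₀ h4 h6
      exact_mod_cast h5
    rw [Finset.sum_congr rfl fun j _ => h1 j, ← Complex.re_sum, geom_sum_eq h3, h2, sub_self,
      zero_div, Complex.zero_re]

/-- Positive semidefinite sums over an interval. -/
theorem A7c_nonneg {c : ℤ → ℝ} (hc : PosDef c) (a : ℕ → ℝ) (r : ℕ) :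
    0 ≤ ∑ i ∈ Finset.range r, ∑ j ∈ Finset.range r, a i * a j * c (i - j) := by
  have h := hc.nonneg (∑ i ∈ Finset.range r, Finsupp.single (i : ℤ) (a i))
  rw [← Finsupp.sum_finsetSum_index] at h
  · refine h.trans_eq (Finset.sum_congr rfl fun i _ => ?_)
    rw [Finsupp.sum_single_index]
    · rw [← Finsupp.sum_finsetSum_index]
      · refine Finset.sum_congr rfl fun j _ => ?_
        rw [Finsupp.sum_single_index]
        simp
      · simp
      · intro k b₁ b₂
        ring
    · simp
  · simp
  · intro k b₁ b₂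
    rw [← Finsupp.sum_add]
    refine Finsupp.sum_congr fun j _ => ?_
    ring

/-- The weights of a periodic positive definite sequence: `w_j = (∑_{l < r} c_l cos (2 π j l / r)) / (2 r)`. They
are nonnegative by `hc.nonneg` for `x_i = cos (2 π j i / r)` and `x_i = sin (2 π j i / r)`, `0 ≤ i < r`:
`∑_{i, i'} cos (2 π j (i - i') / r) c (i - i') = r ∑_l cos (2 π j l / r) c_l` by periodicity; and
`∑_j w_j 2 cos (2 π j k / r) = (c_k + c_{-k}) / 2 = c_k` by the orthogonality relations. -/
theorem exists_weights {c : ℤ → ℝ} (hc : PosDef c) {r : ℕ} (hr : 0 < r)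
    (hper : ∀ k, c (k + r) = c k) : ∃ w : Fin r → ℝ, (∀ j, 0 ≤ w j) ∧
      ∀ k : ℤ, ∑ j, w j * (2 * Real.cos (k * (2 * Real.pi * j / r))) = c k := by
  have hr1 : (r : ℝ) ≠ 0 := by exact_mod_cast hr.ne'
  have hrp : (0 : ℝ) < r := by exact_mod_cast hr
  have hcosper : ∀ (j : ℕ) (l : ℤ), Real.cos (((l + r : ℤ) : ℝ) * (2 * Real.pi * j / r)) =
      Real.cos (l * (2 * Real.pi * j / r)) := by
    intro j l
    have h1 : ((l + r : ℤ) : ℝ) * (2 * Real.pi * j / r) =
        l * (2 * Real.pi * j / r) + j * (2 * Real.pi) := by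
      push_cast
      field_simp
    rw [h1, Real.cos_add_nat_mul_two_pi]
  refine ⟨fun j => (∑ l ∈ Finset.range r, c l * Real.cos (l * (2 * Real.pi * j / r))) / (2 * r),
    fun j => ?_, fun k => ?_⟩
  · refine div_nonneg ?_ (by positivity)
    have h1 := A7c_nonneg hc (fun i => Real.cos (i * (2 * Real.pi * (j : ℕ) / r))) r
    have h2 := A7c_nonneg hc (fun i => Real.sin (i * (2 * Real.pi * (j : ℕ) / r))) r
    have h3 : (r : ℝ) * ∑ l ∈ Finset.range r, c l * Real.cos (l * (2 * Real.pi * (j : ℕ) / r)) =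
        (∑ i ∈ Finset.range r, ∑ i' ∈ Finset.range r, Real.cos (i * (2 * Real.pi * (j : ℕ) / r)) *
          Real.cos (i' * (2 * Real.pi * (j : ℕ) / r)) * c (i - i')) +
        ∑ i ∈ Finset.range r, ∑ i' ∈ Finset.range r, Real.sin (i * (2 * Real.pi * (j : ℕ) / r)) *
          Real.sin (i' * (2 * Real.pi * (j : ℕ) / r)) * c (i - i') := by
      rw [← Finset.sum_add_distrib]
      have h4 : ∀ i ∈ Finset.range r, (∑ i' ∈ Finset.range r,
            Real.cos (i * (2 * Real.pi * (j : ℕ) / r)) *
            Real.cos (i' * (2 * Real.pi * (j : ℕ) / r)) * c (i - i')) +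
          ∑ i' ∈ Finset.range r, Real.sin (i * (2 * Real.pi * (j : ℕ) / r)) *
          Real.sin (i' * (2 * Real.pi * (j : ℕ) / r)) * c (i - i') =
          ∑ l ∈ Finset.range r, c l * Real.cos (l * (2 * Real.pi * (j : ℕ) / r)) := by
        intro i _
        rw [← Finset.sum_add_distrib]
        have h5 := A7c_shift (g := fun l : ℤ => c l * Real.cos (l * (2 * Real.pi * (j : ℕ) / r)))
          (r := r) (fun l => by rw [hper, hcosper]) (-(i : ℤ))
        have h6 : ∀ l : ℕ, ((l : ℤ) : ℝ) = (l : ℝ) := fun l => Int.cast_natCast l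
        simp only [h6] at h5
        rw [← h5]
        refine Finset.sum_congr rfl fun i' _ => ?_
        have h7 : c ((i : ℤ) - i') = c ((i' : ℤ) + -i) := by
          rw [← hc.symm]
          congr 1
          ring
        have h8 : Real.cos ((((i' : ℤ) + -(i : ℤ) : ℤ) : ℝ) * (2 * Real.pi * (j : ℕ) / r)) =
            Real.cos (i * (2 * Real.pi * (j : ℕ) / r)) * Real.cos (i' * (2 * Real.pi * (j : ℕ) / r)) +
            Real.sin (i * (2 * Real.pi * (j : ℕ) / r)) * Real.sin (i' * (2 * Real.pi * (j : ℕ) / r)) := by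
          rw [← Real.cos_sub, ← Real.cos_neg]
          congr 1
          push_cast
          ring
        rw [h7, h8]
        ring
      rw [Finset.sum_congr rfl h4, Finset.sum_const, Finset.card_range, nsmul_eq_mul]
    have h9 : 0 ≤ (r : ℝ) * ∑ l ∈ Finset.range r, c l * Real.cos (l * (2 * Real.pi * (j : ℕ) / r)) := by
      rw [h3]
      exact add_nonneg h1 h2
    exact nonneg_of_mul_nonneg_right h9 hrp
  · rw [Fin.sum_univ_eq_sum_range (fun j : ℕ => (∑ l ∈ Finset.range r, c l *
      Real.cos (l * (2 * Real.pi * j / r))) / (2 * r) * (2 * Real.cos (k * (2 * Real.pi * j / r)))) r]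
    have h1 : ∀ n : ℤ, ∑ l ∈ Finset.range r, c l * (if (r : ℤ) ∣ (l : ℤ) - n then (r : ℝ) else 0) =
        r * c n := by
      intro n
      have h2 := A7c_shift (g := fun l : ℤ => c l * (if (r : ℤ) ∣ l - n then (r : ℝ) else 0))
          (r := r) (fun l => by
            rw [hper]
            congr 1
            have h3 : (r : ℤ) ∣ l + r - n ↔ (r : ℤ) ∣ l - n := by
              rw [add_sub_right_comm]
              exact dvd_add_self_right
            simp only [h3]) n
      rw [← h2]
      obtain ⟨r', rfl⟩ : ∃ r', r = r' + 1 := ⟨r - 1, by omega⟩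
      rw [Finset.sum_range_succ', Finset.sum_eq_zero, zero_add]
      · rw [Nat.cast_zero, zero_add, sub_self, if_pos (dvd_zero _), mul_comm]
      · intro l hl
        rw [add_sub_cancel_right, if_neg, mul_zero]
        intro h3
        have h4 : r' + 1 ∣ l + 1 := by exact_mod_cast h3
        have h5 := Nat.le_of_dvd (Nat.succ_pos l) h4
        have h6 := Finset.mem_range.1 hl
        omega
    have h2 : ∀ n : ℤ, ∑ j ∈ Finset.range r, ∑ l ∈ Finset.range r,
        c l * Real.cos (((l - n : ℤ) : ℝ) * (2 * Real.pi * j / r)) = r * c n := by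
      intro n
      rw [Finset.sum_comm, ← h1]
      refine Finset.sum_congr rfl fun l _ => ?_
      rw [← Finset.mul_sum, A7c_cos hr]
    have h3 : ∀ j : ℕ, (∑ l ∈ Finset.range r, c l * Real.cos (l * (2 * Real.pi * j / r))) / (2 * r) *
        (2 * Real.cos (k * (2 * Real.pi * j / r))) = (2 * r : ℝ)⁻¹ *
        ((∑ l ∈ Finset.range r, c l * Real.cos (((l - k : ℤ) : ℝ) * (2 * Real.pi * j / r))) +
        ∑ l ∈ Finset.range r, c l * Real.cos (((l - -k : ℤ) : ℝ) * (2 * Real.pi * j / r))) := by
      intro j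
      rw [← Finset.sum_add_distrib, Finset.sum_div, Finset.sum_mul, Finset.mul_sum]
      refine Finset.sum_congr rfl fun l _ => ?_
      have h4 : (((l : ℤ) - k : ℤ) : ℝ) * (2 * Real.pi * j / r) =
          l * (2 * Real.pi * j / r) - k * (2 * Real.pi * j / r) := by
        push_cast
        ring
      have h5 : (((l : ℤ) - -k : ℤ) : ℝ) * (2 * Real.pi * j / r) =
          l * (2 * Real.pi * j / r) + k * (2 * Real.pi * j / r) := by
        push_cast
        ring
      rw [h4, h5, Real.cos_sub, Real.cos_add]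
      field_simp
      ring
    rw [Finset.sum_congr rfl fun j _ => h3 j, ← Finset.mul_sum, Finset.sum_add_distrib, h2, h2,
      hc.symm]
    field_simp
    ring

end Pool.Agent.EEAG1
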