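import Pool.Agent.W_eea520_g1.Defs
import Pool.Agent.W_eea520_g1.K1

/-!
# A finite measure (MP_eea520_nt, theorem G1)
-/

set_option autoImplicit false

namespace Pool.Agent.EEAG1

open Filter Topology MeasureTheory

/-- The measure `∑_j w_j δ_{2 π j / r}`. -/
theorem exists_fin {r : ℕ} (w : Fin r → ℝ) (hw : ∀ j, 0 ≤ w j) : ∃ μ : Measure ℝ,
    IsFiniteMeasure μ ∧ ∀ F : ℝ → ℝ, ∫ θ, F θ ∂μ = ∑ j, w j * F (2 * Real.pi * j / r) := by
  refine ⟨∑ j : Fin r, ENNReal.ofReal (w j) • Measure.dirac (2 * Real.pi * j / r), ⟨?_⟩, ?_⟩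
  · rw [Measure.finsetSum_apply]
    refine ENNReal.sum_lt_top.2 fun j _ => ?_
    rw [Measure.smul_apply, measure_univ, smul_eq_mul, mul_one]
    exact ENNReal.ofReal_lt_top
  · intro F
    have hint : ∀ j ∈ (Finset.univ : Finset (Fin r)),
        Integrable F (ENNReal.ofReal (w j) • Measure.dirac (2 * Real.pi * (j : ℝ) / r)) := by
      intro j _
      refine Integrable.smul_measure ?_ ENNReal.ofReal_ne_top
      exact integrable_dirac (by simp)
    rw [integral_finsetSum_measure hint]
    refine Finset.sum_congr rfl fun j _ => ?_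
    rw [integral_smul_measure, integral_dirac, ENNReal.toReal_ofReal (hw j), smul_eq_mul]

end Pool.Agent.EEAG1
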