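import Pool.Agent.W_eea520_g1.A7a
import Pool.Agent.W_eea520_g1.A7b
import Pool.Agent.W_eea520_g1.A7c
import Pool.Agent.W_eea520_g1.A7d
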