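import Pool.Agent.W_eea520_g1.Defs
import Pool.Agent.W_eea520_g1.K1

/-!
# The Sato-Tate measure (MP_eea520_nt, theorem G1)
-/

set_option autoImplicit false

namespace Pool.Agent.EEAG1

open Filter Topology MeasureTheory

/-- The density. -/
noncomputable def A7a_dens (θ : ℝ) : NNReal := Real.toNNReal (2 / Real.pi * Real.sin θ ^ 2)

theorem A7a_dens_coe (θ : ℝ) : ((A7a_dens θ : NNReal) : ℝ) = 2 / Real.pi * Real.sin θ ^ 2 :=
  Real.coe_toNNReal _ (by positivity)

theorem A7a_meas : Measurable A7a_dens := by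
  unfold A7a_dens
  fun_prop

/-- The measure. -/
noncomputable def A7a_mu : Measure ℝ :=
  (volume.restrict (Set.Ioc 0 Real.pi)).withDensity (fun θ => ((A7a_dens θ : NNReal) : ENNReal))

theorem A7a_int (g : ℝ → ℝ) : ∫ θ, g θ ∂A7a_mu =
    2 / Real.pi * ∫ θ in (0 : ℝ)..Real.pi, g θ * Real.sin θ ^ 2 := by
  unfold A7a_mu
  rw [integral_withDensity_eq_integral_smul A7a_meas g,
    intervalIntegral.integral_of_le Real.pi_pos.le, ← MeasureTheory.integral_const_mul]
  refine integral_congr_ae (Filter.Eventually.of_forall fun θ => ?_)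
  change A7a_dens θ • g θ = 2 / Real.pi * (g θ * Real.sin θ ^ 2)
  rw [NNReal.smul_def, A7a_dens_coe, smul_eq_mul]
  ring

theorem A7a_fin : IsFiniteMeasure A7a_mu := by
  have h : IsFiniteMeasure ((volume.restrict (Set.Ioc 0 Real.pi)).withDensity
      (fun θ : ℝ => ENNReal.ofReal (2 / Real.pi * Real.sin θ ^ 2))) := by
    apply isFiniteMeasure_withDensity_ofReal
    have hc : Continuous (fun θ : ℝ => 2 / Real.pi * Real.sin θ ^ 2) := by fun_prop
    exact ((hc.integrableOn_Icc (a := 0) (b := Real.pi)).mono_set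
      Set.Ioc_subset_Icc_self).hasFiniteIntegral
  exact h

theorem A7a_cos (n : ℤ) : ∫ θ in (0 : ℝ)..Real.pi, Real.cos (n * θ) =
    if n = 0 then Real.pi else 0 := by
  by_cases hn : n = 0
  · rw [if_pos hn, hn]
    simp
  · rw [if_neg hn]
    have hn' : (n : ℝ) ≠ 0 := by exact_mod_cast hn
    rw [intervalIntegral.integral_comp_mul_left (fun x => Real.cos x) hn', integral_cos,
      Real.sin_int_mul_pi, mul_zero, Real.sin_zero, sub_zero, smul_zero]

theorem A7a_ptw (k : ℤ) (θ : ℝ) : 2 * Real.cos (k * θ) * Real.sin θ ^ 2 =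
    Real.cos (k * θ) - Real.cos ((k + 2 : ℤ) * θ) / 2 - Real.cos ((k - 2 : ℤ) * θ) / 2 := by
  have h1 : ((k + 2 : ℤ) : ℝ) * θ = k * θ + 2 * θ := by push_cast; ring
  have h2 : ((k - 2 : ℤ) : ℝ) * θ = k * θ - 2 * θ := by push_cast; ring
  rw [h1, h2, Real.cos_add, Real.cos_sub, Real.cos_two_mul, Real.sin_sq]
  ring

/-- The measure `(2/π) sin² θ dθ` on `[0, π]`: `withDensity` of the restriction of the Lebesgue measure. -/
theorem exists_st : ∃ μ : Measure ℝ, IsFiniteMeasure μ ∧
    (∀ f : ℝ → ℝ, ∫ θ, f (2 * Real.cos θ) ∂μ = satoTate f) ∧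
    ∀ k : ℤ, ∫ θ, 2 * Real.cos (k * θ) ∂μ =
      if k = 0 then 2 else if k = 2 ∨ k = -2 then -1 else 0 := by
  refine ⟨A7a_mu, A7a_fin, fun f => A7a_int _, fun k => ?_⟩
  rw [A7a_int]
  have hc : ∀ n : ℤ, IntervalIntegrable (fun θ : ℝ => Real.cos (n * θ)) volume 0 Real.pi :=
    fun n => Continuous.intervalIntegrable (by fun_prop) _ _
  have h1 : ∫ θ in (0 : ℝ)..Real.pi, 2 * Real.cos (k * θ) * Real.sin θ ^ 2 =
      (if k = 0 then Real.pi else 0) - (if k + 2 = 0 then Real.pi else 0) / 2 -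
        (if k - 2 = 0 then Real.pi else 0) / 2 := by
    rw [← A7a_cos k, ← A7a_cos (k + 2), ← A7a_cos (k - 2),
      ← intervalIntegral.integral_div, ← intervalIntegral.integral_div,
      ← intervalIntegral.integral_sub (hc k) ((hc (k + 2)).div_const 2),
      ← intervalIntegral.integral_sub ((hc k).sub ((hc (k + 2)).div_const 2))
        ((hc (k - 2)).div_const 2)]
    exact intervalIntegral.integral_congr (fun θ _ => A7a_ptw k θ)
  rw [h1]
  have hpi : Real.pi ≠ 0 := Real.pi_ne_zero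
  by_cases h0 : k = 0
  · rw [if_pos h0, if_pos h0, if_neg (by omega), if_neg (by omega)]
    field_simp
    ring
  · rw [if_neg h0, if_neg h0]
    by_cases h2 : k = 2
    · rw [if_neg (by omega), if_pos (by omega), if_pos (Or.inl h2)]
      field_simp
      ring
    · by_cases h3 : k = -2
      · rw [if_pos (by omega), if_neg (by omega), if_pos (Or.inr h3)]
        field_simp
        ring
      · rw [if_neg (by omega), if_neg (by omega), if_neg (by tauto)]
        ring

end Pool.Agent.EEAG1
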