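import Mathlib

/-!
# Weak limits in Hilbert spaces, integral inner products (MP_eea520_nt, theorem G1)
-/

set_option autoImplicit false

namespace Pool.Agent.EEAG1

open Filter Topology
open scoped InnerProductSpace

variable {H : Type*} [NormedAddCommGroup H] [InnerProductSpace ℝ H] [CompleteSpace H]

/-- Weak compactness of balls, with an ultrafilter. -/
theorem exists_weak_limit {ι : Type*} (U : Ultrafilter ι) (x : ι → H) (C : ℝ) (hx : ∀ i, ‖x i‖ ≤ C) :
    ∃ w : H, ‖w‖ ≤ C ∧ ∀ y : H, Tendsto (fun i => ⟪x i, y⟫_ℝ) U (𝓝 ⟪w, y⟫_ℝ) := by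
  classical
  have hb : ∀ y : H, ∀ i, ⟪x i, y⟫_ℝ ∈ Set.Icc (-(C * ‖y‖)) (C * ‖y‖) := by
    intro y i
    have h1 := abs_real_inner_le_norm (x i) y
    have h2 : ‖x i‖ * ‖y‖ ≤ C * ‖y‖ := mul_le_mul_of_nonneg_right (hx i) (norm_nonneg _)
    exact abs_le.1 (h1.trans h2)
  have hex : ∀ y : H, ∃ l : ℝ, l ∈ Set.Icc (-(C * ‖y‖)) (C * ‖y‖) ∧
      Tendsto (fun i => ⟪x i, y⟫_ℝ) U (𝓝 l) := by
    intro y
    have hc : IsCompact (Set.Icc (-(C * ‖y‖)) (C * ‖y‖)) := isCompact_Icc
    obtain ⟨l, hl, hl2⟩ := hc.ultrafilter_le_nhds (U.map fun i => ⟪x i, y⟫_ℝ)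
      (by
        rw [le_principal_iff, Ultrafilter.mem_coe, Ultrafilter.mem_map]
        exact Filter.univ_mem' fun i => hb y i)
    exact ⟨l, hl, hl2⟩
  choose l hl hlt using hex
  have hC : (∀ y, |l y| ≤ C * ‖y‖) := fun y => abs_le.2 (hl y)
  let f : H →ₗ[ℝ] ℝ :=
    { toFun := l
      map_add' := fun y z => by
        refine tendsto_nhds_unique (hlt (y + z)) ?_
        have h := (hlt y).add (hlt z)
        refine h.congr fun i => ?_
        rw [inner_add_right]
      map_smul' := fun r y => by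
        refine tendsto_nhds_unique (hlt (r • y)) ?_
        have h := (hlt y).const_mul r
        refine h.congr fun i => ?_
        rw [inner_smul_right]
        }
  let F : H →L[ℝ] ℝ := f.mkContinuous C fun y => by
    rw [Real.norm_eq_abs]
    exact hC y
  refine ⟨(InnerProductSpace.toDual ℝ H).symm F, ?_, fun y => ?_⟩
  · rw [LinearIsometryEquiv.norm_map]
    obtain ⟨i⟩ : Nonempty ι := Filter.nonempty_of_neBot (U : Filter ι)
    exact LinearMap.mkContinuous_norm_le _ ((norm_nonneg _).trans (hx i)) _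
  · rw [InnerProductSpace.toDual_symm_apply]
    exact hlt y

/-- A limit of integers is an integer. -/
theorem int_of_tendsto {ι : Type*} {U : Filter ι} [U.NeBot] {f : ι → ℝ} {L : ℝ}
    (hf : ∀ i, ∃ n : ℤ, f i = n) (h : Tendsto f U (𝓝 L)) : ∃ n : ℤ, L = n := by
  have hc : IsClosed (Set.range ((↑) : ℤ → ℝ)) := Int.isClosedEmbedding_coe_real.isClosed_range
  obtain ⟨n, hn⟩ := hc.mem_of_tendsto h (Filter.Eventually.of_forall fun i => by
    obtain ⟨n, hn⟩ := hf i
    exact ⟨n, hn.symm⟩)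
  exact ⟨n, hn.symm⟩

/-- A convergent family of integers is eventually constant. -/
theorem eventually_eq_of_tendsto {ι : Type*} {U : Filter ι} {f : ι → ℝ} {n : ℤ}
    (hf : ∀ i, ∃ n : ℤ, f i = n) (h : Tendsto f U (𝓝 (n : ℝ))) : ∀ᶠ i in U, f i = n := by
  have h1 := h.eventually (Metric.ball_mem_nhds (n : ℝ) (show (0 : ℝ) < 1 by norm_num))
  filter_upwards [h1] with i hi
  obtain ⟨k, hk⟩ := hf i
  rw [hk] at hi ⊢
  rw [Real.dist_eq, ← Int.cast_sub, ← Int.cast_abs] at hi
  have h2 : |k - n| < 1 := by exact_mod_cast hi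
  have h3 : k = n := by
    have := abs_lt.1 h2
    omega
  rw [h3]

omit [CompleteSpace H] in
/-- Bessel: an orthonormal family has only finitely many inner products equal to a nonzero number in
absolute value at least `1` with a vector of norm square `2`. -/
theorem bessel_three {ι : Type*} {e : ι → H} (he : Orthonormal ℝ e) (v : H) (hv : ‖v‖ ^ 2 < 3)
    (s : Finset ι) (hs : ∀ i ∈ s, 1 ≤ |⟪e i, v⟫_ℝ|) : s.card < 3 := by
  have h1 := he.sum_inner_products_le v (s := s)
  have h2 : (s.card : ℝ) ≤ ∑ i ∈ s, ‖⟪e i, v⟫_ℝ‖ ^ 2 := by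
    rw [Finset.cast_card]
    refine Finset.sum_le_sum fun i hi => ?_
    rw [Real.norm_eq_abs]
    exact one_le_pow₀ (hs i hi)
  have h3 : (s.card : ℝ) < 3 := by linarith
  exact_mod_cast h3

omit [CompleteSpace H] in
/-- Bessel: an orthonormal family indexed by an infinite type with constant inner products with a
vector is orthogonal to it. -/
theorem bessel_const {ι : Type*} [Infinite ι] {e : ι → H} (he : Orthonormal ℝ e) (v : H) (a : ℝ)
    (h : ∀ i, ⟪e i, v⟫_ℝ = a) : a = 0 := by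
  by_contra ha
  have hpos : 0 < a ^ 2 := by positivity
  obtain ⟨n, hn⟩ := exists_nat_gt (‖v‖ ^ 2 / a ^ 2)
  obtain ⟨s, hs⟩ := Infinite.exists_subset_card_eq ι n
  have h1 := he.sum_inner_products_le v (s := s)
  simp only [h, Real.norm_eq_abs, sq_abs, Finset.sum_const, hs, nsmul_eq_mul] at h1
  rw [div_lt_iff₀ hpos] at hn
  linarith

end Pool.Agent.EEAG1
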