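import Pool.Agent.W_eea520_g1.C1

/-!
# Unitary operators with integral inner products (MP_eea520_nt, theorem G1)
-/

set_option autoImplicit false

namespace Pool.Agent.EEAG1

open Filter Topology
open scoped InnerProductSpace

variable {H : Type*} [NormedAddCommGroup H] [InnerProductSpace ℝ H]

/-- All `⟨T^j x, y⟩` are integers. -/
def IP (T : H ≃ₗᵢ[ℝ] H) (x y : H) : Prop := ∀ j : ℤ, ∃ n : ℤ, ⟪(T ^ j) x, y⟫_ℝ = n

theorem zpow_add_apply (T : H ≃ₗᵢ[ℝ] H) (i j : ℤ) (x : H) : (T ^ (i + j)) x = (T ^ i) ((T ^ j) x) := by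
  rw [zpow_add]
  rfl

theorem zpow_zero_apply (T : H ≃ₗᵢ[ℝ] H) (x : H) : (T ^ (0 : ℤ)) x = x := by
  rw [zpow_zero]
  rfl

theorem norm_zpow (T : H ≃ₗᵢ[ℝ] H) (i : ℤ) (x : H) : ‖(T ^ i) x‖ = ‖x‖ :=
  (T ^ i).norm_map x

theorem inner_zpow (T : H ≃ₗᵢ[ℝ] H) (i j : ℤ) (x y : H) :
    ⟪(T ^ i) x, (T ^ j) y⟫_ℝ = ⟪(T ^ (i - j)) x, y⟫_ℝ := by
  have h : (T ^ i) x = (T ^ j) ((T ^ (i - j)) x) := by
    rw [← zpow_add_apply]
    congr 2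
    ring_nf
  rw [h, LinearIsometryEquiv.inner_map_map]

theorem inner_zpow_left (T : H ≃ₗᵢ[ℝ] H) (i : ℤ) (x y : H) :
    ⟪(T ^ i) x, y⟫_ℝ = ⟪x, (T ^ (-i)) y⟫_ℝ := by
  have h := inner_zpow T 0 (-i) x y
  rw [zpow_zero_apply] at h
  rw [h]
  congr 2
  ring_nf

theorem IP.symm {T : H ≃ₗᵢ[ℝ] H} {x y : H} (h : IP T x y) : IP T y x := by
  intro j
  obtain ⟨n, hn⟩ := h (-j)
  refine ⟨n, ?_⟩
  rw [inner_zpow_left, real_inner_comm]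
  exact hn

theorem IP.limit {ι : Type*} {U : Filter ι} [U.NeBot] {T : H ≃ₗᵢ[ℝ] H} {x : ι → H} {w y : H}
    (hw : ∀ z : H, Tendsto (fun i => ⟪x i, z⟫_ℝ) U (𝓝 ⟪w, z⟫_ℝ)) (h : ∀ i, IP T (x i) y) :
    IP T w y := by
  intro j
  rw [inner_zpow_left]
  refine int_of_tendsto (fun i => ?_) (hw ((T ^ (-j)) y))
  obtain ⟨n, hn⟩ := h i j
  exact ⟨n, by rw [← hn, inner_zpow_left]⟩

theorem IP.zpow_left {T : H ≃ₗᵢ[ℝ] H} {x y : H} (h : IP T x y) (i : ℤ) : IP T ((T ^ i) x) y := by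
  intro j
  obtain ⟨n, hn⟩ := h (j + i)
  exact ⟨n, by rw [← zpow_add_apply, hn]⟩

theorem IP.add {T : H ≃ₗᵢ[ℝ] H} {x y z : H} (h : IP T x z) (h' : IP T y z) : IP T (x + y) z := by
  intro j
  obtain ⟨n, hn⟩ := h j
  obtain ⟨n', hn'⟩ := h' j
  exact ⟨n + n', by rw [map_add, inner_add_left, hn, hn']; push_cast; ring⟩

theorem IP.smul {T : H ≃ₗᵢ[ℝ] H} {x z : H} (h : IP T x z) (a : ℤ) : IP T ((a : ℝ) • x) z := by
  intro j
  obtain ⟨n, hn⟩ := h j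
  exact ⟨a * n, by rw [map_smul, inner_smul_left, hn]; push_cast; simp⟩

theorem IP.zero {T : H ≃ₗᵢ[ℝ] H} (z : H) : IP T 0 z := fun j => ⟨0, by simp⟩

theorem norm_sq_int {T : H ≃ₗᵢ[ℝ] H} {x : H} (h : IP T x x) : ∃ n : ℤ, ‖x‖ ^ 2 = n := by
  obtain ⟨n, hn⟩ := h 0
  rw [zpow_zero_apply, real_inner_self_eq_norm_sq] at hn
  exact ⟨n, hn⟩

/-- Equality in Cauchy-Schwarz. -/
theorem eq_smul_of_inner {a w : H} (ha : ‖a‖ ^ 2 = 1) (hw : ‖w‖ ^ 2 = 1) {δ : ℝ} (hδ : δ ^ 2 = 1)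
    (h : ⟪a, w⟫_ℝ = δ) : a = δ • w := by
  have h1 : ‖a - δ • w‖ ^ 2 = 0 := by
    rw [norm_sub_sq_real, inner_smul_right, norm_smul, mul_pow, ha, hw, h, Real.norm_eq_abs, sq_abs]
    linear_combination (-1 : ℝ) * hδ
  rw [sq_eq_zero_iff, norm_eq_zero, sub_eq_zero] at h1
  exact h1

/-- For a vector of norm one with integral inner products either the orbit is orthonormal or the vector is
periodic up to sign. -/
theorem orth_or_periodic {T : H ≃ₗᵢ[ℝ] H} {w : H} (hw : ‖w‖ ^ 2 = 1) (h : IP T w w) {i : ℤ}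
    (hi : ⟪(T ^ i) w, w⟫_ℝ ≠ 0) :
    ∃ δ : ℤ, (δ = 1 ∨ δ = -1) ∧ ⟪(T ^ i) w, w⟫_ℝ = δ ∧ (T ^ i) w = (δ : ℝ) • w := by
  obtain ⟨n, hn⟩ := h i
  have h1 := abs_real_inner_le_norm ((T ^ i) w) w
  rw [norm_zpow, ← pow_two, hw, hn, ← Int.cast_abs] at h1
  have h2 : |n| ≤ 1 := by exact_mod_cast h1
  have h3 : n ≠ 0 := by
    rintro rfl
    exact hi (by rw [hn]; simp)
  have h4 : n = 1 ∨ n = -1 := by
    have := abs_le.1 h2
    omega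
  refine ⟨n, h4, hn, ?_⟩
  refine eq_smul_of_inner ?_ hw ?_ hn
  · rw [norm_zpow, hw]
  · rcases h4 with rfl | rfl <;> norm_num

theorem zpow_two_mul_of_smul {T : H ≃ₗᵢ[ℝ] H} {w : H} {i : ℤ} {δ : ℤ} (hδ : δ = 1 ∨ δ = -1)
    (h : (T ^ i) w = (δ : ℝ) • w) : (T ^ (2 * i)) w = w := by
  rw [two_mul, zpow_add_apply, h, map_smul, h, smul_smul]
  rcases hδ with rfl | rfl <;> norm_num

theorem zpow_mul_of_fix {T : H ≃ₗᵢ[ℝ] H} {w : H} {i : ℤ} (h : (T ^ i) w = w) (n : ℤ) :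
    (T ^ (n * i)) w = w := by
  have h1 : ∀ n : ℕ, (T ^ ((n : ℤ) * i)) w = w := by
    intro n
    induction n with
    | zero => rw [Nat.cast_zero, zero_mul, zpow_zero_apply]
    | succ n ih => rw [Nat.cast_succ, add_mul, one_mul, zpow_add_apply, h, ih]
  rcases n.eq_nat_or_neg with ⟨k, rfl | rfl⟩
  · exact h1 k
  · have h2 := h1 k
    have h3 : (T ^ (-(k : ℤ) * i)) ((T ^ ((k : ℤ) * i)) w) = w := by
      rw [← zpow_add_apply]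
      rw [show -(k : ℤ) * i + (k : ℤ) * i = 0 by ring, zpow_zero_apply]
    rw [h2] at h3
    exact h3

/-- An orbit without nonzero inner products is orthonormal. -/
theorem orthonormal_orbit {T : H ≃ₗᵢ[ℝ] H} {w : H} (hw : ‖w‖ ^ 2 = 1)
    (h : ∀ i : ℤ, i ≠ 0 → ⟪(T ^ i) w, w⟫_ℝ = 0) : Orthonormal ℝ (fun i : ℤ => (T ^ i) w) := by
  have hw1 : ‖w‖ = 1 := by
    have h0 := norm_nonneg w
    nlinarith
  refine ⟨fun i => by rw [norm_zpow, hw1], fun i j hij => ?_⟩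
  show ⟪(T ^ i) w, (T ^ j) w⟫_ℝ = 0
  rw [inner_zpow]
  exact h _ (sub_ne_zero.2 hij)

end Pool.Agent.EEAG1
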