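import Pool.Agent.W_eea520_g1.C2

/-!
# Case B: infinitely many nonzero inner products (MP_eea520_nt, theorem G1)
-/

set_option autoImplicit false

namespace Pool.Agent.EEAG1

open Filter Topology
open scoped InnerProductSpace

variable {H : Type*} [NormedAddCommGroup H] [InnerProductSpace ℝ H]

theorem smul_zpow {T : H ≃ₗᵢ[ℝ] H} {w : H} {m : ℤ} {e : ℤ} (he : e = 1 ∨ e = -1)
    (h : (T ^ m) w = (e : ℝ) • w) (k : ℤ) : (T ^ (k * m)) w = ((e : ℝ) ^ k.natAbs) • w := by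
  have h1 : ∀ n : ℕ, (T ^ ((n : ℤ) * m)) w = ((e : ℝ) ^ n) • w := by
    intro n
    induction n with
    | zero => rw [Nat.cast_zero, zero_mul, zpow_zero_apply, pow_zero, one_smul]
    | succ n ih =>
      rw [Nat.cast_succ, add_mul, one_mul, zpow_add_apply, h, map_smul, ih, smul_smul, pow_succ']
  have he2 : (e : ℝ) * e = 1 := by rcases he with rfl | rfl <;> norm_num
  rcases k.eq_nat_or_neg with ⟨n, rfl | rfl⟩
  · rw [Int.natAbs_natCast]
    exact h1 n
  · rw [Int.natAbs_neg, Int.natAbs_natCast]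
    have h2 : (T ^ (-(n : ℤ) * m)) ((T ^ ((n : ℤ) * m)) w) = w := by
      rw [← zpow_add_apply, show -(n : ℤ) * m + (n : ℤ) * m = 0 by ring, zpow_zero_apply]
    rw [h1 n, map_smul] at h2
    have h3 : ((e : ℝ) ^ n) * ((e : ℝ) ^ n) = 1 := by rw [← mul_pow, he2, one_pow]
    calc (T ^ (-(n : ℤ) * m)) w = (((e : ℝ) ^ n) * ((e : ℝ) ^ n)) • (T ^ (-(n : ℤ) * m)) w := by
          rw [h3, one_smul]
      _ = ((e : ℝ) ^ n) • w := by rw [mul_smul, h2]

/-- The inner products of the orbit of a vector of norm one which is not orthonormal. -/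
theorem law_of_norm_one {T : H ≃ₗᵢ[ℝ] H} {w : H} (hw : ‖w‖ ^ 2 = 1) (h : IP T w w) {i : ℤ} (hi : i ≠ 0)
    (hi' : ⟪(T ^ i) w, w⟫_ℝ ≠ 0) :
    ∃ m : ℤ, 0 < m ∧ ∃ e : ℤ, (e = 1 ∨ e = -1) ∧
      (∀ k : ℤ, ⟪(T ^ (k * m)) w, w⟫_ℝ = (e : ℝ) ^ k.natAbs) ∧
      ∀ k : ℤ, ¬ m ∣ k → ⟪(T ^ k) w, w⟫_ℝ = 0 := by
  classical
  have hww : ⟪w, w⟫_ℝ = 1 := by rw [real_inner_self_eq_norm_sq, hw]
  let J : AddSubgroup ℤ :=
    { carrier := {j | ⟪(T ^ j) w, w⟫_ℝ ≠ 0}
      zero_mem' := by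
        show ⟪(T ^ (0 : ℤ)) w, w⟫_ℝ ≠ 0
        rw [zpow_zero_apply, hww]
        norm_num
      add_mem' := by
        intro a b ha hb
        show ⟪(T ^ (a + b)) w, w⟫_ℝ ≠ 0
        obtain ⟨d, hd, -, hd2⟩ := orth_or_periodic hw h ha
        obtain ⟨d', hd', -, hd2'⟩ := orth_or_periodic hw h hb
        rw [zpow_add_apply, hd2', map_smul, hd2, smul_smul, inner_smul_left, hww]
        rcases hd with rfl | rfl <;> rcases hd' with rfl | rfl <;> norm_num
      neg_mem' := by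
        intro a ha
        show ⟪(T ^ (-a)) w, w⟫_ℝ ≠ 0
        rw [inner_zpow_left, neg_neg, real_inner_comm]
        exact ha }
  obtain ⟨a, ha⟩ := Int.subgroup_cyclic J
  have hmem : ∀ k : ℤ, ⟪(T ^ k) w, w⟫_ℝ ≠ 0 ↔ a ∣ k := by
    intro k
    have h1 : (k ∈ J) ↔ a ∣ k := by
      rw [ha, AddSubgroup.mem_closure_singleton]
      constructor
      · rintro ⟨n, rfl⟩
        exact ⟨n, by rw [smul_eq_mul, mul_comm]⟩
      · rintro ⟨n, rfl⟩
        exact ⟨n, by rw [smul_eq_mul, mul_comm]⟩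
    exact h1
  have ha0 : a ≠ 0 := by
    rintro rfl
    exact hi (zero_dvd_iff.1 ((hmem i).1 hi'))
  have hm : ⟪(T ^ |a|) w, w⟫_ℝ ≠ 0 := (hmem _).2 ((dvd_abs a a).2 dvd_rfl)
  obtain ⟨e, he, -, he2⟩ := orth_or_periodic hw h hm
  refine ⟨|a|, abs_pos.2 ha0, e, he, fun k => ?_, fun k hk => ?_⟩
  · rw [smul_zpow he he2, inner_smul_left, hww, mul_one]
    simp
  · by_contra hne
    exact hk ((abs_dvd a k).2 ((hmem k).1 hne))

/-- Case B, the weak limit. -/
theorem caseB_limit [CompleteSpace H] {T : H ≃ₗᵢ[ℝ] H} {v : H} (hv : ‖v‖ ^ 2 = 2) (h : IP T v v)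
    (hinf : {k : ℤ | ⟪(T ^ k) v, v⟫_ℝ ≠ 0}.Infinite) :
    ∃ w : H, IP T w v ∧ IP T w w ∧ (‖w‖ ^ 2 = 1 ∨ ‖w‖ ^ 2 = 2) ∧ ⟪w, v⟫_ℝ ≠ 0 ∧
      {k : ℤ | ⟪(T ^ k) v, w⟫_ℝ = ‖w‖ ^ 2}.Infinite := by
  classical
  have : (cofinite ⊓ 𝓟 {k : ℤ | ⟪(T ^ k) v, v⟫_ℝ ≠ 0}).NeBot :=
    hinf.cofinite_inf_principal_neBot
  set U := Ultrafilter.of (cofinite ⊓ 𝓟 {k : ℤ | ⟪(T ^ k) v, v⟫_ℝ ≠ 0}) with hU
  have hUle : (U : Filter ℤ) ≤ cofinite ⊓ 𝓟 {k : ℤ | ⟪(T ^ k) v, v⟫_ℝ ≠ 0} :=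
    Ultrafilter.of_le _
  have hUc : (U : Filter ℤ) ≤ cofinite := hUle.trans inf_le_left
  have hUK : ∀ᶠ k in (U : Filter ℤ), ⟪(T ^ k) v, v⟫_ℝ ≠ 0 := by
    have := hUle.trans inf_le_right
    exact this (mem_principal_self _)
  obtain ⟨w, hwn, hw⟩ := exists_weak_limit U (fun k : ℤ => (T ^ k) v) ‖v‖
    (fun k => (norm_zpow T k v).le)
  have h1 : IP T w v := IP.limit hw fun k => h.zpow_left k
  have h2 : IP T w w := IP.limit hw fun k => h1.symm.zpow_left k
  have hinfU : ∀ S : Set ℤ, (∀ᶠ k in (U : Filter ℤ), k ∈ S) → S.Infinite := by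
    intro S hS hfin
    have h3 : ∀ᶠ k in (U : Filter ℤ), k ∉ S := hUc (by
      rw [mem_cofinite]
      exact hfin.subset fun x hx => by
        by_contra hxS
        exact hx hxS)
    obtain ⟨k, hk1, hk2⟩ := (hS.and h3).exists
    exact hk2 hk1
  have hwv : ⟪w, v⟫_ℝ ≠ 0 := by
    obtain ⟨n, hn⟩ := int_of_tendsto (fun k => h k) (hw v)
    have h3 := hw v
    rw [hn] at h3
    have h4 := eventually_eq_of_tendsto (fun k => h k) h3
    obtain ⟨k, hk1, hk2⟩ := (h4.and hUK).exists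
    rw [hn, ← hk1]
    exact hk2
  refine ⟨w, h1, h2, ?_, hwv, ?_⟩
  · obtain ⟨n, hn⟩ := norm_sq_int h2
    have hle : ‖w‖ ^ 2 ≤ 2 := by
      rw [← hv]
      exact pow_le_pow_left₀ (norm_nonneg _) hwn 2
    have hpos : 0 < ‖w‖ ^ 2 := by
      have : w ≠ 0 := by
        rintro rfl
        exact hwv (inner_zero_left _)
      positivity
    rw [hn] at hle hpos ⊢
    have h3 : n ≤ 2 := by exact_mod_cast hle
    have h4 : 0 < n := by exact_mod_cast hpos
    have h5 : n = 1 ∨ n = 2 := by omega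
    rcases h5 with rfl | rfl
    · left; norm_num
    · right; norm_num
  · refine hinfU _ ?_
    obtain ⟨n, hn⟩ := norm_sq_int h2
    have h3 := hw w
    rw [real_inner_self_eq_norm_sq, hn] at h3
    have h4 := eventually_eq_of_tendsto (fun k => h1.symm k) h3
    filter_upwards [h4] with k hk
    rw [hn]
    exact hk

/-- Case B. -/
theorem caseB [CompleteSpace H] {T : H ≃ₗᵢ[ℝ] H} {v : H} (hv : ‖v‖ ^ 2 = 2) (h : IP T v v)
    (hinf : {k : ℤ | ⟪(T ^ k) v, v⟫_ℝ ≠ 0}.Infinite) :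
    (∃ r : ℤ, r ≠ 0 ∧ (T ^ r) v = v) ∨
      ∃ m : ℤ, 0 < m ∧ ∃ e : ℤ, (e = 1 ∨ e = -1) ∧
        (∀ k : ℤ, ⟪(T ^ (k * m)) v, v⟫_ℝ = (if k = 0 then 1 else 0) + (e : ℝ) ^ k.natAbs) ∧
        ∀ k : ℤ, ¬ m ∣ k → ⟪(T ^ k) v, v⟫_ℝ = 0 := by
  classical
  obtain ⟨w, h1, h2, hw12, hwv, hK⟩ := caseB_limit hv h hinf
  rcases hw12 with hw | hw
  swap
  · -- strong convergence
    left
    obtain ⟨k, hk, l, hl, hkl⟩ := hK.nontrivial
    have hs : ∀ k : ℤ, ⟪(T ^ k) v, w⟫_ℝ = ‖w‖ ^ 2 → (T ^ k) v = w := by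
      intro k hk
      have h3 : ‖(T ^ k) v - w‖ ^ 2 = 0 := by
        rw [norm_sub_sq_real, norm_zpow, hk, hv, hw]
        norm_num
      rw [sq_eq_zero_iff, norm_eq_zero, sub_eq_zero] at h3
      exact h3
    refine ⟨l - k, sub_ne_zero.2 (Ne.symm hkl), ?_⟩
    have h4 : (T ^ l) v = (T ^ k) v := by rw [hs k hk, hs l hl]
    have h5 : (T ^ (-k)) ((T ^ l) v) = (T ^ (-k)) ((T ^ k) v) := by rw [h4]
    rw [← zpow_add_apply, ← zpow_add_apply] at h5
    rw [show -k + l = l - k by ring, show -k + k = 0 by ring, zpow_zero_apply] at h5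
    exact h5
  · rw [hw] at hK
    -- the orbit of w is not orthonormal
    have hex : ∃ i : ℤ, i ≠ 0 ∧ ⟪(T ^ i) w, w⟫_ℝ ≠ 0 := by
      by_contra hcon
      push Not at hcon
      have horth := orthonormal_orbit hw hcon
      obtain ⟨s, hs, hs3⟩ := hK.exists_subset_card_eq 3
      have h3 := bessel_three (e := fun i : ℤ => (T ^ i) w) horth v (by rw [hv]; norm_num)
        (s.image fun k => -k) (by
          intro i hi
          obtain ⟨k, hk, rfl⟩ := Finset.mem_image.1 hi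
          have h4 : ⟪(T ^ k) v, w⟫_ℝ = 1 := hs hk
          rw [inner_zpow_left, real_inner_comm] at h4
          simp only [h4]
          norm_num)
      rw [Finset.card_image_of_injective _ neg_injective, hs3] at h3
      omega
    obtain ⟨i, hi0, hi⟩ := hex
    obtain ⟨δ, hδ, -, hδw⟩ := orth_or_periodic hw h2 hi
    have hfixw : (T ^ (2 * i)) w = w := zpow_two_mul_of_smul hδ hδw
    obtain ⟨η, hη⟩ := h1 0
    rw [zpow_zero_apply] at hη
    have hη1 : (η : ℝ) ^ 2 = 1 := by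
      have h3 : ((η : ℝ)) ^ 2 ≤ 2 := by
        have h4 := abs_real_inner_le_norm w v
        have h5 : ⟪w, v⟫_ℝ ^ 2 ≤ (‖w‖ * ‖v‖) ^ 2 := by
          rw [← sq_abs]
          exact pow_le_pow_left₀ (abs_nonneg _) h4 2
        rw [mul_pow, hw, hv, hη] at h5
        linarith
      have h4 : η ^ 2 ≤ 2 := by exact_mod_cast h3
      have h5 : η ≠ 0 := by
        rintro rfl
        exact hwv (by rw [hη]; simp)
      have h6 : η = 1 ∨ η = -1 := by
        have h7 : η ≤ 1 := by nlinarith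
        have h8 : -1 ≤ η := by nlinarith
        omega
      rcases h6 with rfl | rfl <;> norm_num
    set u : H := v + (((-η : ℤ)) : ℝ) • w with hu
    have hvu : v = u + (η : ℝ) • w := by
      rw [hu]
      push_cast
      rw [neg_smul]
      abel
    have hvw : ⟪v, w⟫_ℝ = η := by rw [real_inner_comm]; exact hη
    have huw : ⟪u, w⟫_ℝ = 0 := by
      rw [hu, inner_add_left, inner_smul_left, real_inner_self_eq_norm_sq, hw, hvw]
      push_cast
      simp
    have hu1 : ‖u‖ ^ 2 = 1 := by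
      have h3 : ‖v‖ ^ 2 = ‖u‖ ^ 2 + 1 := by
        rw [hvu, norm_add_sq_real, inner_smul_right, huw, norm_smul, mul_pow, hw, Real.norm_eq_abs,
          sq_abs, hη1]
        ring
      rw [hv] at h3
      linarith
    have hIuv : IP T u v := h.add (h1.smul (-η))
    have hIuw : IP T u w := h1.symm.add (h2.smul (-η))
    have hIu : IP T u u := hIuv.symm.add (hIuw.symm.smul (-η))
    clear_value u
    by_cases hex2 : ∃ j : ℤ, j ≠ 0 ∧ ⟪(T ^ j) u, u⟫_ℝ ≠ 0
    · left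
      obtain ⟨j, hj0, hj⟩ := hex2
      obtain ⟨δ', hδ', -, hδu⟩ := orth_or_periodic hu1 hIu hj
      have hfixu : (T ^ (2 * j)) u = u := zpow_two_mul_of_smul hδ' hδu
      refine ⟨2 * j * (2 * i), by simp [hj0, hi0], ?_⟩
      have h3 : (T ^ (2 * j * (2 * i))) w = w := zpow_mul_of_fix hfixw _
      have h4 : (T ^ (2 * j * (2 * i))) u = u := by
        rw [mul_comm]
        exact zpow_mul_of_fix hfixu _
      conv_lhs => rw [hvu]
      rw [map_add, map_smul, h3, h4, ← hvu]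
    · right
      push Not at hex2
      have horth := orthonormal_orbit hu1 hex2
      have hortho : ∀ j : ℤ, ⟪(T ^ j) u, w⟫_ℝ = 0 := by
        intro j
        have hinj : Function.Injective (fun n : ℤ => n * (2 * i) + j) := by
          intro a b hab
          have h3 : a * (2 * i) = b * (2 * i) := by
            simpa using hab
          exact mul_right_cancel₀ (by simp [hi0]) h3
        have horth2 := horth.comp _ hinj
        refine bessel_const horth2 w _ fun n => ?_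
        show ⟪(T ^ (n * (2 * i) + j)) u, w⟫_ℝ = ⟪(T ^ j) u, w⟫_ℝ
        rw [zpow_add_apply, inner_zpow_left, show -(n * (2 * i)) = (-n) * (2 * i) by ring,
          zpow_mul_of_fix hfixw]
      have hortho2 : ∀ j : ℤ, ⟪(T ^ j) w, u⟫_ℝ = 0 := by
        intro j
        rw [inner_zpow_left, real_inner_comm]
        exact hortho _
      have hc : ∀ j : ℤ, ⟪(T ^ j) v, v⟫_ℝ = ⟪(T ^ j) u, u⟫_ℝ + ⟪(T ^ j) w, w⟫_ℝ := by
        intro j
        rw [hvu, map_add, map_smul, inner_add_left, inner_add_right, inner_add_right,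
          inner_smul_left, inner_smul_right, inner_smul_left, inner_smul_right, hortho, hortho2]
        simp only [mul_zero, add_zero, zero_add]
        have h3 : (starRingEnd ℝ) (η : ℝ) * ((η : ℝ) * ⟪(T ^ j) w, w⟫_ℝ) = ⟪(T ^ j) w, w⟫_ℝ := by
          rw [conj_trivial, ← mul_assoc, ← pow_two, hη1, one_mul]
        rw [h3]
      obtain ⟨m, hm, e, he, hm1, hm2⟩ := law_of_norm_one hw h2 hi0 hi
      have huu : ⟪u, u⟫_ℝ = 1 := by rw [real_inner_self_eq_norm_sq, hu1]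
      refine ⟨m, hm, e, he, fun k => ?_, fun k hk => ?_⟩
      · rw [hc, hm1]
        congr 1
        by_cases hk : k = 0
        · subst hk
          rw [zero_mul, zpow_zero_apply, huu, if_pos rfl]
        · rw [if_neg hk]
          exact hex2 _ (by
            intro h3
            rcases mul_eq_zero.1 h3 with h3 | h3
            · exact hk h3
            · omega)
      · rw [hc, hm2 k hk, add_zero]
        refine hex2 k ?_
        rintro rfl
        exact hk (dvd_zero _)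

end Pool.Agent.EEAG1
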