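import Pool.Agent.W_eea520_g1.C2

/-!
# Case A: finitely many nonzero inner products (MP_eea520_nt, theorem G1)
-/

set_option autoImplicit false

namespace Pool.Agent.EEAG1

open Filter Topology
open scoped InnerProductSpace

variable {H : Type*} [NormedAddCommGroup H] [InnerProductSpace ℝ H] [CompleteSpace H]

/-- The partial sums of the alternating orbit. -/
noncomputable def caseA_x (T : H ≃ₗᵢ[ℝ] H) (v : H) (m : ℤ) (e : ℝ) (N : ℕ) : H :=
  ∑ j ∈ Finset.range N, (-e) ^ j • (T ^ (m * (j : ℤ))) v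

omit [CompleteSpace H] in
theorem caseA_even (T : H ≃ₗᵢ[ℝ] H) (v : H) (k : ℤ) :
    ⟪(T ^ (-k)) v, v⟫_ℝ = ⟪(T ^ k) v, v⟫_ℝ := by
  rw [inner_zpow_left, neg_neg, real_inner_comm]

omit [CompleteSpace H] in
theorem caseA_x_succ (T : H ≃ₗᵢ[ℝ] H) (v : H) (m : ℤ) (e : ℝ) (N : ℕ) :
    caseA_x T v m e (N + 1) = caseA_x T v m e N + (-e) ^ N • (T ^ (m * (N : ℤ))) v := by
  unfold caseA_x
  rw [Finset.sum_range_succ]

omit [CompleteSpace H] in
theorem caseA_x_one (T : H ≃ₗᵢ[ℝ] H) (v : H) (m : ℤ) (e : ℝ) : caseA_x T v m e 1 = v := by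
  rw [show (1 : ℕ) = 0 + 1 from rfl, caseA_x_succ]
  unfold caseA_x
  rw [Finset.sum_range_zero, zero_add, pow_zero, one_smul, Nat.cast_zero, mul_zero, zpow_zero_apply]

omit [CompleteSpace H] in
theorem caseA_x_shift (T : H ≃ₗᵢ[ℝ] H) (v : H) (m : ℤ) (e : ℝ) (N : ℕ) :
    caseA_x T v m e (N + 1) = v - e • (T ^ m) (caseA_x T v m e N) := by
  induction N with
  | zero =>
    rw [zero_add, caseA_x_one]
    unfold caseA_x
    rw [Finset.sum_range_zero, map_zero, smul_zero, sub_zero]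
  | succ N ih =>
    rw [caseA_x_succ, caseA_x_succ T v m e N, map_add, smul_add, map_smul, smul_smul,
      ← zpow_add_apply, ← sub_sub, ← ih, show m + m * (N : ℤ) = m * ((N + 1 : ℕ) : ℤ) by push_cast; ring,
      sub_eq_add_neg, ← neg_smul, caseA_x_succ T v m e N]
    congr 2
    ring

omit [CompleteSpace H] in
theorem caseA_inner_x (T : H ≃ₗᵢ[ℝ] H) (v : H) (m : ℤ) (e : ℝ) (N : ℕ) (k : ℤ) :
    ⟪caseA_x T v m e N, (T ^ k) v⟫_ℝ
      = ∑ j ∈ Finset.range N, (-e) ^ j * ⟪(T ^ (m * (j : ℤ) - k)) v, v⟫_ℝ := by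
  unfold caseA_x
  rw [sum_inner]
  refine Finset.sum_congr rfl fun j _ => ?_
  rw [real_inner_smul_left, inner_zpow]

omit [CompleteSpace H] in
theorem caseA_IP {T : H ≃ₗᵢ[ℝ] H} {v : H} (h : IP T v v) (m e : ℤ) (N : ℕ) :
    IP T (caseA_x T v m e N) v := by
  induction N with
  | zero =>
    unfold caseA_x
    rw [Finset.sum_range_zero]
    exact IP.zero v
  | succ N ih =>
    rw [caseA_x_succ]
    refine ih.add ?_
    have h1 := (h.zpow_left (m * (N : ℤ))).smul ((-e) ^ N)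
    have h2 : (((-e) ^ N : ℤ) : ℝ) = (-(e : ℝ)) ^ N := by push_cast; ring
    rw [h2] at h1
    exact h1

omit [CompleteSpace H] in
theorem caseA_IP2 {T : H ≃ₗᵢ[ℝ] H} {v : H} (h : IP T v v) (m e : ℤ) (N M : ℕ) :
    IP T (caseA_x T v m e N) (caseA_x T v m e M) := by
  induction M with
  | zero =>
    unfold caseA_x
    rw [Finset.sum_range_zero]
    exact (IP.zero _).symm
  | succ M ih =>
    rw [caseA_x_succ]
    refine (ih.symm.add ?_).symm
    have h1 := ((caseA_IP h m e N).symm.zpow_left (m * (M : ℤ))).smul ((-e) ^ M)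
    have h2 : (((-e) ^ M : ℤ) : ℝ) = (-(e : ℝ)) ^ M := by push_cast; ring
    rw [h2] at h1
    exact h1

/-- Case A. Proof: let `c k = ⟪T^k v, v⟫` (even in `k`). If `c k = 0` for all `k ≠ 0` we are in the first
case. Otherwise let `m > 0` be the largest element of the support, `e = c m`, an integer, `0 < |e| ≤ 2`.
`|e| = 2` would be equality in Cauchy-Schwarz, so `T^m v = ±v`, `T^(2m) v = v`, and `c (2mn) = 2` for all `n`,
against finiteness. So `e = ±1`. Put `x_N = ∑_{j<N} (-e)^j T^(mj) v`, so `x_{N+1} = x_N + (-e)^N T^(mN) v` and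
`x_{N+1} = v - e T^m x_N`. For `N ≥ 1`: `⟪x_N, T^(mN) v⟫ = (-e)^(N-1) e`, `⟪x_N, T^(mM) v⟫ = 0` for `M > N`,
`‖x_N‖² = 2`, `⟪x_N, x_M⟫ = 1` for `M > N ≥ 1`. Let `y` be a weak limit of `x_N` along a free ultrafilter
(`exists_weak_limit`). Then `⟪y, x_N⟫ = 1` for `N ≥ 1`, so `‖y‖² = 1` and `⟪y, v⟫ = 1`;
`⟪T^m y, v⟫ = lim ⟪x_N, T^(-m) v⟫ = e`; `⟪T^m y, y⟫ = lim_N lim_M ⟪T^m x_M, x_N⟫
= lim e (⟪v, x_N⟫ - ⟪x_{M+1}, x_N⟫) = e (1 - 1) = 0` (for `N ≥ 2`, `M ≥ N`). Hence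
`‖v - y - e T^m y‖² = 2 + 1 + 1 - 2 - 2 + 0 = 0`. `IP T y y` by `IP.limit` twice. If some `⟪T^i y, y⟫ ≠ 0`,
`i ≠ 0`, then `T^(2i) y = y` (`orth_or_periodic`, `zpow_two_mul_of_smul`) and `T^(2i) v = v`, against
finiteness. So the orbit of `y` is orthonormal and `c k = 2[k=0] + e[k=m] + e[k=-m]`. -/
theorem caseA {T : H ≃ₗᵢ[ℝ] H} {v : H} (hv : ‖v‖ ^ 2 = 2) (h : IP T v v)
    (hfin : {k : ℤ | ⟪(T ^ k) v, v⟫_ℝ ≠ 0}.Finite) :
    (∀ k : ℤ, k ≠ 0 → ⟪(T ^ k) v, v⟫_ℝ = 0) ∨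
      ∃ m : ℤ, 0 < m ∧ ∃ e : ℤ, (e = 1 ∨ e = -1) ∧
        ∀ k : ℤ, k ≠ 0 → ⟪(T ^ k) v, v⟫_ℝ = (if k = m ∨ k = -m then (e : ℝ) else 0) := by
  classical
  by_cases h0 : ∀ k : ℤ, k ≠ 0 → ⟪(T ^ k) v, v⟫_ℝ = 0
  · exact Or.inl h0
  right
  -- the largest element of the support
  obtain ⟨m, hm0, hcm, hcz⟩ : ∃ m : ℤ, 0 < m ∧ ⟪(T ^ m) v, v⟫_ℝ ≠ 0 ∧
      ∀ k : ℤ, m < k → ⟪(T ^ k) v, v⟫_ℝ = 0 := by
    have hne : hfin.toFinset.Nonempty := by
      refine ⟨0, ?_⟩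
      rw [Set.Finite.mem_toFinset, Set.mem_ofPred_eq, zpow_zero_apply, real_inner_self_eq_norm_sq, hv]
      norm_num
    have hmem := Finset.max'_mem _ hne
    have hmax : ∀ k : ℤ, ⟪(T ^ k) v, v⟫_ℝ ≠ 0 → k ≤ hfin.toFinset.max' hne := fun k hk =>
      Finset.le_max' _ _ (by rw [Set.Finite.mem_toFinset, Set.mem_ofPred_eq]; exact hk)
    rw [Set.Finite.mem_toFinset, Set.mem_ofPred_eq] at hmem
    refine ⟨_, ?_, hmem, fun k hk => ?_⟩
    · push Not at h0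
      obtain ⟨k, hk, hck⟩ := h0
      have h1 := hmax k hck
      have h2 := hmax (-k) (by rw [caseA_even]; exact hck)
      omega
    · by_contra hc
      have := hmax k hc
      omega
  have hcz' : ∀ k : ℤ, k < -m → ⟪(T ^ k) v, v⟫_ℝ = 0 := by
    intro k hk
    rw [← caseA_even]
    exact hcz _ (by omega)
  obtain ⟨e, he⟩ := h m
  have hcs : ∀ k : ℤ, |⟪(T ^ k) v, v⟫_ℝ| ≤ 2 := by
    intro k
    have h1 := abs_real_inner_le_norm ((T ^ k) v) v
    rw [norm_zpow, ← pow_two, hv] at h1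
    exact h1
  have he1 : e = 1 ∨ e = -1 := by
    have h1 := hcs m
    rw [he, ← Int.cast_abs] at h1
    have h2 : |e| ≤ 2 := by exact_mod_cast h1
    have h3 : e ≠ 0 := by
      rintro rfl
      exact hcm (by rw [he]; simp)
    by_contra hcon
    have h4 : e = 2 ∨ e = -2 := by
      have := abs_le.1 h2
      omega
    obtain ⟨δ, hδ, hδe⟩ : ∃ δ : ℝ, δ ^ 2 = 1 ∧ (e : ℝ) = 2 * δ := by
      rcases h4 with rfl | rfl
      · exact ⟨1, by norm_num, by norm_num⟩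
      · exact ⟨-1, by norm_num, by norm_num⟩
    have h5 : ‖(T ^ m) v - δ • v‖ ^ 2 = 0 := by
      rw [norm_sub_sq_real, inner_smul_right, norm_smul, mul_pow, norm_zpow, hv, he, hδe,
        Real.norm_eq_abs, sq_abs]
      linear_combination (-2 : ℝ) * hδ
    rw [sq_eq_zero_iff, norm_eq_zero, sub_eq_zero] at h5
    have h6 : (T ^ (m + m)) v = v := by
      rw [zpow_add_apply, h5, map_smul, h5, smul_smul, ← pow_two, hδ, one_smul]
    have h7 := hcz (m + m) (by omega)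
    rw [h6, real_inner_self_eq_norm_sq, hv] at h7
    norm_num at h7
  have hee : (e : ℝ) * e = 1 := by rcases he1 with rfl | rfl <;> norm_num
  have hpow : ∀ N : ℕ, (-(e : ℝ)) ^ N * (-(e : ℝ)) ^ N = 1 := by
    intro N
    rw [← mul_pow, neg_mul_neg, hee, one_pow]
  -- the sequence
  set x : ℕ → H := caseA_x T v m (e : ℝ) with hx
  have hxs : ∀ N, x (N + 1) = x N + (-(e : ℝ)) ^ N • (T ^ (m * (N : ℤ))) v :=
    fun N => caseA_x_succ T v m e N
  have hx1 : x 1 = v := caseA_x_one T v m e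
  have hx0 : x 0 = 0 := by
    rw [hx]
    unfold caseA_x
    rw [Finset.sum_range_zero]
  have hF1 : ∀ N : ℕ, ⟪x (N + 1), (T ^ (m * ((N + 1 : ℕ) : ℤ))) v⟫_ℝ = (-(e : ℝ)) ^ N * e := by
    intro N
    rw [hx, caseA_inner_x, Finset.sum_range_succ, Finset.sum_eq_zero, zero_add]
    · rw [show m * (N : ℤ) - m * ((N + 1 : ℕ) : ℤ) = -m by push_cast; ring, caseA_even, he]
    · intro j hj
      have hj' : (j : ℤ) + 1 ≤ N := by exact_mod_cast Finset.mem_range.1 hj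
      rw [hcz', mul_zero]
      push_cast
      nlinarith
  have hF1' : ∀ N M : ℕ, N + 1 ≤ M → ⟪x N, (T ^ (m * (M : ℤ))) v⟫_ℝ = 0 := by
    intro N M hNM
    rw [hx, caseA_inner_x]
    refine Finset.sum_eq_zero fun j hj => ?_
    have hj' : (j : ℤ) + 1 ≤ N := by exact_mod_cast Finset.mem_range.1 hj
    have hNM' : (N : ℤ) + 1 ≤ M := by exact_mod_cast hNM
    rw [hcz', mul_zero]
    nlinarith
  have hF2 : ∀ N : ℕ, ‖x (N + 1)‖ ^ 2 = 2 := by
    intro N
    induction N with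
    | zero => rw [zero_add, hx1, hv]
    | succ N ih =>
      rw [hxs, norm_add_sq_real, ih, inner_smul_right, hF1, norm_smul, mul_pow, norm_zpow, hv,
        Real.norm_eq_abs, sq_abs]
      have h1 := hpow N
      have h2 := hpow (N + 1)
      have h3 : (-(e : ℝ)) ^ (N + 1) = -((-(e : ℝ)) ^ N * e) := by rw [pow_succ]; ring
      rw [h3] at h2 ⊢
      linear_combination (2 - 2 : ℝ) * h2
  have hF3 : ∀ N k : ℕ, ⟪x (N + 1), x (N + 1 + (k + 1))⟫_ℝ = 1 := by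
    intro N k
    induction k with
    | zero =>
      rw [zero_add, hxs (N + 1), inner_add_right, real_inner_self_eq_norm_sq, hF2, inner_smul_right, hF1]
      have h2 := hpow (N + 1)
      have h3 : (-(e : ℝ)) ^ (N + 1) = -((-(e : ℝ)) ^ N * e) := by rw [pow_succ]; ring
      rw [h3] at h2 ⊢
      linear_combination (-1 : ℝ) * h2
    | succ k ih =>
      rw [show N + 1 + (k + 1 + 1) = (N + 1 + (k + 1)) + 1 by ring, hxs (N + 1 + (k + 1)), inner_add_right, ih,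
        inner_smul_right, hF1' (N + 1) (N + 1 + (k + 1)) (by omega), mul_zero, add_zero]
  have hF3' : ∀ N M : ℕ, 1 ≤ N → N < M → ⟪x M, x N⟫_ℝ = 1 := by
    intro N M hN hM
    obtain ⟨N, rfl⟩ : ∃ n, N = n + 1 := ⟨N - 1, by omega⟩
    obtain ⟨k, rfl⟩ : ∃ k, M = N + 1 + (k + 1) := ⟨M - (N + 1) - 1, by omega⟩
    rw [real_inner_comm]
    exact hF3 N k
  have hbd : ∀ N, ‖x N‖ ≤ 2 := by
    intro N
    rcases N with _ | N
    · rw [hx0, norm_zero]; norm_num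
    · have h1 := hF2 N
      nlinarith [norm_nonneg (x (N + 1))]
  -- the weak limit
  obtain ⟨y, -, hy⟩ := exists_weak_limit (Filter.hyperfilter ℕ) x 2 hbd
  have hU : ((Filter.hyperfilter ℕ : Ultrafilter ℕ) : Filter ℕ) ≤ atTop := Nat.hyperfilter_le_atTop
  have hevt : ∀ (f : ℕ → ℝ) (a b : ℝ) (N₀ : ℕ), (∀ N, N₀ ≤ N → f N = a) →
      Tendsto f (Filter.hyperfilter ℕ : Ultrafilter ℕ) (𝓝 b) → b = a := by
    intro f a b N₀ hfa hfb
    refine tendsto_nhds_unique hfb ?_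
    refine (tendsto_const_nhds (x := a)).congr' ?_
    have h1 : ∀ᶠ N in (atTop : Filter ℕ), a = f N := by
      filter_upwards [eventually_ge_atTop N₀] with N hN
      exact (hfa N hN).symm
    exact hU h1
  have hy1 : ∀ N, 1 ≤ N → ⟪y, x N⟫_ℝ = 1 := fun N hN =>
    hevt _ 1 _ (N + 1) (fun M hM => hF3' N M hN (by omega)) (hy (x N))
  have hyy : ⟪y, y⟫_ℝ = 1 :=
    hevt _ 1 _ 1 (fun M hM => by rw [real_inner_comm]; exact hy1 M hM) (hy y)
  have hyv : ⟪y, v⟫_ℝ = 1 := by rw [← hx1]; exact hy1 1 le_rfl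
  have hTyv : ⟪(T ^ m) y, v⟫_ℝ = e := by
    rw [inner_zpow_left]
    refine hevt _ (e : ℝ) _ 1 (fun M hM => ?_) (hy ((T ^ (-m)) v))
    obtain ⟨M, rfl⟩ : ∃ n, M = n + 1 := ⟨M - 1, by omega⟩
    show ⟪x (M + 1), (T ^ (-m)) v⟫_ℝ = e
    rw [hx, caseA_inner_x, Finset.sum_range_succ', Finset.sum_eq_zero, zero_add, pow_zero, one_mul,
      Nat.cast_zero, mul_zero, zero_sub, neg_neg, he]
    intro j _
    rw [hcz, mul_zero]
    push_cast
    have : (0 : ℤ) ≤ j := Int.natCast_nonneg j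
    nlinarith
  have hsh : ∀ M, (T ^ m) (x M) = (e : ℝ) • (v - x (M + 1)) := by
    intro M
    have h1 : x (M + 1) = v - (e : ℝ) • (T ^ m) (x M) := caseA_x_shift T v m e M
    rw [h1, sub_sub_cancel, smul_smul, hee, one_smul]
  have hTyy : ⟪(T ^ m) y, y⟫_ℝ = 0 := by
    rw [real_inner_comm]
    refine hevt _ 0 _ 2 (fun N hN => ?_) (hy ((T ^ m) y))
    show ⟪x N, (T ^ m) y⟫_ℝ = 0
    rw [real_inner_comm, inner_zpow_left]
    refine hevt _ 0 _ (N + 1) (fun M hM => ?_) (hy ((T ^ (-m)) (x N)))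
    show ⟪x M, (T ^ (-m)) (x N)⟫_ℝ = 0
    rw [← inner_zpow_left, hsh, real_inner_smul_left, inner_sub_left, hF3' N (M + 1) (by omega) (by omega),
      ← hx1, real_inner_comm, hF3' 1 N le_rfl (by omega), sub_self, mul_zero]
  have hdec : v = y + (e : ℝ) • (T ^ m) y := by
    have h1 : ‖v - (y + (e : ℝ) • (T ^ m) y)‖ ^ 2 = 0 := by
      have hny : ‖y‖ ^ 2 = 1 := by rw [← real_inner_self_eq_norm_sq]; exact hyy
      rw [norm_sub_sq_real, norm_add_sq_real, inner_add_right, inner_smul_right, inner_smul_right, norm_smul,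
        mul_pow, norm_zpow, hv, hny, real_inner_comm y v, real_inner_comm ((T ^ m) y) v,
        real_inner_comm ((T ^ m) y) y, hyv, hTyv, hTyy, Real.norm_eq_abs, sq_abs]
      linear_combination (-1 : ℝ) * hee
    rw [sq_eq_zero_iff, norm_eq_zero, sub_eq_zero] at h1
    exact h1
  have hny : ‖y‖ ^ 2 = 1 := by rw [← real_inner_self_eq_norm_sq]; exact hyy
  have hIP : IP T y y := by
    refine IP.limit hy fun N => ?_
    exact (IP.limit hy fun M => caseA_IP2 h m e M N).symm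
  have horb : ∀ i : ℤ, i ≠ 0 → ⟪(T ^ i) y, y⟫_ℝ = 0 := by
    intro i hi
    by_contra hc
    obtain ⟨δ, hδ, -, hδ2⟩ := orth_or_periodic hny hIP hc
    have h1 := zpow_two_mul_of_smul hδ hδ2
    have h2 : (T ^ (2 * i)) v = v := by
      rw [hdec, map_add, map_smul, h1, ← zpow_add_apply, add_comm (2 * i) m, zpow_add_apply, h1]
    have h3 : ∀ n : ℤ, ⟪(T ^ (n * (2 * i))) v, v⟫_ℝ = 2 := by
      intro n
      rw [zpow_mul_of_fix h2, real_inner_self_eq_norm_sq, hv]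
    rcases lt_or_gt_of_ne hi with hi' | hi'
    · have h4 := hcz (-(m + 1) * (2 * i)) (by nlinarith)
      rw [h3] at h4
      norm_num at h4
    · have h4 := hcz ((m + 1) * (2 * i)) (by nlinarith)
      rw [h3] at h4
      norm_num at h4
  have hd : ∀ i : ℤ, ⟪(T ^ i) y, y⟫_ℝ = if i = 0 then 1 else 0 := by
    intro i
    split_ifs with hi
    · rw [hi, zpow_zero_apply, hyy]
    · exact horb i hi
  refine ⟨m, hm0, e, he1, fun k hk => ?_⟩
  have h1 : ⟪(T ^ k) v, v⟫_ℝ = ⟪(T ^ k) y, y⟫_ℝ + e * ⟪(T ^ (k - m)) y, y⟫_ℝ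
      + e * ⟪(T ^ (k + m)) y, y⟫_ℝ + e * e * ⟪(T ^ k) y, y⟫_ℝ := by
    conv_lhs => rw [hdec]
    rw [map_add, map_smul, ← zpow_add_apply, inner_add_left, inner_add_right, inner_add_right,
      real_inner_smul_left, real_inner_smul_left, inner_smul_right, inner_smul_right, inner_zpow, inner_zpow,
      show k + m - m = k by ring]
    ring
  rw [h1, hd, hd, hd, if_neg hk]
  by_cases hkm : k = m
  · rw [if_pos (Or.inl hkm), if_pos (by omega), if_neg (by omega)]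
    ring
  · by_cases hkm' : k = -m
    · rw [if_pos (Or.inr hkm'), if_neg (by omega), if_pos (by omega)]
      ring
    · rw [if_neg (by omega), if_neg (by omega), if_neg (by omega)]
      ring

end Pool.Agent.EEAG1
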