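import Pool.Agent.W_eea520_g1.C3
import Pool.Agent.W_eea520_g1.C4
import Pool.Agent.W_eea520_g1.K1

/-!
# Classification of integral positive definite sequences with `c 0 = 2` (MP_eea520_nt, theorem G1)
-/

set_option autoImplicit false

namespace Pool.Agent.EEAG1

open Filter Topology
open scoped InnerProductSpace

/-- A symmetric positive definite sequence of integers with `c 0 = 2` is periodic, or one of the sequences
`2 [k = 0] + e [k = ± m]` (`e = 0, 1, -1`), or `[k = 0] + [m ∣ k] e ^ (k / m)` (`e = 1, -1`). -/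
theorem classify {c : ℤ → ℝ} (hc : PosDef c) (h0 : c 0 = 2) (hint : ∀ k, ∃ n : ℤ, c k = n) :
    (∃ r : ℕ, 0 < r ∧ ∀ k, c (k + r) = c k) ∨
    (∀ k, k ≠ 0 → c k = 0) ∨
    (∃ m : ℤ, 0 < m ∧ ∃ e : ℤ, (e = 1 ∨ e = -1) ∧
      ∀ k, k ≠ 0 → c k = if k = m ∨ k = -m then (e : ℝ) else 0) ∨
    ∃ m : ℤ, 0 < m ∧ ∃ e : ℤ, (e = 1 ∨ e = -1) ∧
      (∀ k : ℤ, c (k * m) = (if k = 0 then 1 else 0) + (e : ℝ) ^ k.natAbs) ∧
      ∀ k, ¬ m ∣ k → c k = 0 := by
  obtain ⟨H, i1, i2, i3, T, v, hv⟩ := exists_gns hc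
  have hv2 : ‖v‖ ^ 2 = 2 := by
    have h1 := hv 0
    rw [zpow_zero_apply, real_inner_self_eq_norm_sq, h0] at h1
    exact h1
  have hI : IP T v v := fun j => by
    obtain ⟨n, hn⟩ := hint j
    exact ⟨n, by rw [hv, hn]⟩
  by_cases hfin : {k : ℤ | ⟪(T ^ k) v, v⟫_ℝ ≠ 0}.Finite
  · rcases caseA hv2 hI hfin with h | ⟨m, hm, e, he, h⟩
    · exact Or.inr (Or.inl fun k hk => by rw [← hv, h k hk])
    · exact Or.inr (Or.inr (Or.inl ⟨m, hm, e, he, fun k hk => by rw [← hv, h k hk]⟩))
  · rcases caseB hv2 hI hfin with ⟨r, hr, h⟩ | ⟨m, hm, e, he, h1, h2⟩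
    · left
      have hper : ∀ k, c (k + r) = c k := by
        intro k
        rw [← hv, ← hv, zpow_add_apply, h]
      have hper2 : ∀ k, c (k + -r) = c k := by
        intro k
        have h3 := hper (k + -r)
        rw [neg_add_cancel_right] at h3
        exact h3.symm
      refine ⟨r.natAbs, Int.natAbs_pos.2 hr, fun k => ?_⟩
      rcases Int.natAbs_eq r with h3 | h3
      · rw [← h3]
        exact hper k
      · have h4 : ((r.natAbs : ℕ) : ℤ) = -r := by omega
        rw [h4]
        exact hper2 k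
    · exact Or.inr (Or.inr (Or.inr ⟨m, hm, e, he, fun k => by rw [← hv, h1 k],
        fun k hk => by rw [← hv, h2 k hk]⟩))

/-- With `c 1 = 0` and `c 2 = -1` only the Sato-Tate sequence, the sequence of the CM law and periodic
sequences remain. -/
theorem trichotomy {c : ℤ → ℝ} (hc : PosDef c) (h0 : c 0 = 2) (hint : ∀ k, ∃ n : ℤ, c k = n)
    (h1 : c 1 = 0) (h2 : c 2 = -1) :
    (∀ k, c k = if k = 0 then 2 else if k = 2 ∨ k = -2 then -1 else 0) ∨
    ((∀ k : ℤ, c (2 * k) = (if k = 0 then 1 else 0) + (-1) ^ k.natAbs) ∧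
      ∀ k : ℤ, c (2 * k + 1) = 0) ∨
    ∃ r : ℕ, 0 < r ∧ ∀ k, c (k + r) = c k := by
  rcases classify hc h0 hint with h | h | ⟨m, hm, e, he, h⟩ | ⟨m, hm, e, he, h3, h4⟩
  · exact Or.inr (Or.inr h)
  · have h5 := h 2 (by norm_num)
    rw [h2] at h5
    norm_num at h5
  · left
    have h5 := h 2 (by norm_num)
    have h6 : (2 : ℤ) = m ∨ (2 : ℤ) = -m := by
      by_contra hcon
      rw [if_neg hcon, h2] at h5
      norm_num at h5
    have h7 : m = 2 := by omega
    subst h7
    rw [if_pos (Or.inl rfl), h2] at h5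
    intro k
    by_cases hk : k = 0
    · rw [if_pos hk, hk, h0]
    · rw [if_neg hk, h k hk, ← h5]
  · right
    left
    have h5 : m ∣ 2 := by
      by_contra hcon
      have h6 := h4 2 hcon
      rw [h2] at h6
      norm_num at h6
    have h6 : m ≤ 2 := Int.le_of_dvd (by norm_num) h5
    have h7 : m = 2 := by
      by_contra hcon
      have h8 : m = 1 := by omega
      subst h8
      have h9 := h3 1
      rw [mul_one, h1] at h9
      rcases he with rfl | rfl <;> norm_num at h9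
    subst h7
    have h8 : e = -1 := by
      have h9 := h3 1
      rw [one_mul, h2] at h9
      rcases he with rfl | rfl
      · norm_num at h9
      · rfl
    subst h8
    refine ⟨fun k => ?_, fun k => ?_⟩
    · rw [mul_comm, h3 k]
      push_cast
      rfl
    · exact h4 _ (by omega)

end Pool.Agent.EEAG1
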