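import Pool.Agent.W_eea520_g1.C3
import Pool.Agent.W_eea520_g1.C4

/-!
# Vector forms of cases A and B (MP_eea520_nt)
-/

set_option autoImplicit false

namespace Pool.Agent.EEAG1

open Filter Topology
open scoped InnerProductSpace

variable {H : Type*} [NormedAddCommGroup H] [InnerProductSpace ℝ H]

/-- Case A, the vector form. -/
theorem caseA_vec [CompleteSpace H] {T : H ≃ₗᵢ[ℝ] H} {v : H} (hv : ‖v‖ ^ 2 = 2) (h : IP T v v)
    (hfin : {k : ℤ | ⟪(T ^ k) v, v⟫_ℝ ≠ 0}.Finite) :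
    (∀ k : ℤ, k ≠ 0 → ⟪(T ^ k) v, v⟫_ℝ = 0) ∨
      ∃ m : ℤ, 0 < m ∧ ∃ e : ℤ, (e = 1 ∨ e = -1) ∧ ∃ y : H, v = y + (e : ℝ) • (T ^ m) y ∧
        ‖y‖ ^ 2 = 1 ∧ IP T y y ∧ ∀ k : ℤ, k ≠ 0 → ⟪(T ^ k) y, y⟫_ℝ = 0 := by
  classical
  by_cases h0 : ∀ k : ℤ, k ≠ 0 → ⟪(T ^ k) v, v⟫_ℝ = 0
  · exact Or.inl h0
  right
  -- the largest element of the support
  obtain ⟨m, hm0, hcm, hcz⟩ : ∃ m : ℤ, 0 < m ∧ ⟪(T ^ m) v, v⟫_ℝ ≠ 0 ∧
      ∀ k : ℤ, m < k → ⟪(T ^ k) v, v⟫_ℝ = 0 := by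
    have hne : hfin.toFinset.Nonempty := by
      refine ⟨0, ?_⟩
      rw [Set.Finite.mem_toFinset, Set.mem_ofPred_eq, zpow_zero_apply, real_inner_self_eq_norm_sq, hv]
      norm_num
    have hmem := Finset.max'_mem _ hne
    have hmax : ∀ k : ℤ, ⟪(T ^ k) v, v⟫_ℝ ≠ 0 → k ≤ hfin.toFinset.max' hne := fun k hk =>
      Finset.le_max' _ _ (by rw [Set.Finite.mem_toFinset, Set.mem_ofPred_eq]; exact hk)
    rw [Set.Finite.mem_toFinset, Set.mem_ofPred_eq] at hmem
    refine ⟨_, ?_, hmem, fun k hk => ?_⟩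
    · push Not at h0
      obtain ⟨k, hk, hck⟩ := h0
      have h1 := hmax k hck
      have h2 := hmax (-k) (by rw [caseA_even]; exact hck)
      omega
    · by_contra hc
      have := hmax k hc
      omega
  have hcz' : ∀ k : ℤ, k < -m → ⟪(T ^ k) v, v⟫_ℝ = 0 := by
    intro k hk
    rw [← caseA_even]
    exact hcz _ (by omega)
  obtain ⟨e, he⟩ := h m
  have hcs : ∀ k : ℤ, |⟪(T ^ k) v, v⟫_ℝ| ≤ 2 := by
    intro k
    have h1 := abs_real_inner_le_norm ((T ^ k) v) v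
    rw [norm_zpow, ← pow_two, hv] at h1
    exact h1
  have he1 : e = 1 ∨ e = -1 := by
    have h1 := hcs m
    rw [he, ← Int.cast_abs] at h1
    have h2 : |e| ≤ 2 := by exact_mod_cast h1
    have h3 : e ≠ 0 := by
      rintro rfl
      exact hcm (by rw [he]; simp)
    by_contra hcon
    have h4 : e = 2 ∨ e = -2 := by
      have := abs_le.1 h2
      omega
    obtain ⟨δ, hδ, hδe⟩ : ∃ δ : ℝ, δ ^ 2 = 1 ∧ (e : ℝ) = 2 * δ := by
      rcases h4 with rfl | rfl
      · exact ⟨1, by norm_num, by norm_num⟩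
      · exact ⟨-1, by norm_num, by norm_num⟩
    have h5 : ‖(T ^ m) v - δ • v‖ ^ 2 = 0 := by
      rw [norm_sub_sq_real, inner_smul_right, norm_smul, mul_pow, norm_zpow, hv, he, hδe,
        Real.norm_eq_abs, sq_abs]
      linear_combination (-2 : ℝ) * hδ
    rw [sq_eq_zero_iff, norm_eq_zero, sub_eq_zero] at h5
    have h6 : (T ^ (m + m)) v = v := by
      rw [zpow_add_apply, h5, map_smul, h5, smul_smul, ← pow_two, hδ, one_smul]
    have h7 := hcz (m + m) (by omega)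
    rw [h6, real_inner_self_eq_norm_sq, hv] at h7
    norm_num at h7
  have hee : (e : ℝ) * e = 1 := by rcases he1 with rfl | rfl <;> norm_num
  have hpow : ∀ N : ℕ, (-(e : ℝ)) ^ N * (-(e : ℝ)) ^ N = 1 := by
    intro N
    rw [← mul_pow, neg_mul_neg, hee, one_pow]
  -- the sequence
  set x : ℕ → H := caseA_x T v m (e : ℝ) with hx
  have hxs : ∀ N, x (N + 1) = x N + (-(e : ℝ)) ^ N • (T ^ (m * (N : ℤ))) v :=
    fun N => caseA_x_succ T v m e N
  have hx1 : x 1 = v := caseA_x_one T v m e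
  have hx0 : x 0 = 0 := by
    rw [hx]
    unfold caseA_x
    rw [Finset.sum_range_zero]
  have hF1 : ∀ N : ℕ, ⟪x (N + 1), (T ^ (m * ((N + 1 : ℕ) : ℤ))) v⟫_ℝ = (-(e : ℝ)) ^ N * e := by
    intro N
    rw [hx, caseA_inner_x, Finset.sum_range_succ, Finset.sum_eq_zero, zero_add]
    · rw [show m * (N : ℤ) - m * ((N + 1 : ℕ) : ℤ) = -m by push_cast; ring, caseA_even, he]
    · intro j hj
      have hj' : (j : ℤ) + 1 ≤ N := by exact_mod_cast Finset.mem_range.1 hj
      rw [hcz', mul_zero]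
      push_cast
      nlinarith
  have hF1' : ∀ N M : ℕ, N + 1 ≤ M → ⟪x N, (T ^ (m * (M : ℤ))) v⟫_ℝ = 0 := by
    intro N M hNM
    rw [hx, caseA_inner_x]
    refine Finset.sum_eq_zero fun j hj => ?_
    have hj' : (j : ℤ) + 1 ≤ N := by exact_mod_cast Finset.mem_range.1 hj
    have hNM' : (N : ℤ) + 1 ≤ M := by exact_mod_cast hNM
    rw [hcz', mul_zero]
    nlinarith
  have hF2 : ∀ N : ℕ, ‖x (N + 1)‖ ^ 2 = 2 := by
    intro N
    induction N with
    | zero => rw [zero_add, hx1, hv]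
    | succ N ih =>
      rw [hxs, norm_add_sq_real, ih, inner_smul_right, hF1, norm_smul, mul_pow, norm_zpow, hv,
        Real.norm_eq_abs, sq_abs]
      have h1 := hpow N
      have h2 := hpow (N + 1)
      have h3 : (-(e : ℝ)) ^ (N + 1) = -((-(e : ℝ)) ^ N * e) := by rw [pow_succ]; ring
      rw [h3] at h2 ⊢
      linear_combination (2 - 2 : ℝ) * h2
  have hF3 : ∀ N k : ℕ, ⟪x (N + 1), x (N + 1 + (k + 1))⟫_ℝ = 1 := by
    intro N k
    induction k with
    | zero =>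
      rw [zero_add, hxs (N + 1), inner_add_right, real_inner_self_eq_norm_sq, hF2, inner_smul_right, hF1]
      have h2 := hpow (N + 1)
      have h3 : (-(e : ℝ)) ^ (N + 1) = -((-(e : ℝ)) ^ N * e) := by rw [pow_succ]; ring
      rw [h3] at h2 ⊢
      linear_combination (-1 : ℝ) * h2
    | succ k ih =>
      rw [show N + 1 + (k + 1 + 1) = (N + 1 + (k + 1)) + 1 by ring, hxs (N + 1 + (k + 1)), inner_add_right, ih,
        inner_smul_right, hF1' (N + 1) (N + 1 + (k + 1)) (by omega), mul_zero, add_zero]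
  have hF3' : ∀ N M : ℕ, 1 ≤ N → N < M → ⟪x M, x N⟫_ℝ = 1 := by
    intro N M hN hM
    obtain ⟨N, rfl⟩ : ∃ n, N = n + 1 := ⟨N - 1, by omega⟩
    obtain ⟨k, rfl⟩ : ∃ k, M = N + 1 + (k + 1) := ⟨M - (N + 1) - 1, by omega⟩
    rw [real_inner_comm]
    exact hF3 N k
  have hbd : ∀ N, ‖x N‖ ≤ 2 := by
    intro N
    rcases N with _ | N
    · rw [hx0, norm_zero]; norm_num
    · have h1 := hF2 N
      nlinarith [norm_nonneg (x (N + 1))]
  -- the weak limit
  obtain ⟨y, -, hy⟩ := exists_weak_limit (Filter.hyperfilter ℕ) x 2 hbd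
  have hU : ((Filter.hyperfilter ℕ : Ultrafilter ℕ) : Filter ℕ) ≤ atTop := Nat.hyperfilter_le_atTop
  have hevt : ∀ (f : ℕ → ℝ) (a b : ℝ) (N₀ : ℕ), (∀ N, N₀ ≤ N → f N = a) →
      Tendsto f (Filter.hyperfilter ℕ : Ultrafilter ℕ) (𝓝 b) → b = a := by
    intro f a b N₀ hfa hfb
    refine tendsto_nhds_unique hfb ?_
    refine (tendsto_const_nhds (x := a)).congr' ?_
    have h1 : ∀ᶠ N in (atTop : Filter ℕ), a = f N := by
      filter_upwards [eventually_ge_atTop N₀] with N hN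
      exact (hfa N hN).symm
    exact hU h1
  have hy1 : ∀ N, 1 ≤ N → ⟪y, x N⟫_ℝ = 1 := fun N hN =>
    hevt _ 1 _ (N + 1) (fun M hM => hF3' N M hN (by omega)) (hy (x N))
  have hyy : ⟪y, y⟫_ℝ = 1 :=
    hevt _ 1 _ 1 (fun M hM => by rw [real_inner_comm]; exact hy1 M hM) (hy y)
  have hyv : ⟪y, v⟫_ℝ = 1 := by rw [← hx1]; exact hy1 1 le_rfl
  have hTyv : ⟪(T ^ m) y, v⟫_ℝ = e := by
    rw [inner_zpow_left]
    refine hevt _ (e : ℝ) _ 1 (fun M hM => ?_) (hy ((T ^ (-m)) v))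
    obtain ⟨M, rfl⟩ : ∃ n, M = n + 1 := ⟨M - 1, by omega⟩
    show ⟪x (M + 1), (T ^ (-m)) v⟫_ℝ = e
    rw [hx, caseA_inner_x, Finset.sum_range_succ', Finset.sum_eq_zero, zero_add, pow_zero, one_mul,
      Nat.cast_zero, mul_zero, zero_sub, neg_neg, he]
    intro j _
    rw [hcz, mul_zero]
    push_cast
    have : (0 : ℤ) ≤ j := Int.natCast_nonneg j
    nlinarith
  have hsh : ∀ M, (T ^ m) (x M) = (e : ℝ) • (v - x (M + 1)) := by
    intro M
    have h1 : x (M + 1) = v - (e : ℝ) • (T ^ m) (x M) := caseA_x_shift T v m e M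
    rw [h1, sub_sub_cancel, smul_smul, hee, one_smul]
  have hTyy : ⟪(T ^ m) y, y⟫_ℝ = 0 := by
    rw [real_inner_comm]
    refine hevt _ 0 _ 2 (fun N hN => ?_) (hy ((T ^ m) y))
    show ⟪x N, (T ^ m) y⟫_ℝ = 0
    rw [real_inner_comm, inner_zpow_left]
    refine hevt _ 0 _ (N + 1) (fun M hM => ?_) (hy ((T ^ (-m)) (x N)))
    show ⟪x M, (T ^ (-m)) (x N)⟫_ℝ = 0
    rw [← inner_zpow_left, hsh, real_inner_smul_left, inner_sub_left, hF3' N (M + 1) (by omega) (by omega),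
      ← hx1, real_inner_comm, hF3' 1 N le_rfl (by omega), sub_self, mul_zero]
  have hdec : v = y + (e : ℝ) • (T ^ m) y := by
    have h1 : ‖v - (y + (e : ℝ) • (T ^ m) y)‖ ^ 2 = 0 := by
      have hny : ‖y‖ ^ 2 = 1 := by rw [← real_inner_self_eq_norm_sq]; exact hyy
      rw [norm_sub_sq_real, norm_add_sq_real, inner_add_right, inner_smul_right, inner_smul_right, norm_smul,
        mul_pow, norm_zpow, hv, hny, real_inner_comm y v, real_inner_comm ((T ^ m) y) v,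
        real_inner_comm ((T ^ m) y) y, hyv, hTyv, hTyy, Real.norm_eq_abs, sq_abs]
      linear_combination (-1 : ℝ) * hee
    rw [sq_eq_zero_iff, norm_eq_zero, sub_eq_zero] at h1
    exact h1
  have hny : ‖y‖ ^ 2 = 1 := by rw [← real_inner_self_eq_norm_sq]; exact hyy
  have hIP : IP T y y := by
    refine IP.limit hy fun N => ?_
    exact (IP.limit hy fun M => caseA_IP2 h m e M N).symm
  have horb : ∀ i : ℤ, i ≠ 0 → ⟪(T ^ i) y, y⟫_ℝ = 0 := by
    intro i hi
    by_contra hc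
    obtain ⟨δ, hδ, -, hδ2⟩ := orth_or_periodic hny hIP hc
    have h1 := zpow_two_mul_of_smul hδ hδ2
    have h2 : (T ^ (2 * i)) v = v := by
      rw [hdec, map_add, map_smul, h1, ← zpow_add_apply, add_comm (2 * i) m, zpow_add_apply, h1]
    have h3 : ∀ n : ℤ, ⟪(T ^ (n * (2 * i))) v, v⟫_ℝ = 2 := by
      intro n
      rw [zpow_mul_of_fix h2, real_inner_self_eq_norm_sq, hv]
    rcases lt_or_gt_of_ne hi with hi' | hi'
    · have h4 := hcz (-(m + 1) * (2 * i)) (by nlinarith)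
      rw [h3] at h4
      norm_num at h4
    · have h4 := hcz ((m + 1) * (2 * i)) (by nlinarith)
      rw [h3] at h4
      norm_num at h4
  exact ⟨m, hm0, e, he1, y, hdec, hny, hIP, horb⟩

/-- Case B, the vector form. -/
theorem caseB_vec [CompleteSpace H] {T : H ≃ₗᵢ[ℝ] H} {v : H} (hv : ‖v‖ ^ 2 = 2) (h : IP T v v)
    (hinf : {k : ℤ | ⟪(T ^ k) v, v⟫_ℝ ≠ 0}.Infinite) :
    (∃ r : ℤ, r ≠ 0 ∧ (T ^ r) v = v) ∨
      ∃ u w : H, v = u + w ∧ ‖u‖ ^ 2 = 1 ∧ ‖w‖ ^ 2 = 1 ∧ IP T u u ∧ IP T w w ∧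
        (∀ k : ℤ, k ≠ 0 → ⟪(T ^ k) u, u⟫_ℝ = 0) ∧ (∀ k : ℤ, ⟪(T ^ k) u, w⟫_ℝ = 0) ∧
        ∃ m : ℤ, 0 < m ∧ ∃ e : ℤ, (e = 1 ∨ e = -1) ∧ (T ^ m) w = (e : ℝ) • w ∧
          ∀ k : ℤ, ¬ m ∣ k → ⟪(T ^ k) w, w⟫_ℝ = 0 := by
  classical
  obtain ⟨w, h1, h2, hw12, hwv, hK⟩ := caseB_limit hv h hinf
  rcases hw12 with hw | hw
  swap
  · -- strong convergence
    left
    obtain ⟨k, hk, l, hl, hkl⟩ := hK.nontrivial
    have hs : ∀ k : ℤ, ⟪(T ^ k) v, w⟫_ℝ = ‖w‖ ^ 2 → (T ^ k) v = w := by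
      intro k hk
      have h3 : ‖(T ^ k) v - w‖ ^ 2 = 0 := by
        rw [norm_sub_sq_real, norm_zpow, hk, hv, hw]
        norm_num
      rw [sq_eq_zero_iff, norm_eq_zero, sub_eq_zero] at h3
      exact h3
    refine ⟨l - k, sub_ne_zero.2 (Ne.symm hkl), ?_⟩
    have h4 : (T ^ l) v = (T ^ k) v := by rw [hs k hk, hs l hl]
    have h5 : (T ^ (-k)) ((T ^ l) v) = (T ^ (-k)) ((T ^ k) v) := by rw [h4]
    rw [← zpow_add_apply, ← zpow_add_apply] at h5
    rw [show -k + l = l - k by ring, show -k + k = 0 by ring, zpow_zero_apply] at h5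
    exact h5
  · rw [hw] at hK
    -- the orbit of w is not orthonormal
    have hex : ∃ i : ℤ, i ≠ 0 ∧ ⟪(T ^ i) w, w⟫_ℝ ≠ 0 := by
      by_contra hcon
      push Not at hcon
      have horth := orthonormal_orbit hw hcon
      obtain ⟨s, hs, hs3⟩ := hK.exists_subset_card_eq 3
      have h3 := bessel_three (e := fun i : ℤ => (T ^ i) w) horth v (by rw [hv]; norm_num)
        (s.image fun k => -k) (by
          intro i hi
          obtain ⟨k, hk, rfl⟩ := Finset.mem_image.1 hi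
          have h4 : ⟪(T ^ k) v, w⟫_ℝ = 1 := hs hk
          rw [inner_zpow_left, real_inner_comm] at h4
          simp only [h4]
          norm_num)
      rw [Finset.card_image_of_injective _ neg_injective, hs3] at h3
      omega
    obtain ⟨i, hi0, hi⟩ := hex
    obtain ⟨δ, hδ, -, hδw⟩ := orth_or_periodic hw h2 hi
    have hfixw : (T ^ (2 * i)) w = w := zpow_two_mul_of_smul hδ hδw
    obtain ⟨η, hη⟩ := h1 0
    rw [zpow_zero_apply] at hη
    have hη1 : (η : ℝ) ^ 2 = 1 := by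
      have h3 : ((η : ℝ)) ^ 2 ≤ 2 := by
        have h4 := abs_real_inner_le_norm w v
        have h5 : ⟪w, v⟫_ℝ ^ 2 ≤ (‖w‖ * ‖v‖) ^ 2 := by
          rw [← sq_abs]
          exact pow_le_pow_left₀ (abs_nonneg _) h4 2
        rw [mul_pow, hw, hv, hη] at h5
        linarith
      have h4 : η ^ 2 ≤ 2 := by exact_mod_cast h3
      have h5 : η ≠ 0 := by
        rintro rfl
        exact hwv (by rw [hη]; simp)
      have h6 : η = 1 ∨ η = -1 := by
        have h7 : η ≤ 1 := by nlinarith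
        have h8 : -1 ≤ η := by nlinarith
        omega
      rcases h6 with rfl | rfl <;> norm_num
    set u : H := v + (((-η : ℤ)) : ℝ) • w with hu
    have hvu : v = u + (η : ℝ) • w := by
      rw [hu]
      push_cast
      rw [neg_smul]
      abel
    have hvw : ⟪v, w⟫_ℝ = η := by rw [real_inner_comm]; exact hη
    have huw : ⟪u, w⟫_ℝ = 0 := by
      rw [hu, inner_add_left, inner_smul_left, real_inner_self_eq_norm_sq, hw, hvw]
      push_cast
      simp
    have hu1 : ‖u‖ ^ 2 = 1 := by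
      have h3 : ‖v‖ ^ 2 = ‖u‖ ^ 2 + 1 := by
        rw [hvu, norm_add_sq_real, inner_smul_right, huw, norm_smul, mul_pow, hw, Real.norm_eq_abs,
          sq_abs, hη1]
        ring
      rw [hv] at h3
      linarith
    have hIuv : IP T u v := h.add (h1.smul (-η))
    have hIuw : IP T u w := h1.symm.add (h2.smul (-η))
    have hIu : IP T u u := hIuv.symm.add (hIuw.symm.smul (-η))
    clear_value u
    by_cases hex2 : ∃ j : ℤ, j ≠ 0 ∧ ⟪(T ^ j) u, u⟫_ℝ ≠ 0
    · left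
      obtain ⟨j, hj0, hj⟩ := hex2
      obtain ⟨δ', hδ', -, hδu⟩ := orth_or_periodic hu1 hIu hj
      have hfixu : (T ^ (2 * j)) u = u := zpow_two_mul_of_smul hδ' hδu
      refine ⟨2 * j * (2 * i), by simp [hj0, hi0], ?_⟩
      have h3 : (T ^ (2 * j * (2 * i))) w = w := zpow_mul_of_fix hfixw _
      have h4 : (T ^ (2 * j * (2 * i))) u = u := by
        rw [mul_comm]
        exact zpow_mul_of_fix hfixu _
      conv_lhs => rw [hvu]
      rw [map_add, map_smul, h3, h4, ← hvu]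
    · right
      push Not at hex2
      have horth := orthonormal_orbit hu1 hex2
      have hortho : ∀ j : ℤ, ⟪(T ^ j) u, w⟫_ℝ = 0 := by
        intro j
        have hinj : Function.Injective (fun n : ℤ => n * (2 * i) + j) := by
          intro a b hab
          have h3 : a * (2 * i) = b * (2 * i) := by
            simpa using hab
          exact mul_right_cancel₀ (by simp [hi0]) h3
        have horth2 := horth.comp _ hinj
        refine bessel_const horth2 w _ fun n => ?_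
        show ⟪(T ^ (n * (2 * i) + j)) u, w⟫_ℝ = ⟪(T ^ j) u, w⟫_ℝ
        rw [zpow_add_apply, inner_zpow_left, show -(n * (2 * i)) = (-n) * (2 * i) by ring,
          zpow_mul_of_fix hfixw]
      have hortho2 : ∀ j : ℤ, ⟪(T ^ j) w, u⟫_ℝ = 0 := by
        intro j
        rw [inner_zpow_left, real_inner_comm]
        exact hortho _
      obtain ⟨m, hm, e, he, hm1, hm2⟩ := law_of_norm_one hw h2 hi0 hi
      have hIηw : IP T ((η : ℝ) • w) ((η : ℝ) • w) := (h2.smul η).symm.smul η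
      refine ⟨u, (η : ℝ) • w, hvu, hu1, ?_, hIu, hIηw, hex2, fun k => ?_, m, hm, e, he, ?_,
        fun k hk => ?_⟩
      · rw [norm_smul, mul_pow, hw, Real.norm_eq_abs, sq_abs, hη1, one_mul]
      · rw [inner_smul_right, hortho, mul_zero]
      · have h3 := hm1 1
        rw [one_mul, Int.natAbs_one, pow_one] at h3
        have h4 : (T ^ m) w = (e : ℝ) • w := by
          refine eq_smul_of_inner ?_ hw ?_ h3
          · rw [norm_zpow, hw]
          · rcases he with rfl | rfl <;> norm_num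
        rw [map_smul, h4, smul_comm]
      · rw [map_smul, inner_smul_left, inner_smul_right, hm2 k hk, mul_zero, mul_zero]

end Pool.Agent.EEAG1
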