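import Pool.Agent.W_eea520_g1.C1

/-!
# Integral matrix coefficients of commutative groups: the splitting lemma (MP_eea520_nt)
-/

set_option autoImplicit false

namespace Pool.Agent.EEAG1

open Filter Topology
open scoped InnerProductSpace

variable {H : Type*} [NormedAddCommGroup H] [InnerProductSpace ℝ H]

/-- The weak limit of contractions. -/
theorem exists_weak_operator [CompleteSpace H] {ι : Type*} (V : Ultrafilter ι) (U : ι → H →ₗ[ℝ] H)
    (hU : ∀ i x, ‖U i x‖ ≤ ‖x‖) : ∃ A : H →L[ℝ] H, (∀ x, ‖A x‖ ≤ ‖x‖) ∧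
      ∀ x z, Tendsto (fun i => ⟪U i x, z⟫_ℝ) V (𝓝 ⟪A x, z⟫_ℝ) := by
  choose f hf hf2 using fun x : H => exists_weak_limit V (fun i => U i x) ‖x‖ fun i => hU i x
  let F : H →ₗ[ℝ] H :=
    { toFun := f
      map_add' := fun x y => by
        refine ext_inner_right ℝ fun z => ?_
        rw [inner_add_left]
        refine tendsto_nhds_unique (hf2 (x + y) z) ?_
        refine ((hf2 x z).add (hf2 y z)).congr fun i => ?_
        rw [map_add, inner_add_left]
      map_smul' := fun r x => by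
        refine ext_inner_right ℝ fun z => ?_
        rw [RingHom.id_apply, real_inner_smul_left]
        refine tendsto_nhds_unique (hf2 (r • x) z) ?_
        refine ((hf2 x z).const_mul r).congr fun i => ?_
        rw [map_smul, real_inner_smul_left] }
  refine ⟨F.mkContinuous 1 fun x => by rw [one_mul]; exact hf x, hf, hf2⟩

/-- An isometric action of an additive commutative group. -/
structure IsAct {Γ : Type*} [AddCommGroup Γ] (U : Γ → (H ≃ₗᵢ[ℝ] H)) : Prop where
  add : ∀ a b x, U (a + b) x = U a (U b x)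
  zero : ∀ x, U 0 x = x

/-- All matrix coefficients `⟨U g x, y⟩` are integers. -/
def IQ {Γ : Type*} (U : Γ → (H ≃ₗᵢ[ℝ] H)) (x y : H) : Prop :=
  ∀ g, ∃ n : ℤ, ⟪U g x, y⟫_ℝ = n

variable {Γ : Type*} [AddCommGroup Γ] {U : Γ → (H ≃ₗᵢ[ℝ] H)}

theorem IsAct.inner_left (hU : IsAct U) (g : Γ) (x y : H) : ⟪U g x, y⟫_ℝ = ⟪x, U (-g) y⟫_ℝ := by
  have h1 : U g (U (-g) y) = y := by rw [← hU.add, add_neg_cancel, hU.zero]
  conv_lhs => rw [← h1]
  rw [LinearIsometryEquiv.inner_map_map]

theorem IsAct.comm (hU : IsAct U) (g h : Γ) (x : H) : U g (U h x) = U h (U g x) := by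
  rw [← hU.add, add_comm, hU.add]

theorem IQ.symm (hU : IsAct U) {x y : H} (h : IQ U x y) : IQ U y x := by
  intro g
  obtain ⟨n, hn⟩ := h (-g)
  exact ⟨n, by rw [hU.inner_left, real_inner_comm, hn]⟩

omit [AddCommGroup Γ] in
theorem IQ.add {x y z : H} (h : IQ U x z) (h' : IQ U y z) : IQ U (x + y) z := by
  intro g
  obtain ⟨n, hn⟩ := h g
  obtain ⟨n', hn'⟩ := h' g
  exact ⟨n + n', by rw [map_add, inner_add_left, hn, hn']; push_cast; ring⟩

omit [AddCommGroup Γ] in
theorem IQ.sub {x y z : H} (h : IQ U x z) (h' : IQ U y z) : IQ U (x - y) z := by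
  intro g
  obtain ⟨n, hn⟩ := h g
  obtain ⟨n', hn'⟩ := h' g
  exact ⟨n - n', by rw [map_sub, inner_sub_left, hn, hn']; push_cast; ring⟩

theorem IQ.norm_sq (hU : IsAct U) {x : H} (h : IQ U x x) : ∃ n : ℕ, ‖x‖ ^ 2 = n := by
  obtain ⟨n, hn⟩ := h 0
  rw [hU.zero, real_inner_self_eq_norm_sq] at hn
  have h1 : (0 : ℝ) ≤ n := by rw [← hn]; positivity
  have h2 : 0 ≤ n := by exact_mod_cast h1
  refine ⟨n.toNat, ?_⟩
  rw [hn]
  have h3 : ((n.toNat : ℕ) : ℤ) = n := Int.toNat_of_nonneg h2
  exact_mod_cast h3.symm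

/-- The splitting lemma: a vector with integral matrix coefficients whose support is not contained in
finitely many cosets of its stabiliser is the sum of two nonzero vectors with integral matrix
coefficients which generate orthogonal subrepresentations. -/
theorem split_of_support [CompleteSpace H] (hU : IsAct U) {v : H} (h : IQ U v v)
    (hns : ∀ s : Finset Γ, ∃ y, ⟪U y v, v⟫_ℝ ≠ 0 ∧ ∀ a ∈ s, U (y - a) v ≠ v) :
    ∃ e f : H, v = e + f ∧ e ≠ 0 ∧ f ≠ 0 ∧ (∀ g, ⟪U g e, f⟫_ℝ = 0) ∧ IQ U e e ∧ IQ U f f := by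
  classical
  obtain ⟨y, hy1, hy2⟩ := exists_seq_of_forall_finset_exists (fun y : Γ => ⟪U y v, v⟫_ℝ ≠ 0)
    (fun a y => U (y - a) v ≠ v) (fun s _ => hns s)
  have hne : ∀ m n, m ≠ n → U (y m) v ≠ U (y n) v := by
    have key : ∀ m n, m < n → U (y m) v ≠ U (y n) v := by
      intro m n hmn heq
      refine hy2 m n hmn ?_
      have h1 : U (-(y m)) (U (y n) v) = U (-(y m)) (U (y m) v) := by rw [heq]
      rw [← hU.add, ← hU.add, neg_add_cancel, hU.zero, neg_add_eq_sub] at h1
      exact h1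
    intro m n hmn
    rcases lt_or_gt_of_ne hmn with h1 | h1
    · exact key m n h1
    · exact (key n m h1).symm
  set V : Ultrafilter ℕ := Filter.hyperfilter ℕ with hV
  have hVinf : ∀ P : ℕ → Prop, (∀ᶠ n in (V : Filter ℕ), P n) → {n | P n}.Infinite := by
    intro P hP hfin
    have h3 : ∀ᶠ n in (V : Filter ℕ), ¬ P n := (hyperfilter_le_cofinite (α := ℕ)) (by
      rw [mem_cofinite]
      exact hfin.subset fun x hx => by
        by_contra hxS
        exact hx hxS)
    obtain ⟨n, hn1, hn2⟩ := (hP.and h3).exists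
    exact hn2 hn1
  obtain ⟨A, hA1, hA⟩ := exists_weak_operator V (fun n => (U (y n)).toLinearEquiv.toLinearMap)
    (fun n x => ((U (y n)).norm_map x).le)
  have hA : ∀ x z, Tendsto (fun n => ⟪U (y n) x, z⟫_ℝ) V (𝓝 ⟪A x, z⟫_ℝ) := hA
  have hAc : ∀ (g : Γ) (x : H), A (U g x) = U g (A x) := by
    intro g x
    refine ext_inner_right ℝ fun z => ?_
    rw [hU.inner_left g (A x) z]
    refine tendsto_nhds_unique (hA (U g x) z) ?_
    refine (hA x (U (-g) z)).congr fun n => ?_
    rw [← hU.inner_left, hU.comm]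
  have hIA : ∀ x z, IQ U x z → IQ U (A x) z := by
    intro x z hxz g
    rw [← hAc]
    refine int_of_tendsto (fun n => ?_) (hA (U g x) z)
    obtain ⟨k, hk⟩ := hxz (y n + g)
    exact ⟨k, by rw [← hU.add, hk]⟩
  set P : H →L[ℝ] H := (ContinuousLinearMap.adjoint A).comp A with hP
  have hPin : ∀ x z, ⟪P x, z⟫_ℝ = ⟪A x, A z⟫_ℝ := by
    intro x z
    rw [hP, ContinuousLinearMap.comp_apply, ContinuousLinearMap.adjoint_inner_left]
  have hPin' : ∀ x z, ⟪x, P z⟫_ℝ = ⟪A x, A z⟫_ℝ := by
    intro x z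
    rw [real_inner_comm, hPin, real_inner_comm]
  have hPc : ∀ (g : Γ) (x : H), P (U g x) = U g (P x) := by
    intro g x
    refine ext_inner_right ℝ fun z => ?_
    rw [hPin, hAc, hU.inner_left, ← hAc, ← hPin, ← hU.inner_left]
  have hIP : ∀ x z, IQ U x z → IQ U (P x) z := by
    intro x z hxz g
    rw [← hPc, hPin, hAc]
    exact (hIA x (A z) ((hIA z x (hxz.symm hU)).symm hU)) g
  have hPn : ∀ x, ‖P x‖ ≤ ‖A x‖ := by
    intro x
    have h1 : ‖P x‖ ^ 2 ≤ ‖A x‖ * ‖P x‖ := by
      rw [← real_inner_self_eq_norm_sq, hPin]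
      calc ⟪A x, A (P x)⟫_ℝ ≤ ‖A x‖ * ‖A (P x)‖ := real_inner_le_norm _ _
        _ ≤ ‖A x‖ * ‖P x‖ := mul_le_mul_of_nonneg_left (hA1 _) (norm_nonneg _)
    by_contra hcon
    push Not at hcon
    nlinarith [norm_nonneg (A x), norm_nonneg (P x)]
  -- the iterates
  set x : ℕ → H := fun n => (P^[n]) v with hx
  have hx0 : x 0 = v := rfl
  have hxs : ∀ n, x (n + 1) = P (x n) := fun n => Function.iterate_succ_apply' P n v
  have hIx : ∀ n m, IQ U (x n) (x m) := by
    have h1 : ∀ n, IQ U (x n) v := by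
      intro n
      induction n with
      | zero => exact h
      | succ n ih => rw [hxs]; exact hIP _ _ ih
    intro n m
    induction m with
    | zero => exact h1 n
    | succ m ih =>
      rw [hxs]
      exact (hIP _ _ (ih.symm hU)).symm hU
  have hAv : A v ≠ 0 := by
    intro h0
    have h1 := hA v v
    rw [h0, inner_zero_left] at h1
    have h2 := eventually_eq_of_tendsto (n := 0) (fun n => h (y n)) (by simpa using h1)
    obtain ⟨n, hn⟩ := h2.exists
    exact hy1 n (by simpa using hn)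
  have hxne : ∀ n, x n ≠ 0 ∧ A (x n) ≠ 0 := by
    intro n
    induction n with
    | zero => exact ⟨fun h0 => hAv (by rw [← hx0, h0, map_zero]), hAv⟩
    | succ n ih =>
      have h1 : x (n + 1) ≠ 0 := by
        intro h0
        refine ih.2 ?_
        have h2 : ‖A (x n)‖ ^ 2 = 0 := by
          rw [← real_inner_self_eq_norm_sq, ← hPin, ← hxs, h0, inner_zero_left]
        rwa [sq_eq_zero_iff, norm_eq_zero] at h2
      refine ⟨h1, fun h0 => h1 ?_⟩
      have h2 : ‖x (n + 1)‖ ^ 2 = 0 := by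
        rw [← real_inner_self_eq_norm_sq]
        conv_lhs => rw [hxs n]
        rw [hPin, ← hxs, h0, inner_zero_right]
      rwa [sq_eq_zero_iff, norm_eq_zero] at h2
  -- a fixed vector of P
  obtain ⟨n₀, hn₀⟩ : ∃ n, P (x n) = x n := by
    choose a ha using fun n => (hIx n n).norm_sq hU
    have hle : ∀ n, a (n + 1) ≤ a n := by
      intro n
      have h1 : ‖x (n + 1)‖ ^ 2 ≤ ‖x n‖ ^ 2 := by
        rw [hxs]
        exact pow_le_pow_left₀ (norm_nonneg _) ((hPn _).trans (hA1 _)) 2
      rw [ha, ha] at h1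
      exact_mod_cast h1
    obtain ⟨n, hn⟩ : ∃ n, a (n + 1) = a n := by
      by_contra hcon
      push Not at hcon
      have h1 : ∀ n, a n + n ≤ a 0 := by
        intro n
        induction n with
        | zero => simp
        | succ n ih =>
          have := hle n
          have := hcon n
          omega
      have := h1 (a 0 + 1)
      omega
    refine ⟨n, ?_⟩
    have h1 : ‖P (x n)‖ ^ 2 = ‖x n‖ ^ 2 := by rw [← hxs, ha, ha, hn]
    have h2 : ‖A (x n)‖ ^ 2 = ‖x n‖ ^ 2 := by
      refine le_antisymm (pow_le_pow_left₀ (norm_nonneg _) (hA1 _) 2) ?_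
      rw [← h1]
      exact pow_le_pow_left₀ (norm_nonneg _) (hPn _) 2
    have h3 : ‖P (x n) - x n‖ ^ 2 = 0 := by
      rw [norm_sub_sq_real, hPin, real_inner_self_eq_norm_sq, h1, h2]
      ring
    rw [sq_eq_zero_iff, norm_eq_zero, sub_eq_zero] at h3
    exact h3
  have hfix : ∀ n, (P^[n]) (x n₀) = x n₀ := by
    intro n
    induction n with
    | zero => rfl
    | succ n ih => rw [Function.iterate_succ_apply', ih, hn₀]
  have hiter : ∀ (n : ℕ) (g : Γ) (z w : H), ⟪U g ((P^[n]) z), w⟫_ℝ = ⟪U g z, (P^[n]) w⟫_ℝ := by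
    intro n
    induction n with
    | zero => intro g z w; rfl
    | succ n ih =>
      intro g z w
      rw [Function.iterate_succ_apply', ← hPc, hPin, ← hPin', ih, ← Function.iterate_succ_apply]
  refine ⟨x n₀, v - x n₀, (add_sub_cancel _ _).symm, (hxne n₀).1, ?_, ?_, hIx n₀ n₀, ?_⟩
  · intro h0
    have h1 : x n₀ = v := (sub_eq_zero.1 h0).symm
    have hPv : P v = v := by rw [← h1]; exact hn₀
    have hAvn : ⟪A v, A v⟫_ℝ = ‖v‖ ^ 2 := by rw [← hPin, hPv, real_inner_self_eq_norm_sq]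
    obtain ⟨k, hk⟩ := h.norm_sq hU
    have h2 := hA v (A v)
    rw [hAvn, hk] at h2
    have h3 := eventually_eq_of_tendsto (n := (k : ℤ)) (fun n => ((hIA v v h).symm hU) (y n))
      (by simpa using h2)
    have h4 : ∀ᶠ n in (V : Filter ℕ), U (y n) v = A v := by
      filter_upwards [h3] with n hn
      have h5 : ‖U (y n) v - A v‖ ^ 2 = 0 := by
        rw [norm_sub_sq_real, LinearIsometryEquiv.norm_map, hn, ← real_inner_self_eq_norm_sq (A v),
          hAvn, hk]
        push_cast
        ring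
      rwa [sq_eq_zero_iff, norm_eq_zero, sub_eq_zero] at h5
    obtain ⟨m, hm, n, hn, hmn⟩ := (hVinf _ h4).nontrivial
    exact hne m n hmn (by
      rw [show U (y m) v = A v from hm, show U (y n) v = A v from hn])
  · intro g
    have h1 : (P^[n₀]) (v - x n₀) = 0 := by
      have h2 : ∀ (n : ℕ) (z w : H), (P^[n]) (z - w) = (P^[n]) z - (P^[n]) w := by
        intro n
        induction n with
        | zero => intro z w; rfl
        | succ n ih =>
          intro z w
          rw [Function.iterate_succ_apply', Function.iterate_succ_apply', Function.iterate_succ_apply',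
            ih, map_sub]
      rw [h2, hfix]
      exact sub_self _
    show ⟪U g ((P^[n₀]) v), v - x n₀⟫_ℝ = 0
    rw [hiter, h1, inner_zero_right]
  · have h1 : IQ U (v - x n₀) v := h.sub (hIx n₀ 0)
    have h2 : IQ U (v - x n₀) (x n₀) := (hIx 0 n₀).sub (hIx n₀ n₀)
    exact ((h1.symm hU).sub (h2.symm hU)).symm hU

end Pool.Agent.EEAG1
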