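import Mathlib

/-!
# Positive definite functions on commutative groups are matrix coefficients (MP_eea520_nt)
-/

set_option autoImplicit false

namespace Pool.Agent.EEAG1

open Filter Topology
open scoped InnerProductSpace

universe u

/-- Symmetric positive semidefinite functions on an additive commutative group. -/
structure PosDefG {G : Type u} [AddCommGroup G] (c : G → ℝ) : Prop where
  symm : ∀ k, c (-k) = c k
  nonneg : ∀ x : G →₀ ℝ, 0 ≤ x.sum fun i a => x.sum fun j b => a * b * c (i - j)

variable {G : Type u} [AddCommGroup G]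

/-- The semi inner product. -/
@[reducible] noncomputable def coreG (c : G → ℝ) (hc : PosDefG c) :
    PreInnerProductSpace.Core ℝ (G →₀ ℝ) where
  inner x y := x.sum fun i a => y.sum fun j b => a * b * c (i - j)
  conj_inner_symm x y := by
    rw [conj_trivial, Finsupp.sum_comm]
    refine Finsupp.sum_congr fun i _ => Finsupp.sum_congr fun j _ => ?_
    rw [← hc.symm, neg_sub]
    ring
  re_inner_nonneg x := hc.nonneg x
  add_left x y z := by
    rw [Finsupp.sum_add_index'] <;> simp [← Finsupp.sum_add, add_mul]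
  smul_left x y r := by
    rw [Finsupp.sum_smul_index] <;> simp [Finsupp.mul_sum, ← mul_assoc]

/-- The Hilbert space of a positive definite function, with the translations. -/
theorem exists_gnsG {c : G → ℝ} (hc : PosDefG c) : ∃ (H : Type u) (_ : NormedAddCommGroup H)
    (_ : InnerProductSpace ℝ H) (_ : CompleteSpace H) (U : G → (H ≃ₗᵢ[ℝ] H)) (v : H),
    (∀ a b : G, ∀ x, U (a + b) x = U a (U b x)) ∧ (∀ x, U 0 x = x) ∧
      ∀ g : G, ⟪U g v, v⟫_ℝ = c g := by
  classical
  let _ : PreInnerProductSpace.Core ℝ (G →₀ ℝ) := coreG c hc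
  let _ : SeminormedAddCommGroup (G →₀ ℝ) :=
    InnerProductSpace.Core.toSeminormedAddCommGroup (𝕜 := ℝ)
  let _ : InnerProductSpace ℝ (G →₀ ℝ) := .ofCore _
  have hin : ∀ x y : G →₀ ℝ, ⟪x, y⟫_ℝ = x.sum fun i a => y.sum fun j b => a * b * c (i - j) :=
    fun x y => rfl
  let f : G → ((G →₀ ℝ) ≃ₗ[ℝ] (G →₀ ℝ)) := fun g => Finsupp.domLCongr (Equiv.addLeft g)
  have hfs : ∀ (g k : G) (a : ℝ), f g (Finsupp.single k a) = Finsupp.single (g + k) a := by
    intro g k a
    simp [f]
  have hfinner : ∀ (g : G) (x : G →₀ ℝ), ⟪f g x, f g x⟫_ℝ = ⟪x, x⟫_ℝ := by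
    intro g x
    rw [hin, hin]
    have h1 : f g x = x.equivMapDomain (Equiv.addLeft g) := rfl
    rw [h1, Finsupp.sum_equivMapDomain]
    refine Finsupp.sum_congr fun i _ => ?_
    rw [Finsupp.sum_equivMapDomain]
    refine Finsupp.sum_congr fun j _ => ?_
    rw [Equiv.coe_addLeft, add_sub_add_left_eq_sub]
  have hfn : ∀ (g : G) (x : G →₀ ℝ), ‖f g x‖ = ‖x‖ := by
    intro g x
    rw [norm_eq_sqrt_real_inner, norm_eq_sqrt_real_inner, hfinner]
  have hfadd : ∀ (g h : G) (x : G →₀ ℝ), f (g + h) x = f g (f h x) := by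
    intro g h x
    induction x using Finsupp.induction_linear with
    | zero => rw [map_zero, map_zero, map_zero]
    | add x y hx hy => rw [map_add, map_add, map_add, hx, hy]
    | single k a => rw [hfs, hfs, hfs, add_assoc]
  have hf0 : ∀ x : G →₀ ℝ, f 0 x = x := by
    intro x
    induction x using Finsupp.induction_linear with
    | zero => rw [map_zero]
    | add x y hx hy => rw [map_add, hx, hy]
    | single k a => rw [hfs, zero_add]
  let e : (G →₀ ℝ) →ₗ[ℝ] UniformSpace.Completion (G →₀ ℝ) :=
    (UniformSpace.Completion.toComplₗᵢ (𝕜 := ℝ) (E := G →₀ ℝ)).toLinearMap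
  have he : ∀ x, e x = (x : UniformSpace.Completion (G →₀ ℝ)) := fun x => rfl
  have hd : DenseRange e := UniformSpace.Completion.denseRange_coe
  let U : G → (UniformSpace.Completion (G →₀ ℝ) ≃ₗᵢ[ℝ] UniformSpace.Completion (G →₀ ℝ)) :=
    fun g => (f g).extendOfIsometry e e hd hd (fun x => by
      rw [he, he, UniformSpace.Completion.norm_coe, UniformSpace.Completion.norm_coe, hfn])
  have hU : ∀ g x, U g (e x) = e (f g x) := fun g x =>
    LinearEquiv.extendOfIsometry_eq (f g) e e hd hd _ x
  refine ⟨UniformSpace.Completion (G →₀ ℝ), inferInstance, inferInstance, inferInstance, U,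
    e (Finsupp.single 0 1), fun a b x => ?_, fun x => ?_, fun g => ?_⟩
  · refine hd.induction_on (p := fun x => U (a + b) x = U a (U b x)) x ?_ fun y => ?_
    · exact isClosed_eq (U (a + b)).continuous ((U a).continuous.comp (U b).continuous)
    · rw [hU, hU, hU, hfadd]
  · refine hd.induction_on (p := fun x => U 0 x = x) x ?_ fun y => ?_
    · exact isClosed_eq (U 0).continuous continuous_id
    · rw [hU, hf0]
  · rw [hU, hfs, add_zero, he, he, UniformSpace.Completion.inner_coe, hin]
    simp

end Pool.Agent.EEAG1
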