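import Pool.Agent.W_eea520_g1.C7
import Pool.Agent.W_eea520_g1.K2

/-!
# Integer valued positive definite functions on commutative groups (MP_eea520_nt)
-/

set_option autoImplicit false

namespace Pool.Agent.EEAG1

open Filter Topology
open scoped InnerProductSpace

universe u

/-- The function `d` is periodic under a subgroup and vanishes outside finitely many of its cosets. -/
def IsCoset {Γ : Type u} [AddCommGroup Γ] (d : Γ → ℤ) : Prop :=
  ∃ Λ : AddSubgroup Γ, (∀ g, ∀ h ∈ Λ, d (g + h) = d g) ∧
    ∃ s : Finset Γ, ∀ g, d g ≠ 0 → ∃ a ∈ s, g - a ∈ Λ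

section

variable {H : Type*} [NormedAddCommGroup H] [InnerProductSpace ℝ H]
variable {Γ : Type u} [AddCommGroup Γ] {U : Γ → (H ≃ₗᵢ[ℝ] H)}

/-- Matrix coefficients are positive definite. -/
theorem posDefG_of_act (hU : IsAct U) (v : H) : PosDefG fun g => ⟪U g v, v⟫_ℝ := by
  refine ⟨fun k => by rw [hU.inner_left, neg_neg, real_inner_comm], fun x => ?_⟩
  have h1 : (x.sum fun i a => x.sum fun j b => a * b * ⟪U (i - j) v, v⟫_ℝ) =
      ⟪x.sum fun i a => a • U i v, x.sum fun j b => b • U j v⟫_ℝ := by
    simp only [Finsupp.sum]
    rw [sum_inner]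
    refine Finset.sum_congr rfl fun i _ => ?_
    rw [inner_sum]
    refine Finset.sum_congr rfl fun j _ => ?_
    rw [real_inner_smul_left, real_inner_smul_right]
    have h2 : ⟪U (i - j) v, v⟫_ℝ = ⟪U i v, U j v⟫_ℝ := by
      have h3 : U i v = U j (U (i - j) v) := by
        rw [← hU.add, add_sub_cancel]
      rw [h3, LinearIsometryEquiv.inner_map_map]
    rw [h2]
    ring
  rw [h1, real_inner_self_eq_norm_sq]
  positivity

/-- The decomposition. -/
theorem decomposition [CompleteSpace H] (hU : IsAct U) (n : ℕ) : ∀ v : H, ‖v‖ ^ 2 = n → IQ U v v →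
    ∃ L : List (Γ → ℤ), (∀ d ∈ L, PosDefG (fun g => (d g : ℝ)) ∧ IsCoset d) ∧
      ∀ g, ⟪U g v, v⟫_ℝ = (((L.map fun d => d g).sum : ℤ) : ℝ) := by
  classical
  induction n using Nat.strong_induction_on with
  | _ n ih =>
    intro v hv h
    by_cases hs : ∃ s : Finset Γ, ∀ y, ⟪U y v, v⟫_ℝ ≠ 0 → ∃ a ∈ s, U (y - a) v = v
    · obtain ⟨s, hs⟩ := hs
      choose d hd using h
      refine ⟨[d], ?_, fun g => by simp [hd]⟩
      intro d' hd'
      rw [List.mem_singleton] at hd'
      subst hd'
      refine ⟨?_, ?_⟩
      · have h1 := posDefG_of_act hU v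
        simpa only [hd] using h1
      · refine ⟨{ carrier := {g | U g v = v}
                  add_mem' := fun {a b} ha hb => by
                    show U (a + b) v = v
                    rw [hU.add, show U b v = v from hb, show U a v = v from ha]
                  zero_mem' := hU.zero v
                  neg_mem' := fun {a} ha => by
                    show U (-a) v = v
                    conv_lhs => rw [← show U a v = v from ha]
                    rw [← hU.add, neg_add_cancel, hU.zero] }, ?_, s, ?_⟩
        · intro g k hk
          have h1 := hd (g + k)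
          rw [hU.add, show U k v = v from hk, hd g] at h1
          exact_mod_cast h1.symm
        · intro g hg
          refine hs g ?_
          rw [hd]
          exact_mod_cast hg
    · push Not at hs
      obtain ⟨e, f, hef, he0, hf0, hort, hIe, hIf⟩ := split_of_support hU h hs
      obtain ⟨a, ha⟩ := hIe.norm_sq hU
      obtain ⟨b, hb⟩ := hIf.norm_sq hU
      have hef0 : ⟪e, f⟫_ℝ = 0 := by
        have := hort 0
        rwa [hU.zero] at this
      have hsum : (n : ℝ) = a + b := by
        rw [← hv, hef, norm_add_sq_real, hef0, ha, hb]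
        ring
      have hab : n = a + b := by exact_mod_cast hsum
      have ha0 : 0 < a := by
        have h1 : 0 < ‖e‖ ^ 2 := by positivity
        rw [ha] at h1
        exact_mod_cast h1
      have hb0 : 0 < b := by
        have h1 : 0 < ‖f‖ ^ 2 := by positivity
        rw [hb] at h1
        exact_mod_cast h1
      obtain ⟨L₁, h1, h1'⟩ := ih a (by omega) e ha hIe
      obtain ⟨L₂, h2, h2'⟩ := ih b (by omega) f hb hIf
      refine ⟨L₁ ++ L₂, ?_, fun g => ?_⟩
      · intro d hd
        rcases List.mem_append.1 hd with hd | hd
        · exact h1 d hd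
        · exact h2 d hd
      · have h3 : ⟪U g f, e⟫_ℝ = 0 := by
          rw [hU.inner_left, real_inner_comm, hort]
        rw [hef, map_add, inner_add_left, inner_add_right, inner_add_right, hort, h3, h1', h2',
          List.map_append, List.sum_append]
        push_cast
        ring

end

/-- **Structure of integer valued positive definite functions.** Every integer valued positive
definite function on a commutative group is a sum of finitely many such functions each of which is
periodic under a subgroup and vanishes outside finitely many cosets of it. (In the language of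
measures on the compact dual group this is the case of positive measures of the theorem of Helson, Rudin
and Cohen.) -/
theorem structure_posDefG {Γ : Type u} [AddCommGroup Γ] {c : Γ → ℤ}
    (hc : PosDefG fun g => (c g : ℝ)) :
    ∃ L : List (Γ → ℤ), (∀ d ∈ L, PosDefG (fun g => (d g : ℝ)) ∧ IsCoset d) ∧
      ∀ g, c g = (L.map fun d => d g).sum := by
  obtain ⟨H, i1, i2, i3, U, v, hadd, h0, hv⟩ := exists_gnsG hc
  have hU : IsAct U := ⟨hadd, h0⟩
  have hI : IQ U v v := fun g => ⟨c g, hv g⟩
  obtain ⟨n, hn⟩ := hI.norm_sq hU
  obtain ⟨L, hL, hL2⟩ := decomposition hU n v hn hI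
  refine ⟨L, hL, fun g => ?_⟩
  have h1 := hL2 g
  rw [hv] at h1
  exact_mod_cast h1

end Pool.Agent.EEAG1
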