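import Mathlib

/-!
# Symmetric power `L`-functions at `s = 1`, limit laws (MP_eea520_nt, theorem G1)
-/

set_option autoImplicit false

namespace Pool.Agent.EEAG1

open Filter Topology

/-- The factor `det (1 - Sym^k(A) q)⁻¹` for the Satake class `A = diag(a, a⁻¹)` in `SL₂(ℂ)`. -/
noncomputable def symFactor (a : ℂ) (k : ℕ) (q : ℂ) : ℂ :=
  ∏ j ∈ Finset.range (k + 1), (1 - a ^ ((k : ℤ) - 2 * j) * q)⁻¹

/-- The Euler product `L(s, Sym^k)` of the system of Satake classes `diag(a_p, a_p⁻¹)`, for real `s > 1`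
near `1`, is the restriction of `g`. -/
def IsSymL (a : Nat.Primes → ℂ) (k : ℕ) (g : ℂ → ℂ) : Prop :=
  ∀ᶠ s : ℝ in 𝓝[>] 1,
    HasProd (fun p : Nat.Primes => symFactor (a p) k (((p : ℕ) : ℂ) ^ (-(s : ℂ)))) (g s)

/-- `L(s, Sym^k)` is meromorphic at the point `s = 1` and has there the order `n` (a zero of order `n`
if `n > 0`, a pole of order `-n` if `n < 0`). -/
def HasOrder (a : Nat.Primes → ℂ) (k : ℕ) (n : ℤ) : Prop :=
  ∃ g : ℂ → ℂ, MeromorphicAt g 1 ∧ meromorphicOrderAt g 1 = n ∧ IsSymL a k g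

/-- The traces `a_p + a_p⁻¹ = 2 Re a_p` (for `|a_p| = 1`) are distributed, in the sense of the Dirichlet
density of sets of primes, according to the probability measure on `[-2, 2]` with the integral
`f ↦ Λ f`. -/
def HasLaw (a : Nat.Primes → ℂ) (Λ : (ℝ → ℝ) → ℝ) : Prop :=
  ∀ f : ℝ → ℝ, ContinuousOn f (Set.Icc (-2) 2) →
    Tendsto (fun s : ℝ => (∑' p : Nat.Primes, f (2 * (a p).re) * ((p : ℕ) : ℝ) ^ (-s)) /
      ∑' p : Nat.Primes, ((p : ℕ) : ℝ) ^ (-s)) (𝓝[>] 1) (𝓝 (Λ f))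

/-- The law of Sato and Tate, the law of the traces of the conjugacy classes of `SU(2)`. -/
noncomputable def satoTate (f : ℝ → ℝ) : ℝ :=
  2 / Real.pi * ∫ θ in (0 : ℝ)..Real.pi, f (2 * Real.cos θ) * Real.sin θ ^ 2

/-- The law of forms with complex multiplication, the law of the traces of the conjugacy classes of the
normaliser of a torus of `SU(2)`. -/
noncomputable def cmLaw (f : ℝ → ℝ) : ℝ :=
  f 0 / 2 + 1 / (2 * Real.pi) * ∫ θ in (0 : ℝ)..Real.pi, f (2 * Real.cos θ)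

end Pool.Agent.EEAG1
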