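import Pool.Agent.W_eea520_g1.A5
import Pool.Agent.W_eea520_g1.A6
import Pool.Agent.W_eea520_g1.A7
import Pool.Agent.W_eea520_g1.C5

/-!
# The theorem (MP_eea520_nt, theorem G1)
-/

set_option autoImplicit false

namespace Pool.Agent.EEAG1

open Filter Topology MeasureTheory

theorem main1 (a : Nat.Primes → ℂ) (ha : ∀ p, ‖a p‖ = 1)
    (hm : ∀ k, 3 ≤ k → ∃ g : ℂ → ℂ, MeromorphicAt g 1 ∧ IsSymL a k g)
    (h1 : HasOrder a 1 0) (h2 : HasOrder a 2 0) :
    (HasLaw a satoTate ∧ ∀ k, 1 ≤ k → HasOrder a k 0) ∨
    (HasLaw a cmLaw ∧ ∀ k, 1 ≤ k → HasOrder a k (if 4 ∣ k then -1 else 0)) ∨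
    ∃ (r : ℕ) (w : Fin r → ℝ), (∀ j, 0 ≤ w j) ∧ ∑ j, w j = 1 ∧
      HasLaw a fun f => ∑ j, w j * f (2 * Real.cos (2 * Real.pi * j / r)) := by
  classical
  have hex : ∀ k, ∃ n : ℤ, (1 ≤ k → HasOrder a k n) ∧ (k = 1 ∨ k = 2 → n = 0) := by
    intro k
    by_cases hk : 3 ≤ k
    · obtain ⟨g, hg, hg2⟩ := hm k hk
      obtain ⟨n, hn⟩ := exists_order ha hg hg2
      exact ⟨n, fun _ => hn, fun h => by omega⟩
    · refine ⟨0, fun hk1 => ?_, fun _ => rfl⟩
      have : k = 1 ∨ k = 2 := by omega
      rcases this with rfl | rfl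
      · exact h1
      · exact h2
  choose n hn hn0 using hex
  have hn1 : n 1 = 0 := hn0 1 (Or.inl rfl)
  have hn2 : n 2 = 0 := hn0 2 (Or.inr rfl)
  obtain ⟨c, hc⟩ : ∃ c : ℤ → ℝ, ∀ k, c k = (cN n k.natAbs : ℝ) := ⟨_, fun _ => rfl⟩
  have hmean : ∀ k : ℤ, Mean a (fun z => 2 * (z ^ k).re) (c k) := by
    intro k
    rw [hc]
    exact mean_re ha hn k
  have hpd : PosDef c := posDef_of_mean ha hmean
  have hc0 : c 0 = 2 := by
    rw [hc]
    simp [cN]
  have hc1 : c 1 = 0 := by
    rw [hc]
    simp [cN, hn1]
  have hc2 : c 2 = -1 := by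
    rw [hc]
    simp [cN, hn2]
  have hc3 : ∀ k : ℕ, (n (k + 3) : ℝ) = n (k + 1) - c ((k : ℤ) + 3) := by
    intro k
    have h3 : ((k : ℤ) + 3).natAbs = k + 3 := by omega
    rw [hc, h3]
    simp [cN]
  rcases trichotomy hpd hc0 (fun k => ⟨_, hc k⟩) hc1 hc2 with h | ⟨he, ho⟩ | ⟨r, hr, hper⟩
  · left
    refine ⟨?_, ?_⟩
    · obtain ⟨μ, hμ, hμ1, hμ2⟩ := exists_st
      have h4 := law_of_moments ha hmean μ (fun k => by rw [hμ2, h])
      intro f hf
      have h5 := h4 f hf
      simp only [hμ1] at h5
      exact h5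
    · have h4 : ∀ k, 1 ≤ k → n k = 0 := by
        intro k
        induction k using Nat.strong_induction_on with
        | _ k ih =>
          intro hk
          rcases Nat.lt_or_ge k 3 with h3 | h3
          · exact hn0 k (by omega)
          · obtain ⟨j, rfl⟩ := Nat.exists_eq_add_of_le' h3
            have h5 := hc3 j
            rw [ih (j + 1) (by omega) (by omega), h, if_neg (by omega), if_neg (by omega)] at h5
            exact_mod_cast h5
      intro k hk
      have h5 := hn k hk
      rwa [h4 k hk] at h5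
  · right
    left
    refine ⟨?_, ?_⟩
    · obtain ⟨μ, hμ, hμ1, hμ2, hμ3⟩ := exists_cm
      have h4 := law_of_moments ha hmean μ (fun k => by
        rcases Int.even_or_odd' k with ⟨j, rfl | rfl⟩
        · rw [hμ2, he]
        · rw [hμ3, ho])
      intro f hf
      have h5 := h4 f hf
      rw [← hμ1 f hf]
      exact h5
    · have h4 : ∀ k, 1 ≤ k → n k = if 4 ∣ k then -1 else 0 := by
        intro k
        induction k using Nat.strong_induction_on with
        | _ k ih =>
          intro hk
          rcases Nat.lt_or_ge k 3 with h3 | h3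
          · rw [if_neg (by omega)]
            exact hn0 k (by omega)
          · obtain ⟨j, rfl⟩ := Nat.exists_eq_add_of_le' h3
            have h5 := hc3 j
            rw [ih (j + 1) (by omega) (by omega)] at h5
            rcases Nat.even_or_odd' j with ⟨i, rfl | rfl⟩
            · have h6 := ho (i + 1)
              rw [show (2 * ((i : ℤ) + 1) + 1) = ((2 * i : ℕ) : ℤ) + 3 by push_cast; ring] at h6
              rw [h6, if_neg (by omega)] at h5
              rw [if_neg (by omega)]
              have h7 : (n (2 * i + 3) : ℝ) = 0 := by rw [h5]; norm_num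
              exact_mod_cast h7
            · have h6 := he (i + 2)
              rw [show (2 * ((i : ℤ) + 2)) = ((2 * i + 1 : ℕ) : ℤ) + 3 by push_cast; ring,
                if_neg (by omega), zero_add, show ((i : ℤ) + 2).natAbs = i + 2 by omega,
                pow_add] at h6
              rw [h6] at h5
              rcases Nat.even_or_odd' i with ⟨l, rfl | rfl⟩
              · rw [if_neg (by omega)] at h5
                rw [if_pos (by omega)]
                have h7 : (n (2 * (2 * l) + 1 + 3) : ℝ) = ((-1 : ℤ) : ℝ) := by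
                  rw [h5, pow_mul]
                  norm_num
                exact_mod_cast h7
              · rw [if_pos (by omega)] at h5
                rw [if_neg (by omega)]
                have h7 : (n (2 * (2 * l + 1) + 1 + 3) : ℝ) = 0 := by
                  rw [h5, pow_succ, pow_mul]
                  norm_num
                exact_mod_cast h7
      intro k hk
      have h5 := hn k hk
      rwa [h4 k hk] at h5
  · right
    right
    obtain ⟨w, hw0, hw⟩ := exists_weights hpd hr hper
    obtain ⟨μ, hμ, hμ1⟩ := exists_fin w hw0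
    refine ⟨r, w, hw0, ?_, ?_⟩
    · have h3 := hw 0
      rw [hc0] at h3
      simp only [Int.cast_zero, zero_mul, Real.cos_zero, mul_one] at h3
      rw [← Finset.sum_mul] at h3
      linarith
    · have h4 := law_of_moments ha hmean μ (fun k => by rw [hμ1]; exact hw k)
      intro f hf
      have h5 := h4 f hf
      simp only [hμ1] at h5
      exact h5

end Pool.Agent.EEAG1
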