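import Pool.Agent.W_eea520_g1.Defs

/-!
# Mean values over the primes (MP_eea520_nt, theorem G1)
-/

set_option autoImplicit false

namespace Pool.Agent.EEAG1

open Filter Topology

/-- The sum over the primes. -/
noncomputable def psum (a : Nat.Primes → ℂ) (F : ℂ → ℝ) (s : ℝ) : ℝ :=
  ∑' p : Nat.Primes, F (a p) * ((p : ℕ) : ℝ) ^ (-s)

/-- The sum of the `p ^ (-s)`. -/
noncomputable def pz (s : ℝ) : ℝ := ∑' p : Nat.Primes, ((p : ℕ) : ℝ) ^ (-s)

/-- `L` is the mean value of the numbers `F (a_p)`. -/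
def Mean (a : Nat.Primes → ℂ) (F : ℂ → ℝ) (L : ℝ) : Prop :=
  Tendsto (fun s : ℝ => psum a F s / pz s) (𝓝[>] 1) (𝓝 L)

/-- `F` is bounded on the unit circle. -/
def Bdc (F : ℂ → ℝ) : Prop := ∃ C : ℝ, ∀ z : ℂ, ‖z‖ = 1 → |F z| ≤ C

/-- `Nat.Primes.summable_rpow`. -/
theorem summable_pz {s : ℝ} (hs : 1 < s) : Summable fun p : Nat.Primes => ((p : ℕ) : ℝ) ^ (-s) :=
  Nat.Primes.summable_rpow.2 (by linarith)

theorem Mean_pow_pos (p : Nat.Primes) (s : ℝ) : 0 < ((p : ℕ) : ℝ) ^ (-s) :=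
  Real.rpow_pos_of_pos (by exact_mod_cast p.2.pos) _

/-- `p = 2` alone gives a positive term. -/
theorem pz_pos {s : ℝ} (hs : 1 < s) : 0 < pz s :=
  (summable_pz hs).tsum_pos (fun p => (Mean_pow_pos p s).le) ⟨2, Nat.prime_two⟩ (Mean_pow_pos _ s)

/-- Comparison with `C p ^ (-s)`. -/
theorem summable_psum {a : Nat.Primes → ℂ} (ha : ∀ p, ‖a p‖ = 1) {F : ℂ → ℝ} (hF : Bdc F) {s : ℝ}
    (hs : 1 < s) : Summable fun p : Nat.Primes => F (a p) * ((p : ℕ) : ℝ) ^ (-s) := by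
  obtain ⟨C, hC⟩ := hF
  refine Summable.of_norm_bounded ((summable_pz hs).mul_left C) fun p => ?_
  rw [Real.norm_eq_abs, abs_mul, abs_of_pos (Mean_pow_pos p s)]
  exact mul_le_mul_of_nonneg_right (hC _ (ha p)) (Mean_pow_pos p s).le

theorem Mean_ev : ∀ᶠ s : ℝ in 𝓝[>] 1, 1 < s := eventually_mem_nhdsWithin

theorem Mean.one {a : Nat.Primes → ℂ} : Mean a (fun _ => 1) 1 := by
  refine Tendsto.congr' ?_ tendsto_const_nhds
  filter_upwards [Mean_ev] with s hs
  have h1 : psum a (fun _ => 1) s = pz s := by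
    unfold psum pz
    simp only [one_mul]
  rw [h1, div_self (pz_pos hs).ne']

theorem Mean.congr {a : Nat.Primes → ℂ} (ha : ∀ p, ‖a p‖ = 1) {F G : ℂ → ℝ} {L : ℝ}
    (h : Mean a F L) (hFG : ∀ z : ℂ, ‖z‖ = 1 → F z = G z) : Mean a G L := by
  refine Tendsto.congr (fun s => ?_) h
  have h1 : psum a F s = psum a G s := by
    unfold psum
    exact tsum_congr fun p => by rw [hFG _ (ha p)]
  rw [h1]

theorem Mean.add {a : Nat.Primes → ℂ} (ha : ∀ p, ‖a p‖ = 1) {F G : ℂ → ℝ} (hF : Bdc F) (hG : Bdc G)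
    {L M : ℝ} (h : Mean a F L) (h' : Mean a G M) : Mean a (fun z => F z + G z) (L + M) := by
  refine Tendsto.congr' ?_ (Tendsto.add h h')
  filter_upwards [Mean_ev] with s hs
  have h1 : psum a (fun z => F z + G z) s = psum a F s + psum a G s := by
    unfold psum
    rw [← (summable_psum ha hF hs).tsum_add (summable_psum ha hG hs)]
    exact tsum_congr fun p => add_mul _ _ _
  rw [h1, add_div]

theorem Mean.const_mul {a : Nat.Primes → ℂ} {F : ℂ → ℝ} {L : ℝ} (h : Mean a F L) (r : ℝ) :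
    Mean a (fun z => r * F z) (r * L) := by
  refine Tendsto.congr (fun s => ?_) (Tendsto.const_mul r h)
  have h1 : psum a (fun z => r * F z) s = r * psum a F s := by
    unfold psum
    rw [← tsum_mul_left]
    exact tsum_congr fun p => mul_assoc _ _ _
  rw [h1, mul_div_assoc]

theorem Mean_bdc_sum {ι : Type} (t : Finset ι) {F : ι → ℂ → ℝ} (hF : ∀ i ∈ t, Bdc (F i)) :
    Bdc fun z => ∑ i ∈ t, F i z := by
  classical
  induction t using Finset.induction_on with
  | empty => exact ⟨0, fun z _ => by simp⟩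
  | insert i t hi ih =>
    obtain ⟨C, hC⟩ := hF i (Finset.mem_insert_self i t)
    obtain ⟨D, hD⟩ := ih fun j hj => hF j (Finset.mem_insert_of_mem hj)
    refine ⟨C + D, fun z hz => ?_⟩
    beta_reduce
    rw [Finset.sum_insert hi]
    exact (abs_add_le _ _).trans (add_le_add (hC z hz) (hD z hz))

/-- Finite sums. -/
theorem Mean.sum {a : Nat.Primes → ℂ} (ha : ∀ p, ‖a p‖ = 1) {ι : Type} (t : Finset ι)
    {F : ι → ℂ → ℝ} (hF : ∀ i ∈ t, Bdc (F i)) {L : ι → ℝ} (h : ∀ i ∈ t, Mean a (F i) (L i)) :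
    Mean a (fun z => ∑ i ∈ t, F i z) (∑ i ∈ t, L i) := by
  classical
  induction t using Finset.induction_on with
  | empty =>
    have h1 := (Mean.one (a := a)).const_mul 0
    simpa using h1
  | insert i t hi ih =>
    have h1 := ih (fun j hj => hF j (Finset.mem_insert_of_mem hj))
      (fun j hj => h j (Finset.mem_insert_of_mem hj))
    have h2 := Mean.add ha (hF i (Finset.mem_insert_self i t))
      (Mean_bdc_sum t fun j hj => hF j (Finset.mem_insert_of_mem hj))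
      (h i (Finset.mem_insert_self i t)) h1
    rw [Finset.sum_insert hi]
    refine h2.congr ha fun z _ => ?_
    rw [Finset.sum_insert hi]

theorem Mean.nonneg {a : Nat.Primes → ℂ} (ha : ∀ p, ‖a p‖ = 1) {F : ℂ → ℝ} {L : ℝ}
    (h : Mean a F L) (hF : ∀ z : ℂ, ‖z‖ = 1 → 0 ≤ F z) : 0 ≤ L := by
  refine ge_of_tendsto h (Eventually.of_forall fun s => ?_)
  refine div_nonneg (tsum_nonneg fun p => mul_nonneg (hF _ (ha p)) (Mean_pow_pos p s).le)
    (tsum_nonneg fun p => (Mean_pow_pos p s).le)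

/-- `|psum a F s| ≤ ε pz s`. -/
theorem abs_psum_le {a : Nat.Primes → ℂ} (ha : ∀ p, ‖a p‖ = 1) {F : ℂ → ℝ} {ε : ℝ}
    (hF : ∀ z : ℂ, ‖z‖ = 1 → |F z| ≤ ε) {s : ℝ} (hs : 1 < s) : |psum a F s / pz s| ≤ ε := by
  have h1 : ‖psum a F s‖ ≤ ε * pz s := by
    refine tsum_of_norm_bounded ((summable_pz hs).hasSum.mul_left ε) fun p => ?_
    rw [Real.norm_eq_abs, abs_mul, abs_of_pos (Mean_pow_pos p s)]
    exact mul_le_mul_of_nonneg_right (hF _ (ha p)) (Mean_pow_pos p s).le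
  rw [abs_div, abs_of_pos (pz_pos hs), div_le_iff₀ (pz_pos hs)]
  exact h1

/-- The limit property is closed under uniform limits: if for every `ε > 0` there are `G`, `M` with
`Mean a G M`, `|F - G| ≤ ε` on the unit circle and `|L - M| ≤ ε`, then `Mean a F L`. (`3 ε` argument with
`abs_psum_le`.) -/
theorem Mean.of_approx {a : Nat.Primes → ℂ} (ha : ∀ p, ‖a p‖ = 1) {F : ℂ → ℝ} (hF : Bdc F) {L : ℝ}
    (h : ∀ ε > 0, ∃ (G : ℂ → ℝ) (M : ℝ), Bdc G ∧ Mean a G M ∧ (∀ z : ℂ, ‖z‖ = 1 → |F z - G z| ≤ ε) ∧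
      |L - M| ≤ ε) : Mean a F L := by
  refine Metric.tendsto_nhds.2 fun ε hε => ?_
  obtain ⟨G, M, hG, hGM, hFG, hLM⟩ := h (ε / 4) (by positivity)
  filter_upwards [Mean_ev, Metric.tendsto_nhds.1 hGM (ε / 4) (by positivity)] with s hs h1
  have h2 := abs_psum_le ha hFG hs
  have h3 : psum a (fun z => F z - G z) s = psum a F s - psum a G s := by
    unfold psum
    rw [← (summable_psum ha hF hs).tsum_sub (summable_psum ha hG hs)]
    exact tsum_congr fun p => sub_mul _ _ _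
  rw [h3, sub_div] at h2
  rw [Real.dist_eq] at h1 ⊢
  have h4 : psum a F s / pz s - L = (psum a F s / pz s - psum a G s / pz s) +
      (psum a G s / pz s - M) + (M - L) := by ring
  rw [h4]
  have h5 := abs_add_three (psum a F s / pz s - psum a G s / pz s) (psum a G s / pz s - M) (M - L)
  rw [abs_sub_comm L M] at hLM
  linarith

end Pool.Agent.EEAG1
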